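import Pool.Agent.W181.Mom.App3

set_option autoImplicit false

/-! A lower bound uniform in the real exponent. -/

namespace Pool.Agent.W181.Mom

open Finset Filter Topology MeasureTheory Pool.Agent.H306R2

noncomputable section

/-- the constant (without `aF`) obtained from a head `q` and the greedy tail -/
def hc {n : ℕ} (q : Fin n → ℕ) (κ : ℝ) : ℝ :=
  (Vf κ q (fun i => 1 / (q i : ℝ)) *
    Real.exp (-(2 * κ ^ 2 * (Real.log (κ ^ 2 + 1) + 2) * √(1 - 1 / κ - ∑ i, 1 / (q i : ℝ)))) *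
      (1 / κ) ^ (2 * (κ * (1:ℕ))) * Real.Gamma (κ ^ 2 + 1) /
        Real.Gamma (κ * (1:ℕ) + 1) ^ 2) ^ (κ / (1:ℕ))

lemma hc_pos {n : ℕ} (q : Fin n → ℕ) (hq : ∀ i, 2 ≤ q i) {κ : ℝ} (hκ : 0 < κ) : 0 < hc q κ := by
  unfold hc
  have hq0 : ∀ i, (0:ℝ) < q i := fun i => by exact_mod_cast (by linarith [hq i] : 0 < q i)
  have hβ : ∀ i, 0 < (fun i => 1 / (q i : ℝ)) i := fun i => by
    have := hq0 i
    positivity
  have hG : 0 < Real.Gamma (κ ^ 2 + 1) := Real.Gamma_pos_of_pos (by positivity)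
  have hG0 : 0 < Real.Gamma (κ * (1:ℕ) + 1) := Real.Gamma_pos_of_pos (by positivity)
  have hV := Vf_pos hκ q (fun i => 1 / (q i : ℝ)) hβ
  positivity

lemma head_bound {n : ℕ} {κ : ℝ} (hκ : 1 < κ) (q : Fin n → ℕ) (hq : ∀ i, 2 ≤ q i)
    (h1 : ∑ i, 1 / (q i : ℝ) < 1 - 1 / κ) (h2 : 1 - 1 / κ - ∑ i, 1 / (q i : ℝ) ≤ 1 / 4)
    (c : ℝ) (hcc : c < aF κ * hc q κ) :
    ∃ B : ℝ, 0 < B ∧ ∀ᶠ T : ℝ in atTop, ∀ U : ℝ, Real.log T ^ B ≤ U →
      c * (U * Real.log U ^ (κ ^ 2)) ≤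
        ∫ t in T..(T + U), ‖riemannZeta (1 / 2 + t * Complex.I)‖ ^ (2 * κ) := by
  have hκ0 : 0 < κ := by linarith
  set ρ := 1 - 1 / κ - ∑ i, 1 / (q i : ℝ) with hρ
  have hρ0 : 0 < ρ := by rw [hρ]; linarith
  have hq0 : ∀ i, (0:ℝ) < q i := fun i => by exact_mod_cast (by linarith [hq i] : 0 < q i)
  have hβ : ∀ i, 0 < (fun i => 1 / (q i : ℝ)) i := fun i => by
    have := hq0 i
    positivity
  refine masterG hκ.le 1 le_rfl q hq ρ hρ0 h2 ?_ (fun i => 1 / (q i : ℝ)) hβ (fun i => le_rfl)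
    (1 / κ) (by positivity) ?_ (by simpa using hκ.le) c (aF κ * hc q κ)
    (mul_pos (aF_pos hκ0) (hc_pos q hq hκ0)) hcc ?_
  · rw [hρ]; push_cast; ring
  · rw [hρ]; linarith
  · intro r
    have h3 := mB_low hκ0 1 q ρ hρ0 h2 (fun i => 1 / (q i : ℝ)) hβ (1 / κ) (by positivity)
      (by rw [hρ]; linarith) r
    exact mul_le_mul_of_nonneg_left h3 (aF_pos hκ0).le

lemma Gamma_cont {y : ℝ} (hy : 0 < y) : ContinuousAt Real.Gamma y := by
  refine (Real.differentiableAt_Gamma fun m => ?_).continuousAt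
  have : (0:ℝ) ≤ m := Nat.cast_nonneg m
  intro h
  linarith

lemma hc_cont {n : ℕ} (q : Fin n → ℕ) (hq : ∀ i, 2 ≤ q i) {κ : ℝ} (hκ : 0 < κ) :
    ContinuousAt (hc q) κ := by
  have hq0 : ∀ i, (0:ℝ) < q i := fun i => by exact_mod_cast (by linarith [hq i] : 0 < q i)
  have hpos := hc_pos q hq hκ
  have h1 : ContinuousAt (fun κ : ℝ => Real.Gamma (κ ^ 2 + 1)) κ :=
    ContinuousAt.comp (f := fun κ : ℝ => κ ^ 2 + 1) (Gamma_cont (by positivity)) (by fun_prop)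
  have h2 : ContinuousAt (fun κ : ℝ => Real.Gamma (κ * (1:ℕ) + 1)) κ :=
    ContinuousAt.comp (f := fun κ : ℝ => κ * (1:ℕ) + 1) (Gamma_cont (by positivity)) (by fun_prop)
  have h3 : ContinuousAt (fun κ : ℝ => 1 / κ) κ :=
    continuousAt_const.div continuousAt_id hκ.ne'
  have h4 : ContinuousAt (fun κ : ℝ => (1 / κ) ^ (2 * (κ * (1:ℕ)))) κ :=
    ContinuousAt.rpow h3 (by fun_prop) (Or.inl (by positivity))
  have h5 : ContinuousAt (fun κ : ℝ => Real.log (κ ^ 2 + 1)) κ :=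
    ContinuousAt.log (by fun_prop) (by positivity)
  have h6 : ContinuousAt (fun κ : ℝ => √(1 - 1 / κ - ∑ i, 1 / (q i : ℝ))) κ :=
    ContinuousAt.sqrt ((continuousAt_const.sub h3).sub continuousAt_const)
  have h7 : ContinuousAt (fun κ : ℝ =>
      Real.exp (-(2 * κ ^ 2 * (Real.log (κ ^ 2 + 1) + 2) * √(1 - 1 / κ - ∑ i, 1 / (q i : ℝ))))) κ := by
    refine ContinuousAt.rexp (ContinuousAt.neg (ContinuousAt.mul (ContinuousAt.mul (by fun_prop)
      (h5.add continuousAt_const)) h6))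
  have h8 : ContinuousAt (fun κ : ℝ => Vf κ q (fun i => 1 / (q i : ℝ))) κ := by
    unfold Vf
    refine tendsto_finsetProd _ fun i _ => ?_
    have hqi := hq0 i
    have e1 : ContinuousAt (fun κ : ℝ => Real.Gamma (κ ^ 2 / (q i : ℝ) + 1)) κ :=
      ContinuousAt.comp (f := fun κ : ℝ => κ ^ 2 / (q i : ℝ) + 1) (Gamma_cont (by positivity))
        (by fun_prop)
    have e2 : ContinuousAt (fun κ : ℝ => (1 / (q i : ℝ)) ^ (κ ^ 2 / (q i : ℝ))) κ :=
      ContinuousAt.rpow continuousAt_const (by fun_prop) (Or.inl (by positivity))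
    exact e2.div e1 (Real.Gamma_pos_of_pos (by positivity)).ne'
  have hG : 0 < Real.Gamma (κ ^ 2 + 1) := Real.Gamma_pos_of_pos (by positivity)
  have hG0 : 0 < Real.Gamma (κ * (1:ℕ) + 1) := Real.Gamma_pos_of_pos (by positivity)
  have hβ : ∀ i, 0 < (fun i => 1 / (q i : ℝ)) i := fun i => by
    have := hq0 i
    positivity
  have hV := Vf_pos hκ q (fun i => 1 / (q i : ℝ)) hβ
  unfold hc
  refine ContinuousAt.rpow ?_ (by fun_prop) (Or.inl (by positivity))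
  exact ContinuousAt.div (((h8.mul h7).mul h4).mul h1) (h2.pow 2) (by positivity)

lemma hc_unif {n : ℕ} (q : Fin n → ℕ) (hq : ∀ i, 2 ≤ q i) (A K : ℝ) (hA : 0 < A) (hK : 1 ≤ K) :
    ∃ c0 : ℝ, 0 < c0 ∧ ∀ κ : ℝ, 1 ≤ κ → κ ≤ K →
      c0 * (A ^ (κ ^ 2) / Real.Gamma (κ ^ 2 + 1)) < hc q κ := by
  have hcont : ContinuousOn (fun κ => hc q κ / (A ^ (κ ^ 2) / Real.Gamma (κ ^ 2 + 1)))
      (Set.Icc 1 K) := by
    intro κ hκ
    have hκ0 : 0 < κ := by linarith [hκ.1]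
    have hG : 0 < Real.Gamma (κ ^ 2 + 1) := Real.Gamma_pos_of_pos (by positivity)
    refine ContinuousAt.continuousWithinAt (ContinuousAt.div (hc_cont q hq hκ0)
      (ContinuousAt.div ?_ ?_ hG.ne') (by positivity))
    · exact ContinuousAt.rpow continuousAt_const (by fun_prop) (Or.inl hA.ne')
    · exact ContinuousAt.comp (f := fun κ : ℝ => κ ^ 2 + 1) (Gamma_cont (by positivity)) (by fun_prop)
  obtain ⟨κ0, hκ0, hmin⟩ := isCompact_Icc.exists_isMinOn ⟨1, Set.mem_Icc.2 ⟨le_rfl, hK⟩⟩ hcont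
  have hκ00 : 0 < κ0 := by linarith [hκ0.1]
  have hm : 0 < hc q κ0 / (A ^ (κ0 ^ 2) / Real.Gamma (κ0 ^ 2 + 1)) := by
    have hG : 0 < Real.Gamma (κ0 ^ 2 + 1) := Real.Gamma_pos_of_pos (by positivity)
    have := hc_pos q hq hκ00
    positivity
  refine ⟨hc q κ0 / (A ^ (κ0 ^ 2) / Real.Gamma (κ0 ^ 2 + 1)) / 2, by positivity, ?_⟩
  intro κ h1 h2
  have hκ : 0 < κ := by linarith
  have hG : 0 < Real.Gamma (κ ^ 2 + 1) := Real.Gamma_pos_of_pos (by positivity)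
  have h3 : hc q κ0 / (A ^ (κ0 ^ 2) / Real.Gamma (κ0 ^ 2 + 1)) ≤
      hc q κ / (A ^ (κ ^ 2) / Real.Gamma (κ ^ 2 + 1)) := hmin (Set.mem_Icc.2 ⟨h1, h2⟩)
  rw [← lt_div_iff₀ (by positivity)]
  linarith

/-- The uniform bound. -/
theorem uniform_real (A : ℝ) (hA : 0 < A) (hA4 : A < 4 / Real.exp 1) :
    ∃ (c0 K : ℝ), 0 < c0 ∧ 1 ≤ K ∧ ∀ κ : ℝ, 1 ≤ κ → ∀ c : ℝ, (c ≤ c0 ∨ (K ≤ κ ∧ c ≤ 1)) →
      ∃ B : ℝ, 0 < B ∧ ∀ᶠ T : ℝ in atTop, ∀ U : ℝ, Real.log T ^ B ≤ U →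
      (aF κ * (c * (A ^ (κ ^ 2) / Real.Gamma (κ ^ 2 + 1)))) * (U * Real.log U ^ (κ ^ 2)) ≤
        ∫ t in T..(T + U), ‖riemannZeta (1 / 2 + t * Complex.I)‖ ^ (2 * κ) := by
  obtain ⟨K0, hK0⟩ := large_real A hA hA4
  obtain ⟨K, hKd⟩ : ∃ K : ℝ, K = max K0 1 := ⟨_, rfl⟩
  have hK1 : 1 ≤ K := by rw [hKd]; exact le_max_right _ _
  have hKK : K0 ≤ K := by rw [hKd]; exact le_max_left _ _
  obtain ⟨c1, hc1, h1⟩ := hc_unif (n := 0) Fin.elim0 (fun i => i.elim0) A K hA hK1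
  obtain ⟨c2, hc2, h2⟩ := hc_unif (n := 1) ![4] (fun i => by fin_cases i; simp) A K hA hK1
  obtain ⟨c3, hc3, h3⟩ := hc_unif (n := 1) ![2] (fun i => by fin_cases i; simp) A K hA hK1
  obtain ⟨c4, hc4, h4⟩ := hc_unif (n := 2) ![2, 4] (fun i => by fin_cases i <;> simp) A K hA hK1
  -- the case `κ = 1`
  obtain ⟨c5, hc5, h5⟩ : ∃ c5 : ℝ, 0 < c5 ∧ c5 * (aF 1 * (A ^ ((1:ℝ) ^ 2) /
      Real.Gamma ((1:ℝ) ^ 2 + 1))) ≤ 1 / 2 := by
    have h6 : 0 < aF 1 * (A ^ ((1:ℝ) ^ 2) / Real.Gamma ((1:ℝ) ^ 2 + 1)) := by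
      have := aF_pos one_pos
      have hG : 0 < Real.Gamma ((1:ℝ) ^ 2 + 1) := Real.Gamma_pos_of_pos (by positivity)
      positivity
    refine ⟨1 / 2 / (aF 1 * (A ^ ((1:ℝ) ^ 2) / Real.Gamma ((1:ℝ) ^ 2 + 1))), by positivity, ?_⟩
    rw [div_mul_cancel₀ _ h6.ne']
  obtain ⟨c0, hc0d⟩ : ∃ c0 : ℝ, c0 = min (min c1 c2) (min (min c3 c4) (min c5 1)) := ⟨_, rfl⟩
  have hc0 : 0 < c0 := by rw [hc0d]; positivity
  have g1 : c0 ≤ c1 := by rw [hc0d]; exact (min_le_left _ _).trans (min_le_left _ _)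
  have g2 : c0 ≤ c2 := by rw [hc0d]; exact (min_le_left _ _).trans (min_le_right _ _)
  have g3 : c0 ≤ c3 := by
    rw [hc0d]; exact (min_le_right _ _).trans ((min_le_left _ _).trans (min_le_left _ _))
  have g4 : c0 ≤ c4 := by
    rw [hc0d]; exact (min_le_right _ _).trans ((min_le_left _ _).trans (min_le_right _ _))
  have g5 : c0 ≤ c5 := by
    rw [hc0d]; exact (min_le_right _ _).trans ((min_le_right _ _).trans (min_le_left _ _))
  have g6 : c0 ≤ 1 := by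
    rw [hc0d]; exact (min_le_right _ _).trans ((min_le_right _ _).trans (min_le_right _ _))
  refine ⟨c0, K, hc0, hK1, ?_⟩
  intro κ hκ c hcκ
  have hκ0 : 0 < κ := by linarith
  have haF := aF_pos hκ0
  have hG : 0 < Real.Gamma (κ ^ 2 + 1) := Real.Gamma_pos_of_pos (by positivity)
  have hAG : 0 < A ^ (κ ^ 2) / Real.Gamma (κ ^ 2 + 1) := by positivity
  by_cases hKκ : K ≤ κ
  · have hc1' : c ≤ 1 := by
      rcases hcκ with h | h
      · exact h.trans g6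
      · exact h.2
    obtain ⟨B, hB, h⟩ := hK0 κ (hKK.trans hKκ)
    refine ⟨B, hB, ?_⟩
    filter_upwards [h, Real.tendsto_log_atTop.eventually_gt_atTop 1] with T hT hT1 U hU
    have hU1 : 1 ≤ U := le_trans (Real.one_le_rpow hT1.le hB.le) hU
    have h2 : 0 ≤ U * Real.log U ^ (κ ^ 2) :=
      mul_nonneg (by linarith) (Real.rpow_nonneg (Real.log_nonneg hU1) _)
    refine le_trans (mul_le_mul_of_nonneg_right ?_ h2) (hT U hU)
    apply mul_le_mul_of_nonneg_left _ haF.le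
    nlinarith
  · have hcc0 : c ≤ c0 := by
      rcases hcκ with h | h
      · exact h
      · exact absurd h.1 hKκ
    have hκK : κ ≤ K := (not_le.1 hKκ).le
    rcases eq_or_lt_of_le hκ with h | h
    · subst h
      obtain ⟨δ, hδ, hn⟩ := near_one (1 / 2) (by norm_num)
      obtain ⟨B, hB, h⟩ := hn 1 le_rfl (by linarith)
      refine ⟨B, hB, ?_⟩
      filter_upwards [h, Real.tendsto_log_atTop.eventually_gt_atTop 1] with T hT hT1 U hU
      have hU1 : 1 ≤ U := le_trans (Real.one_le_rpow hT1.le hB.le) hU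
      have h2 : 0 ≤ U * Real.log U ^ ((1:ℝ) ^ 2) :=
        mul_nonneg (by linarith) (Real.rpow_nonneg (Real.log_nonneg hU1) _)
      refine le_trans (mul_le_mul_of_nonneg_right ?_ h2) (hT U hU)
      have e1 : aF 1 * (c * (A ^ ((1:ℝ) ^ 2) / Real.Gamma ((1:ℝ) ^ 2 + 1))) =
        c * (aF 1 * (A ^ ((1:ℝ) ^ 2) / Real.Gamma ((1:ℝ) ^ 2 + 1))) := by ring
      rw [e1]
      have e2 : c * (aF 1 * (A ^ ((1:ℝ) ^ 2) / Real.Gamma ((1:ℝ) ^ 2 + 1))) ≤
          c5 * (aF 1 * (A ^ ((1:ℝ) ^ 2) / Real.Gamma ((1:ℝ) ^ 2 + 1))) :=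
        mul_le_mul_of_nonneg_right (hcc0.trans g5) (by positivity)
      linarith
    · have hs1 : 0 < 1 - 1 / κ := by
        have : 1 / κ < 1 := by rw [div_lt_one hκ0]; exact h
        linarith
      have hs2 : 1 - 1 / κ < 1 := by
        have : 0 < 1 / κ := by positivity
        linarith
      have hinv : κ⁻¹ = 1 / κ := (one_div κ).symm
      have fin : ∀ {n : ℕ} (q : Fin n → ℕ) (ci : ℝ), c0 ≤ ci →
          ci * (A ^ (κ ^ 2) / Real.Gamma (κ ^ 2 + 1)) < hc q κ →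
          aF κ * (c * (A ^ (κ ^ 2) / Real.Gamma (κ ^ 2 + 1))) < aF κ * hc q κ := by
        intro n q ci hci h
        apply mul_lt_mul_of_pos_left _ haF
        refine lt_of_le_of_lt ?_ h
        exact mul_le_mul_of_nonneg_right (hcc0.trans hci) hAG.le
      rcases le_or_gt (1 - 1 / κ) (1 / 4) with k1 | k1
      · exact head_bound (n := 0) h Fin.elim0 (fun i => i.elim0) (by simpa using hs1)
          (by simpa using k1) _ (fin _ c1 g1 (h1 κ hκ hκK))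
      · rcases le_or_gt (1 - 1 / κ) (1 / 2) with k2 | k2
        · refine head_bound (n := 1) h ![4] (fun i => by fin_cases i; simp) ?_ ?_ _
            (fin _ c2 g2 (h2 κ hκ hκK))
          · simp; linarith
          · simp; linarith
        · rcases le_or_gt (1 - 1 / κ) (3 / 4) with k3 | k3
          · refine head_bound (n := 1) h ![2] (fun i => by fin_cases i; simp) ?_ ?_ _
              (fin _ c3 g3 (h3 κ hκ hκK))
            · simp; linarith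
            · simp; linarith
          · refine head_bound (n := 2) h ![2, 4] (fun i => by fin_cases i <;> simp) ?_ ?_ _
              (fin _ c4 g4 (h4 κ hκ hκK))
            · simp [Fin.sum_univ_succ]; linarith
            · simp [Fin.sum_univ_succ]; linarith

end

end Pool.Agent.W181.Mom
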