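import Mathlib

set_option autoImplicit false

/-! From windows to the average over `[x, x + T]`. -/

namespace Pool.Agent.W181.Mom

open Filter Topology MeasureTheory

lemma window_to_avg (β e c c' B : ℝ) (hβ : 0 ≤ β) (hc' : 0 < c') (hcc : c < c')
    (h : ∀ᶠ T : ℝ in atTop, ∀ U : ℝ, Real.log T ^ B ≤ U →
      c' * (U * Real.log U ^ e) ≤ ∫ t in T..(T + U), ‖riemannZeta (1 / 2 + t * Complex.I)‖ ^ β)
    (hcont : Continuous (fun t : ℝ => riemannZeta (1 / 2 + t * Complex.I))) (x : ℝ) :
    ∀ᶠ T : ℝ in atTop, c * Real.log T ^ e ≤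
      ∫ u in (0:ℝ)..1, ‖riemannZeta (1 / 2 + Complex.I * x + Complex.I * u * T)‖ ^ β := by
  have hT1 : Tendsto (fun T : ℝ => x + √T) atTop atTop :=
    tendsto_atTop_add_const_left _ _ Real.tendsto_sqrt_atTop
  have hrat : Tendsto (fun T : ℝ => (T - √T) / T) atTop (𝓝 1) := by
    have h1 : Tendsto (fun T : ℝ => 1 - (√T)⁻¹) atTop (𝓝 (1 - 0)) :=
      (Real.tendsto_sqrt_atTop.inv_tendsto_atTop).const_sub 1
    rw [sub_zero] at h1
    refine h1.congr' ?_
    filter_upwards [eventually_gt_atTop 0] with T hT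
    have h2 : 0 < √T := Real.sqrt_pos.2 hT
    have h3 : √T * √T = T := Real.mul_self_sqrt hT.le
    have h4 : 1 - (√T)⁻¹ = (T - √T) / T := by
      rw [eq_div_iff hT.ne']
      have h5 : (√T)⁻¹ * T = √T := by
        rw [inv_mul_eq_div, div_eq_iff h2.ne']
        exact h3.symm
      linear_combination -h5
    exact h4
  have hlogr : Tendsto (fun T : ℝ => Real.log (T - √T) / Real.log T) atTop (𝓝 1) := by
    have h1 : Tendsto (fun T : ℝ => 1 + Real.log ((T - √T) / T) / Real.log T) atTop
        (𝓝 (1 + 0)) := by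
      refine Tendsto.const_add 1 ?_
      have h2 := hrat.log one_ne_zero
      rw [Real.log_one] at h2
      exact h2.div_atTop Real.tendsto_log_atTop
    rw [add_zero] at h1
    refine h1.congr' ?_
    filter_upwards [eventually_gt_atTop 4, hrat.eventually_const_lt (show (0:ℝ) < 1 by norm_num)]
      with T hT hr
    have h3 : 0 < Real.log T := Real.log_pos (by linarith)
    have h4 : T - √T ≠ 0 := by
      intro h0
      rw [h0] at hr
      simp at hr
    rw [Real.log_div h4 (by linarith)]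
    field_simp
    ring
  have hprod : Tendsto (fun T : ℝ => c' * ((T - √T) / T * (Real.log (T - √T) / Real.log T) ^ e))
      atTop (𝓝 (c' * (1 * 1 ^ e))) :=
    (hrat.mul (hlogr.rpow_const (Or.inl one_ne_zero))).const_mul c'
  rw [Real.one_rpow, mul_one, mul_one] at hprod
  have hU : ∀ᶠ T : ℝ in atTop, Real.log (x + √T) ^ B ≤ T - √T := by
    have h1 : ∀ᶠ y : ℝ in atTop, Real.log y ^ B ≤ y := by
      have := (isLittleO_log_rpow_rpow_atTop B (zero_lt_one)).def (zero_lt_one)
      filter_upwards [this, eventually_ge_atTop 1] with y hy hy1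
      rw [one_mul, Real.rpow_one, Real.norm_of_nonneg (Real.rpow_nonneg (Real.log_nonneg hy1) _),
        Real.norm_of_nonneg (by linarith)] at hy
      exact hy
    have h2 : ∀ᶠ T : ℝ in atTop, x + √T ≤ T - √T := by
      filter_upwards [Real.tendsto_sqrt_atTop.eventually_ge_atTop (|x| + 3),
        eventually_ge_atTop 0] with T hT hT0
      have h3 : √T * √T = T := Real.mul_self_sqrt hT0
      have h4 := le_abs_self x
      have h5 := abs_nonneg x
      nlinarith
    filter_upwards [hT1.eventually h1, h2] with T hT hT2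
    exact hT.trans hT2
  filter_upwards [hT1.eventually h, hU, hprod.eventually_const_lt hcc, eventually_gt_atTop 4,
    hrat.eventually_const_lt (show (0:ℝ) < 1 by norm_num),
    hlogr.eventually_const_lt (show (0:ℝ) < 1 by norm_num)]
    with T h1 h2 h3 h4 h5 h6
  have h7 := h1 (T - √T) h2
  have hT0 : 0 < T := by linarith
  have hs : 0 ≤ √T := Real.sqrt_nonneg T
  have hlT : 0 < Real.log T := Real.log_pos (by linarith)
  have hsT : 0 < T - √T := by
    by_contra hneg
    have : (T - √T) / T ≤ 0 := div_nonpos_of_nonpos_of_nonneg (by linarith) hT0.le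
    linarith
  have hlU : 0 < Real.log (T - √T) := by
    by_contra hneg
    have : Real.log (T - √T) / Real.log T ≤ 0 :=
      div_nonpos_of_nonpos_of_nonneg (by linarith) hlT.le
    linarith
  have hnn : ∀ t : ℝ, 0 ≤ ‖riemannZeta (1 / 2 + t * Complex.I)‖ ^ β := fun t =>
    Real.rpow_nonneg (norm_nonneg _) _
  have hfc : Continuous (fun t : ℝ => ‖riemannZeta (1 / 2 + t * Complex.I)‖ ^ β) :=
    hcont.norm.rpow_const fun _ => Or.inr hβ
  have e1 : ∫ u in (0:ℝ)..1, ‖riemannZeta (1 / 2 + Complex.I * x + Complex.I * u * T)‖ ^ β =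
      T⁻¹ * ∫ t in x..(x + T), ‖riemannZeta (1 / 2 + t * Complex.I)‖ ^ β := by
    have e2 := intervalIntegral.integral_comp_add_mul (a := 0) (b := 1)
      (fun t : ℝ => ‖riemannZeta (1 / 2 + t * Complex.I)‖ ^ β) hT0.ne' x
    rw [mul_zero, add_zero, mul_one, smul_eq_mul] at e2
    rw [← e2]
    refine intervalIntegral.integral_congr fun u _ => ?_
    show ‖riemannZeta (1 / 2 + Complex.I * x + Complex.I * u * T)‖ ^ β =
      ‖riemannZeta (1 / 2 + ((x + T * u : ℝ) : ℂ) * Complex.I)‖ ^ β
    congr 3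
    push_cast
    ring
  have e3 : ∫ t in (x + √T)..(x + √T + (T - √T)), ‖riemannZeta (1 / 2 + t * Complex.I)‖ ^ β ≤
      ∫ t in x..(x + T), ‖riemannZeta (1 / 2 + t * Complex.I)‖ ^ β := by
    rw [show x + √T + (T - √T) = x + T by ring]
    have e4 := intervalIntegral.integral_add_adjacent_intervals
      (hfc.intervalIntegrable x (x + √T)) (hfc.intervalIntegrable (x + √T) (x + T)) (μ := volume)
    have e5 : 0 ≤ ∫ t in x..(x + √T), ‖riemannZeta (1 / 2 + t * Complex.I)‖ ^ β :=
      intervalIntegral.integral_nonneg (by linarith) fun t _ => hnn t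
    linarith
  rw [e1]
  have h8 : c' * ((T - √T) * Real.log (T - √T) ^ e) ≤
      ∫ t in x..(x + T), ‖riemannZeta (1 / 2 + t * Complex.I)‖ ^ β := h7.trans e3
  have h9 : c * Real.log T ^ e ≤ T⁻¹ * (c' * ((T - √T) * Real.log (T - √T) ^ e)) := by
    have e6 : T⁻¹ * (c' * ((T - √T) * Real.log (T - √T) ^ e)) =
        c' * ((T - √T) / T * (Real.log (T - √T) / Real.log T) ^ e) * Real.log T ^ e := by
      rw [Real.div_rpow hlU.le hlT.le]
      have : Real.log T ^ e ≠ 0 := (Real.rpow_pos_of_pos hlT _).ne'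
      field_simp
    rw [e6]
    exact mul_le_mul_of_nonneg_right h3.le (Real.rpow_nonneg hlT.le _)
  refine h9.trans (mul_le_mul_of_nonneg_left h8 (by positivity))

end Pool.Agent.W181.Mom
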