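import Pool.Agent.W181.Mom.Master2
import Pool.Agent.H379R2.ConstR

set_option autoImplicit false

/-! Applications of the master theorem: large real exponents, all real exponents, exponents near 2. -/

namespace Pool.Agent.W181.Mom

open Finset Filter Topology MeasureTheory Pool.Agent.H306R2

noncomputable section

lemma gR_lt_gq {ρ κ : ℝ} (hρ : 0 < ρ) (hρ1 : ρ ≤ 1 / 4) (hρκ : ρ ≤ 1 / κ) (hκ : 0 < κ) (i : ℕ) :
    κ < gq ρ i := by
  have h1 := gq_gt ρ i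
  have h2 := gR_le' hρ hρ1 i
  have h3 := gR_pos hρ i
  have h4 : κ ≤ 1 / gR ρ i := by
    rw [le_div_iff₀ h3]
    have h5 : gR ρ i ≤ 1 / κ := h2.trans hρκ
    rw [le_div_iff₀ hκ] at h5
    linarith
  linarith

/-- Large real exponents, windows. -/
theorem large_real (A : ℝ) (hA : 0 < A) (hA4 : A < 4 / Real.exp 1) :
    ∃ K : ℝ, ∀ κ : ℝ, K ≤ κ → ∃ B : ℝ, 0 < B ∧ ∀ᶠ T : ℝ in atTop, ∀ U : ℝ, Real.log T ^ B ≤ U →
      (aF κ * (A ^ (κ ^ 2) / Real.Gamma (κ ^ 2 + 1))) * (U * Real.log U ^ (κ ^ 2)) ≤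
        ∫ t in T..(T + U), ‖riemannZeta (1 / 2 + t * Complex.I)‖ ^ (2 * κ) := by
  obtain ⟨c, hc1, hc2⟩ := exists_between hA4
  have hc : 0 < c := hA.trans hc1
  obtain ⟨η, hη⟩ : ∃ η : ℝ, η = 2 * Real.log 2 - 1 - Real.log c := ⟨_, rfl⟩
  have hη0 : 0 < η := by
    have h1 := Real.log_lt_log hc hc2
    rw [Real.log_div (by norm_num) (Real.exp_pos 1).ne', Real.log_exp,
      show (4 : ℝ) = 2 ^ 2 by norm_num, Real.log_pow] at h1
    push_cast at h1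
    linarith
  obtain ⟨L, hL⟩ := exists_pow_lt_of_lt_one (by positivity : 0 < η / 2)
    (by norm_num : (1 / 2 : ℝ) < 1)
  obtain ⟨C, hC⟩ : ∃ C : ℝ, C = (1 + η) + 5 * (L + 4) + 24 := ⟨_, rfl⟩
  have hC0 : 0 < C := by rw [hC]; positivity
  obtain ⟨a, ha⟩ : ∃ a : ℝ, a = (1 / 2 : ℝ) ^ L * η / 2 := ⟨_, rfl⟩
  have ha0 : 0 < a := by rw [ha]; positivity
  refine ⟨max ((C / a) ^ 2) (max (2 * 2 ^ L) 4), ?_⟩
  intro κ hκ
  have hκ1 : (C / a) ^ 2 ≤ κ := (le_max_left _ _).trans hκ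
  have hκ2 : (2 : ℝ) * 2 ^ L ≤ κ := (le_max_left _ _).trans ((le_max_right _ _).trans hκ)
  have hκ4 : (4 : ℝ) ≤ κ := (le_max_right _ _).trans ((le_max_right _ _).trans hκ)
  have hκ0 : (0 : ℝ) < κ := by linarith
  have hbig : C ≤ a * √κ := by
    have h1 := Real.sqrt_le_sqrt hκ1
    rw [Real.sqrt_sq (by positivity), div_le_iff₀ ha0] at h1
    linarith
  obtain ⟨P, hP⟩ : ∃ P : ℝ, P = (1 / 2 : ℝ) ^ L := ⟨_, rfl⟩
  have hP0 : 0 < P := by rw [hP]; positivity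
  have hP1 : P ≤ 1 := by rw [hP]; exact pow_le_one₀ (by norm_num) (by norm_num)
  have hPP : P * 2 ^ L = 1 := by
    rw [hP, ← mul_pow]; norm_num
  have hPκ : 2 ≤ P * κ := by
    have := mul_le_mul_of_nonneg_left hκ2 hP0.le
    linarith
  obtain ⟨j, hj1, hj2⟩ : ∃ j : ℕ, (j:ℝ) < P * κ ∧ P * κ ≤ j + 1 := by
    refine ⟨⌈P * κ⌉₊ - 1, ?_, ?_⟩
    · have h1 := Nat.ceil_lt_add_one (show 0 ≤ P * κ by positivity)
      have h2 : 1 ≤ ⌈P * κ⌉₊ := Nat.one_le_ceil_iff.2 (by positivity)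
      rw [Nat.cast_sub h2]
      push_cast
      linarith
    · have h1 := Nat.le_ceil (P * κ)
      have h2 : 1 ≤ ⌈P * κ⌉₊ := Nat.one_le_ceil_iff.2 (by positivity)
      rw [Nat.cast_sub h2]
      push_cast
      linarith
  have hj1' : 1 ≤ j := by
    have : (0 : ℝ) < j := by linarith
    exact_mod_cast this
  have hjr : (1:ℝ) ≤ j := by exact_mod_cast hj1'
  obtain ⟨ρ, hρ⟩ : ∃ ρ : ℝ, ρ = P - j / κ := ⟨_, rfl⟩
  have hρ0 : 0 < ρ := by
    rw [hρ, sub_pos, div_lt_iff₀ hκ0]; exact hj1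
  have hρκ : ρ ≤ 1 / κ := by
    rw [hρ, sub_le_iff_le_add, ← add_div, le_div_iff₀ hκ0]; linarith
  have hρ4 : ρ ≤ 1 / 4 := hρκ.trans (one_div_le_one_div_of_le (by norm_num) hκ4)
  have hgeo : ∑ i : Fin L, (1 / 2 : ℝ) ^ ((i:ℕ) + 1) = 1 - P := by
    rw [Pool.Agent.H379R2.ConstB.geo, hP]
  have haF := aF_pos hκ0
  have hcc : A ^ (κ ^ 2) < c ^ (κ ^ 2) := Real.rpow_lt_rpow hA.le hc1 (by positivity)
  have hG : 0 < Real.Gamma (κ ^ 2 + 1) := Real.Gamma_pos_of_pos (by positivity)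
  have hm0 : 1 ≤ κ * j := one_le_mul_of_one_le_of_one_le (by linarith) hjr
  refine masterG (by linarith) j hj1' (fun i : Fin L => 2 ^ ((i:ℕ) + 1)) ?_ ρ hρ0 hρ4 ?_
    (fun i : Fin L => (1 / 2 : ℝ) ^ ((i : ℕ) + 1) / (1 + (1 / 2) ^ L)) (fun i => by positivity) ?_
    (j / κ) (by positivity) ?_ hm0 _ (aF κ * (c ^ (κ ^ 2) / Real.Gamma (κ ^ 2 + 1)))
    (by positivity) ?_ ?_
  · intro i
    have h : 1 ≤ 2 ^ (i:ℕ) := Nat.one_le_two_pow
    show 2 ≤ 2 ^ ((i:ℕ) + 1)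
    rw [pow_succ]
    omega
  · have : ∑ i : Fin L, 1 / (((2 ^ ((i:ℕ) + 1) : ℕ)) : ℝ) = 1 - P := by
      rw [← hgeo]
      refine sum_congr rfl fun i _ => ?_
      push_cast
      rw [div_pow, one_pow]
    show (j:ℝ) / κ + ∑ i : Fin L, 1 / (((2 ^ ((i:ℕ) + 1) : ℕ)) : ℝ) + ρ = 1
    rw [this, hρ]
    ring
  · intro i
    show (1 / 2 : ℝ) ^ ((i : ℕ) + 1) / (1 + (1 / 2) ^ L) ≤ 1 / (((2 ^ ((i:ℕ) + 1) : ℕ)) : ℝ)
    push_cast
    rw [div_pow, one_pow]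
    apply div_le_self (by positivity)
    have : (0:ℝ) ≤ (1 / 2) ^ L := by positivity
    linarith
  · rw [← sum_div, hgeo, ← hP, hρ]
    have h2 : (1 - P) / (1 + P) ≤ 1 - P := by
      rw [div_le_iff₀ (by positivity)]
      nlinarith
    linarith
  · apply mul_lt_mul_of_pos_left _ haF
    exact div_lt_div_of_pos_right hcc hG
  · intro r
    apply mul_le_mul_of_nonneg_left _ haF.le
    have hgs : ∑ i : Fin r, 1 / (gq ρ i : ℝ) = ρ - gR ρ r := by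
      rw [Fin.sum_univ_eq_sum_range (fun i => 1 / (gq ρ i : ℝ)) r, gq_sum]
    have h1 := Pool.Agent.H379R2.ConstR.main_est (κ := κ) (L := L) (r := r) (j := j)
      (fun i : Fin r => gq ρ i) hj1' (by rw [← hP]; exact hj1.le) (by rw [← hP]; linarith) hκ2
      (fun i => gR_lt_gq hρ0 hρ4 hρκ hκ0 i)
      (by rw [hgs]; have := gR_pos hρ0 r; linarith)
      (by
        have h2 := gR_sqrt hρ0 hρ4 r
        rw [Fin.sum_univ_eq_sum_range (fun i => 1 / √(gq ρ i : ℝ)) r]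
        have h3 : 0 ≤ √(gR ρ r) := Real.sqrt_nonneg _
        have h4 : √ρ ≤ 1 / √κ := by
          rw [one_div, ← Real.sqrt_inv, ← one_div]
          exact Real.sqrt_le_sqrt hρκ
        have h5 : 2 * √ρ ≤ 5 / √κ := by
          have h6 : 5 / √κ = 5 * (1 / √κ) := by ring
          rw [h6]
          have : 0 ≤ 1 / √κ := by positivity
          linarith
        linarith)
      (fun i => by
        refine Fin.addCases (fun i => ?_) (fun i => ?_) i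
        · simp only [Pool.Agent.H379R2.ConstR.βR, Fin.append_left]; positivity
        · simp only [Pool.Agent.H379R2.ConstR.βR, Fin.append_right]
          have := gq_pos ρ i
          positivity)
      (Real.log c) η hη0 (by linarith) hL.le (by rw [← hC, ← ha]; exact hbig)
    rw [Real.rpow_def_of_pos hc]
    exact h1

end

end Pool.Agent.W181.Mom
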