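import Pool.Agent.W181.Mom.App

set_option autoImplicit false

/-! All real exponents, exponents near 2. -/

namespace Pool.Agent.W181.Mom

open Finset Filter Topology MeasureTheory Pool.Agent.H306R2

noncomputable section

lemma log_low1 {x : ℝ} (hx : 0 ≤ x) (hx2 : x ≤ 1 / 2) : -x - x ^ 2 ≤ Real.log (1 - x) := by
  -- derivative argument
  have hanti : MonotoneOn (fun y : ℝ => Real.log (1 - y) + y + y ^ 2) (Set.Icc 0 (1 / 2)) := by
    apply monotoneOn_of_deriv_nonneg (convex_Icc _ _)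
    · apply ContinuousOn.add
      · apply ContinuousOn.add _ continuousOn_id
        apply ContinuousOn.log (by fun_prop)
        intro y hy
        have := hy.2
        linarith
      · fun_prop
    · intro y hy
      rw [interior_Icc] at hy
      have h1 : (1 - y) ≠ 0 := by linarith [hy.2]
      exact (((((differentiableAt_id.const_sub 1).log h1).add differentiableAt_id).add
        (differentiableAt_id.pow 2))).differentiableWithinAt
    · intro y hy
      rw [interior_Icc] at hy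
      have h1 : 0 < 1 - y := by linarith [hy.2]
      have hd : HasDerivAt (fun y : ℝ => Real.log (1 - y) + y + y ^ 2)
          ((-1) / (1 - y) + 1 + 2 * y) y := by
        have e1 : HasDerivAt (fun y : ℝ => 1 - y) (-1) y := by
          simpa using (hasDerivAt_id y).const_sub 1
        have e2 := e1.log h1.ne'
        have e3 : HasDerivAt (fun y : ℝ => y ^ 2) (2 * y) y := by
          simpa using hasDerivAt_pow 2 y
        exact (e2.add (hasDerivAt_id y)).add e3
      rw [hd.deriv]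
      have : (-1) / (1 - y) + 1 + 2 * y = y * (1 - 2 * y) / (1 - y) := by
        field_simp; ring
      rw [this]
      have h2 : 0 ≤ 1 - 2 * y := by linarith [hy.2]
      have h3 := hy.1.le
      positivity
  have h := hanti (Set.mem_Icc.2 ⟨le_refl 0, by norm_num⟩) (Set.mem_Icc.2 ⟨hx, hx2⟩) hx
  simp only [sub_zero, Real.log_one, add_zero, ne_eq, OfNat.ofNat_ne_zero, not_false_eq_true,
    zero_pow] at h
  linarith

lemma fp_low {κ x : ℝ} (hκ : 1 ≤ κ) (hκ2 : κ ^ 2 ≤ 2) (hx : 0 < x) (hx2 : x ≤ 1 / 2) :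
    Real.exp (-(3 * (κ ^ 2 - 1) * x ^ 2)) ≤
      (1 - x) ^ (κ ^ 2) * ∑' m : ℕ, lc κ m ^ 2 * x ^ m := by
  have hκ0 : 0 < κ := by linarith
  obtain ⟨t, ht⟩ : ∃ t : ℝ, t = κ ^ 2 - 1 := ⟨_, rfl⟩
  have ht0 : 0 ≤ t := by rw [ht]; nlinarith
  have ht1 : t ≤ 1 := by rw [ht]; linarith
  have hsum : Summable (fun m : ℕ => lc κ m ^ 2 * x ^ m) :=
    Summable.of_nonneg_of_le (fun m => by positivity) (fun m =>
      mul_le_mul_of_nonneg_right (lc_sq_le hκ0.le m) (by positivity))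
      (lc_summable (by positivity) hx (by linarith))
  have hS : (1 - x)⁻¹ + t * x ≤ ∑' m : ℕ, lc κ m ^ 2 * x ^ m := by
    have hg : Summable (fun m : ℕ => x ^ m) := summable_geometric_of_lt_one hx.le (by linarith)
    have e1 : ∑' m : ℕ, x ^ m = (1 - x)⁻¹ := tsum_geometric_of_lt_one hx.le (by linarith)
    rw [← e1, ← Summable.sum_add_tsum_nat_add 2 hsum, ← Summable.sum_add_tsum_nat_add 2 hg]
    simp only [sum_range_succ, range_zero, sum_empty, pow_zero, pow_one, lc_zero, lc_one, zero_add,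
      one_pow, mul_one]
    have e2 : ∑' m : ℕ, x ^ (m + 2) ≤ ∑' m : ℕ, lc κ (m + 2) ^ 2 * x ^ (m + 2) := by
      refine Summable.tsum_le_tsum (fun m => ?_) ((summable_nat_add_iff 2).2 hg)
        ((summable_nat_add_iff 2).2 hsum)
      have h1 : (1:ℝ) ≤ lc κ (m + 2) := by
        rw [← lc_one_left (m + 2)]
        exact lc_mono (by norm_num) hκ _
      have h2 : (1:ℝ) ≤ lc κ (m + 2) ^ 2 := one_le_pow₀ h1
      have h3 : 0 ≤ x ^ (m + 2) := by positivity
      nlinarith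
    have e3 : κ ^ 2 * x = x + t * x := by rw [ht]; ring
    linarith
  have h1x : 0 < 1 - x := by linarith
  have hlog := log_low1 hx.le hx2
  have hp1 : Real.exp ((κ ^ 2 - 1) * Real.log (1 - x)) = (1 - x) ^ (κ ^ 2) * (1 - x)⁻¹ := by
    rw [← Real.rpow_neg_one, ← Real.rpow_add h1x, Real.rpow_def_of_pos h1x]
    congr 1; ring
  have hlow2 : Real.exp (t * x * (1 - x) - (t * x * (1 - x)) ^ 2) ≤ 1 + t * x * (1 - x) := by
    have h0 : 0 ≤ t * x * (1 - x) := by positivity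
    have := log_bd h0
    rw [abs_le] at this
    rw [← Real.le_log_iff_exp_le (by linarith)]
    linarith [this.1]
  have hfin : (1 - x) ^ (κ ^ 2) * ((1 - x)⁻¹ + t * x) =
      (1 - x) ^ (κ ^ 2) * (1 - x)⁻¹ * (1 + t * x * (1 - x)) := by
    field_simp
  calc Real.exp (-(3 * (κ ^ 2 - 1) * x ^ 2)) ≤
      Real.exp ((κ ^ 2 - 1) * Real.log (1 - x) + (t * x * (1 - x) - (t * x * (1 - x)) ^ 2)) := by
        apply Real.exp_le_exp.2
        rw [← ht]
        have h2 : t * (-x - x ^ 2) ≤ t * Real.log (1 - x) := mul_le_mul_of_nonneg_left hlog ht0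
        have h3 : (t * x * (1 - x)) ^ 2 ≤ t * x ^ 2 := by
          have h4 : (t * x * (1 - x)) ^ 2 = (t * x ^ 2) * (t * (1 - x) ^ 2) := by ring
          rw [h4]
          have h5 : (1 - x) ^ 2 ≤ 1 := pow_le_one₀ h1x.le (by linarith)
          have h6 : t * (1 - x) ^ 2 ≤ 1 := by nlinarith [sq_nonneg (1 - x)]
          have h7 : 0 ≤ t * x ^ 2 := by positivity
          nlinarith
        nlinarith
    _ = (1 - x) ^ (κ ^ 2) * (1 - x)⁻¹ * Real.exp (t * x * (1 - x) - (t * x * (1 - x)) ^ 2) := by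
        rw [Real.exp_add, hp1]
    _ ≤ (1 - x) ^ (κ ^ 2) * (1 - x)⁻¹ * (1 + t * x * (1 - x)) := by
        apply mul_le_mul_of_nonneg_left hlow2 (by positivity)
    _ = (1 - x) ^ (κ ^ 2) * ((1 - x)⁻¹ + t * x) := hfin.symm
    _ ≤ _ := mul_le_mul_of_nonneg_left hS (by positivity)

/-- the arithmetic factor near `κ = 1` -/
theorem aF_near : ∃ C : ℝ, 0 ≤ C ∧ ∀ κ : ℝ, 1 ≤ κ → κ ^ 2 ≤ 2 →
    Real.exp (-(C * (κ ^ 2 - 1))) ≤ aF κ := by
  refine ⟨3 * ∑' p : Nat.Primes, (1 / ((p:ℕ):ℝ)) ^ 2, by positivity, ?_⟩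
  intro κ hκ hκ2
  have hκ0 : 0 < κ := by linarith
  have h := aF_eq (ι := Fin 1) (e := fun _ => κ) (fun _ => hκ0.le) (by simpa using hκ0)
  have hex : ∀ p : Nat.Primes, Real.exp (up (fun _ : Fin 1 => κ) 0 p) = _ := fun p =>
    exp_up (ι := Fin 1) (e := fun _ => κ) (s := 0) (fun _ => hκ0.le) (by simpa using hκ0)
      (fun _ => le_refl _) p.2
  have hsm := up_summable (ι := Fin 1) (e := fun _ => κ) (s := 0) (fun _ => hκ0.le)
    (by simpa using hκ0) (fun _ => le_refl _)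
  have hfac : ∀ p : Nat.Primes, _ = _ := fun p => aF_factor (ι := Fin 1) (e := fun _ => κ) p.2
  simp only [univ_unique, sum_const, card_singleton, one_smul] at h hfac hex
  rw [h]
  apply Real.exp_le_exp.2
  have h1 : ∀ p : Nat.Primes, -(3 * (κ ^ 2 - 1) * (1 / ((p:ℕ):ℝ)) ^ 2) ≤
      up (fun _ : Fin 1 => κ) 0 p := by
    intro p
    apply Real.exp_le_exp.1
    rw [hex p, hfac p]
    have := inv_prime p.2
    exact fp_low hκ hκ2 this.1 this.2
  have h2 : -(3 * (∑' p : Nat.Primes, (1 / ((p:ℕ):ℝ)) ^ 2) * (κ ^ 2 - 1)) =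
      ∑' p : Nat.Primes, -(3 * (κ ^ 2 - 1) * (1 / ((p:ℕ):ℝ)) ^ 2) := by
    rw [tsum_neg, tsum_mul_left]
    ring
  rw [h2]
  exact Summable.tsum_le_tsum h1 ((primes_summable.mul_left _).neg) hsm

/-- the contribution of the greedy tail -/
lemma tail_prod {κ ρ : ℝ} (hκ : 0 < κ) (hρ : 0 < ρ) (hρ1 : ρ ≤ 1 / 4) (r : ℕ) :
    Real.exp (-(2 * κ ^ 2 * (Real.log (κ ^ 2 + 1) + 2) * √ρ)) ≤
      ∏ i : Fin r, (1 / (gq ρ i : ℝ)) ^ (κ ^ 2 / (gq ρ i : ℝ)) /
        Real.Gamma (κ ^ 2 / (gq ρ i : ℝ) + 1) := by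
  obtain ⟨x, hx⟩ : ∃ x : ℝ, x = κ ^ 2 := ⟨_, rfl⟩
  have hx0 : 0 < x := by rw [hx]; positivity
  rw [← hx]
  have hM : 0 ≤ Real.log (x + 1) := Real.log_nonneg (by linarith)
  have hterm : ∀ i : Fin r, Real.exp (-(x * (Real.log (x + 1) + 2)) * (1 / √(gq ρ i : ℝ))) ≤
      (1 / (gq ρ i : ℝ)) ^ (x / (gq ρ i : ℝ)) / Real.Gamma (x / (gq ρ i : ℝ) + 1) := by
    intro i
    obtain ⟨E, hE⟩ : ∃ E : ℝ, E = gq ρ i := ⟨_, rfl⟩
    have hE4 : (4:ℝ) ≤ E := by rw [hE]; exact_mod_cast gq_ge hρ hρ1 i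
    have hE0 : 0 < E := by linarith
    rw [← hE]
    have hxE0 : 0 ≤ x / E := by positivity
    have hGp : 0 < Real.Gamma (x / E + 1) := Real.Gamma_pos_of_pos (by linarith)
    rw [Real.rpow_def_of_pos (by positivity)]
    rw [show Real.exp (Real.log (1 / E) * (x / E)) / Real.Gamma (x / E + 1) =
      Real.exp (Real.log (1 / E) * (x / E) - Real.log (Real.Gamma (x / E + 1))) by
      rw [Real.exp_sub, Real.exp_log hGp]]
    apply Real.exp_le_exp.2
    have g1 := Pool.Agent.H379R2.ConstR.gam_le hxE0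
    have g3 : Real.log (x / E + 1) ≤ Real.log (x + 1) := by
      apply Real.log_le_log (by positivity)
      have : x / E ≤ x := div_le_self hx0.le (by linarith)
      linarith
    have hs0 : 0 < √E := Real.sqrt_pos.2 hE0
    have hss : √E * √E = E := Real.mul_self_sqrt hE0.le
    have g4 : Real.log E ≤ 2 * √E := by
      have h1 : Real.log E = 2 * Real.log (√E) := by
        rw [Real.log_sqrt hE0.le]; ring
      have h2 := Real.log_le_sub_one_of_pos hs0
      linarith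
    have h1E : 1 / E ≤ 1 / √E := by
      apply one_div_le_one_div_of_le hs0
      have : 1 ≤ √E := by
        rw [← Real.sqrt_one]; exact Real.sqrt_le_sqrt (by linarith)
      nlinarith
    rw [one_div E, Real.log_inv]
    have g6 : x / E * Real.log E ≤ x / E * (2 * √E) := mul_le_mul_of_nonneg_left g4 hxE0
    have g8 : x / E * √E = x * (1 / √E) := by
      rw [div_mul_eq_mul_div, mul_one_div, div_eq_div_iff hE0.ne' hs0.ne']
      linear_combination x * hss
    have g9 : x / E * Real.log (x / E + 1) ≤ x * Real.log (x + 1) * (1 / √E) := by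
      calc x / E * Real.log (x / E + 1) ≤ x / E * Real.log (x + 1) :=
            mul_le_mul_of_nonneg_left g3 hxE0
        _ = x * Real.log (x + 1) * (1 / E) := by ring
        _ ≤ _ := mul_le_mul_of_nonneg_left h1E (by positivity)
    have e1 : -Real.log E * (x / E) = -(x / E * Real.log E) := by ring
    rw [e1]
    nlinarith
  refine le_trans ?_ (prod_le_prod (fun i _ => by positivity) fun i _ => hterm i)
  rw [← Real.exp_sum, ← mul_sum, Fin.sum_univ_eq_sum_range (fun i => 1 / √(gq ρ i : ℝ)) r]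
  apply Real.exp_le_exp.2
  have h2 := gR_sqrt hρ hρ1 r
  have h3 : 0 ≤ √(gR ρ r) := Real.sqrt_nonneg _
  have h4 : ∑ i ∈ range r, 1 / √(gq ρ i : ℝ) ≤ 2 * √ρ := by linarith
  have h5 : 0 ≤ x * (Real.log (x + 1) + 2) := by positivity
  nlinarith [mul_le_mul_of_nonneg_left h4 h5]

lemma Vf_append {κ : ℝ} {n r : ℕ} (q : Fin n → ℕ) (β : Fin n → ℝ) (q' : Fin r → ℕ)
    (β' : Fin r → ℝ) : Vf κ (Fin.append q q') (Fin.append β β') = Vf κ q β * Vf κ q' β' := by
  unfold Vf
  rw [Fin.prod_univ_add]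
  simp only [Fin.append_left, Fin.append_right]

/-- uniform lower bound for the constants -/
lemma mB_low {n : ℕ} {κ : ℝ} (hκ : 0 < κ) (j : ℕ) (q : Fin n → ℕ)
    (ρ : ℝ) (hρ : 0 < ρ) (hρ1 : ρ ≤ 1 / 4) (β : Fin n → ℝ) (hβ : ∀ i, 0 < β i) (b : ℝ) (hb : 0 < b)
    (hβs : ∑ i, β i + ρ + b ≤ 1) (r : ℕ) :
    (Vf κ q β * Real.exp (-(2 * κ ^ 2 * (Real.log (κ ^ 2 + 1) + 2) * √ρ)) *
      b ^ (2 * (κ * j)) * Real.Gamma (κ ^ 2 + 1) / Real.Gamma (κ * j + 1) ^ 2) ^ (κ / j) ≤
    mB κ j (Fin.append q (fun i : Fin r => gq ρ i))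
      (Fin.append β (fun i : Fin r => 1 / (gq ρ i : ℝ))) := by
  rw [mB_eqf, Vf_append]
  have hV := Vf_pos hκ q β hβ
  have ht := tail_prod hκ hρ hρ1 r
  have hgs : ∑ i : Fin r, 1 / (gq ρ i : ℝ) = ρ - gR ρ r := by
    rw [Fin.sum_univ_eq_sum_range (fun i => 1 / (gq ρ i : ℝ)) r, gq_sum]
  have hD : b ≤ Df κ (Fin.append q (fun i : Fin r => gq ρ i))
      (Fin.append β (fun i : Fin r => 1 / (gq ρ i : ℝ))) := by
    apply Df_ge
    · intro i
      refine Fin.addCases (fun i => ?_) (fun i => ?_) i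
      · rw [Fin.append_left]; exact hβ i
      · rw [Fin.append_right]
        have := gq_pos ρ i
        positivity
    · rw [Fin.sum_univ_add]
      simp only [Fin.append_left, Fin.append_right]
      rw [hgs]
      have := gR_pos hρ r
      linarith
  have hG : 0 < Real.Gamma (κ ^ 2 + 1) := Real.Gamma_pos_of_pos (by positivity)
  have hG0 : 0 < Real.Gamma (κ * j + 1) := Real.Gamma_pos_of_pos (by positivity)
  refine Real.rpow_le_rpow (by positivity) ?_ (by positivity)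
  have hbD : b ^ (2 * (κ * j)) ≤ Df κ (Fin.append q (fun i : Fin r => gq ρ i))
      (Fin.append β (fun i : Fin r => 1 / (gq ρ i : ℝ))) ^ (2 * (κ * j)) :=
    Real.rpow_le_rpow hb.le hD (by positivity)
  have ht' : Real.exp (-(2 * κ ^ 2 * (Real.log (κ ^ 2 + 1) + 2) * √ρ)) ≤
    Vf κ (fun i : Fin r => gq ρ i) (fun i : Fin r => 1 / (gq ρ i : ℝ)) := ht
  have hV' : 0 < Vf κ (fun i : Fin r => gq ρ i) (fun i : Fin r => 1 / (gq ρ i : ℝ)) :=
    lt_of_lt_of_le (Real.exp_pos _) ht'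
  have hVV : 0 ≤ Vf κ q β * Vf κ (fun i : Fin r => gq ρ i) (fun i : Fin r => 1 / (gq ρ i : ℝ)) := by
    positivity
  gcongr

end

end Pool.Agent.W181.Mom
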