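import Pool.Agent.W181.Mom.App2

set_option autoImplicit false

/-! All real exponents, exponents near 2. -/

namespace Pool.Agent.W181.Mom

open Finset Filter Topology MeasureTheory Pool.Agent.H306R2

noncomputable section

/-- the lower bound for the constant near `κ = 1`. -/
def Phi1 (C κ : ℝ) : ℝ :=
  Real.exp (-(C * (κ ^ 2 - 1))) *
    (1 * Real.exp (-(2 * κ ^ 2 * (Real.log (κ ^ 2 + 1) + 2) * √(1 - 1 / κ))) *
      (1 / κ) ^ (2 * (κ * (1:ℕ))) * Real.Gamma (κ ^ 2 + 1) /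
        Real.Gamma (κ * (1:ℕ) + 1) ^ 2) ^ (κ / (1:ℕ))

lemma Phi1_one (C : ℝ) : Phi1 C 1 = 1 := by
  unfold Phi1
  norm_num

lemma Phi1_cont (C : ℝ) : ContinuousAt (Phi1 C) 1 := by
  unfold Phi1
  have hG : ∀ y : ℝ, 0 < y → ContinuousAt Real.Gamma y := fun y hy => by
    refine (Real.differentiableAt_Gamma fun m => ?_).continuousAt
    have : (0:ℝ) ≤ m := Nat.cast_nonneg m
    intro h
    linarith
  have h1 : ContinuousAt (fun κ : ℝ => Real.Gamma (κ ^ 2 + 1)) 1 :=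
    ContinuousAt.comp (f := fun κ : ℝ => κ ^ 2 + 1) (hG _ (by norm_num)) (by fun_prop)
  have h2 : ContinuousAt (fun κ : ℝ => Real.Gamma (κ * (1:ℕ) + 1)) 1 :=
    ContinuousAt.comp (f := fun κ : ℝ => κ * (1:ℕ) + 1) (hG _ (by norm_num)) (by fun_prop)
  have h3 : ContinuousAt (fun κ : ℝ => 1 / κ) 1 :=
    continuousAt_const.div continuousAt_id one_ne_zero
  have h4 : ContinuousAt (fun κ : ℝ => (1 / κ) ^ (2 * (κ * (1:ℕ)))) 1 :=
    ContinuousAt.rpow h3 (by fun_prop) (Or.inl (by norm_num))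
  have h5 : ContinuousAt (fun κ : ℝ => Real.log (κ ^ 2 + 1)) 1 :=
    ContinuousAt.log (by fun_prop) (by norm_num)
  have h6 : ContinuousAt (fun κ : ℝ => √(1 - 1 / κ)) 1 :=
    ContinuousAt.sqrt (continuousAt_const.sub h3)
  have h7 : ContinuousAt (fun κ : ℝ =>
      Real.exp (-(2 * κ ^ 2 * (Real.log (κ ^ 2 + 1) + 2) * √(1 - 1 / κ)))) 1 := by
    refine ContinuousAt.rexp (ContinuousAt.neg (ContinuousAt.mul (ContinuousAt.mul (by fun_prop)
      (h5.add continuousAt_const)) h6))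
  refine ContinuousAt.mul (by fun_prop) (ContinuousAt.rpow ?_ (by fun_prop) (Or.inl ?_))
  · refine ContinuousAt.div (((continuousAt_const.mul h7).mul h4).mul h1) (h2.pow 2) ?_
    have : Real.Gamma (1 * (1:ℕ) + 1) = 1 := by norm_num
    rw [this]
    norm_num
  · norm_num

/-- Exponents close to 2 (`κ` close to 1). -/
theorem near_one (ε : ℝ) (hε : 0 < ε) : ∃ δ : ℝ, 0 < δ ∧ ∀ κ : ℝ, 1 ≤ κ → κ < 1 + δ →
    ∃ B : ℝ, 0 < B ∧ ∀ᶠ T : ℝ in atTop, ∀ U : ℝ, Real.log T ^ B ≤ U →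
      (1 - ε) * (U * Real.log U ^ (κ ^ 2)) ≤
        ∫ t in T..(T + U), ‖riemannZeta (1 / 2 + t * Complex.I)‖ ^ (2 * κ) := by
  obtain ⟨C, hC, haF⟩ := aF_near
  have hev : ∀ᶠ κ in 𝓝 (1:ℝ), 1 - ε < Phi1 C κ := by
    refine (Phi1_cont C).eventually_const_lt ?_
    rw [Phi1_one]
    linarith
  obtain ⟨δ0, hδ0, hb⟩ := Metric.eventually_nhds_iff.1 hev
  refine ⟨min δ0 (1 / 4), by positivity, ?_⟩
  intro κ hκ1 hκδ
  have hκδ0 : κ < 1 + δ0 := lt_of_lt_of_le hκδ (by linarith [min_le_left δ0 (1 / 4)])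
  have hκ4 : κ < 1 + 1 / 4 := lt_of_lt_of_le hκδ (by linarith [min_le_right δ0 (1 / 4)])
  have hκ0 : 0 < κ := by linarith
  have hκ2 : κ ^ 2 ≤ 2 := by nlinarith
  have haF1 := haF κ hκ1 hκ2
  rcases eq_or_lt_of_le hκ1 with h | h
  · -- κ = 1
    subst h
    refine H295LM.masterX (n := 0) 1 one_pos 1 Fin.elim0 Fin.elim0
      ⟨le_refl 1, fun i => i.elim0, by simp, fun i => i.elim0, fun i => i.elim0, by simp, by simp⟩
      (1 - ε) ?_
    have h1 : mB 1 1 (Fin.elim0 : Fin 0 → ℕ) (Fin.elim0 : Fin 0 → ℝ) = 1 := by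
      unfold mB
      norm_num
    rw [h1, mul_one]
    refine lt_of_lt_of_le (by linarith : 1 - ε < 1) ?_
    simpa using haF1
  · have hρ0 : 0 < 1 - 1 / κ := by
      have : 1 / κ < 1 := by rw [div_lt_one hκ0]; exact h
      linarith
    have hρ4 : 1 - 1 / κ ≤ 1 / 4 := by
      have : 3 / 4 ≤ 1 / κ := by
        rw [le_div_iff₀ hκ0]; linarith
      linarith
    have hc0 : 0 < Phi1 C κ := by
      unfold Phi1
      have hG : 0 < Real.Gamma (κ ^ 2 + 1) := Real.Gamma_pos_of_pos (by positivity)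
      have hG0 : 0 < Real.Gamma (κ * (1:ℕ) + 1) := Real.Gamma_pos_of_pos (by positivity)
      positivity
    refine masterG (n := 0) hκ1 1 le_rfl Fin.elim0 (fun i => i.elim0) (1 - 1 / κ) hρ0 hρ4 (by simp)
      Fin.elim0 (fun i => i.elim0) (fun i => i.elim0) (1 / κ) (by positivity) (by simp)
      (by simpa using hκ1) (1 - ε) (Phi1 C κ) hc0 ?_ ?_
    · apply hb
      rw [Real.dist_eq, abs_lt]
      constructor <;> linarith
    · intro r
      have h1 := mB_low hκ0 1 (Fin.elim0 : Fin 0 → ℕ) (1 - 1 / κ) hρ0 hρ4 (Fin.elim0 : Fin 0 → ℝ)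
        (fun i => i.elim0) (1 / κ) (by positivity) (by simp) r
      have hV : Vf κ (Fin.elim0 : Fin 0 → ℕ) (Fin.elim0 : Fin 0 → ℝ) = 1 := by
        unfold Vf; simp
      rw [hV] at h1
      have hG : 0 < Real.Gamma (κ ^ 2 + 1) := Real.Gamma_pos_of_pos (by positivity)
      have hG0 : 0 < Real.Gamma (κ * (1:ℕ) + 1) := Real.Gamma_pos_of_pos (by positivity)
      unfold Phi1
      exact mul_le_mul haF1 h1 (by positivity) (aF_pos hκ0).le

/-- a head and the greedy tail -/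
lemma all_head {n : ℕ} {κ : ℝ} (hκ : 1 < κ) (q : Fin n → ℕ) (hq : ∀ i, 2 ≤ q i)
    (h1 : ∑ i, 1 / (q i : ℝ) < 1 - 1 / κ) (h2 : 1 - 1 / κ - ∑ i, 1 / (q i : ℝ) ≤ 1 / 4) :
    ∃ c : ℝ, 0 < c ∧ ∃ B : ℝ, 0 < B ∧ ∀ᶠ T : ℝ in atTop, ∀ U : ℝ, Real.log T ^ B ≤ U →
      c * (U * Real.log U ^ (κ ^ 2)) ≤
        ∫ t in T..(T + U), ‖riemannZeta (1 / 2 + t * Complex.I)‖ ^ (2 * κ) := by
  have hκ0 : 0 < κ := by linarith
  set ρ := 1 - 1 / κ - ∑ i, 1 / (q i : ℝ) with hρ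
  have hρ0 : 0 < ρ := by rw [hρ]; linarith
  have hq0 : ∀ i, (0:ℝ) < q i := fun i => by exact_mod_cast (by linarith [hq i] : 0 < q i)
  have hβ : ∀ i, 0 < (fun i => 1 / (q i : ℝ)) i := fun i => by
    have := hq0 i
    positivity
  set c' := aF κ * (Vf κ q (fun i => 1 / (q i : ℝ)) *
    Real.exp (-(2 * κ ^ 2 * (Real.log (κ ^ 2 + 1) + 2) * √ρ)) *
      (1 / κ) ^ (2 * (κ * (1:ℕ))) * Real.Gamma (κ ^ 2 + 1) /
        Real.Gamma (κ * (1:ℕ) + 1) ^ 2) ^ (κ / (1:ℕ)) with hc'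
  have hc'0 : 0 < c' := by
    have hG : 0 < Real.Gamma (κ ^ 2 + 1) := Real.Gamma_pos_of_pos (by positivity)
    have hG0 : 0 < Real.Gamma (κ * (1:ℕ) + 1) := Real.Gamma_pos_of_pos (by positivity)
    have hV := Vf_pos hκ0 q (fun i => 1 / (q i : ℝ)) hβ
    have ha := aF_pos hκ0
    positivity
  refine ⟨c' / 2, by positivity, ?_⟩
  refine masterG hκ.le 1 le_rfl q hq ρ hρ0 h2 ?_ (fun i => 1 / (q i : ℝ)) hβ (fun i => le_rfl)
    (1 / κ) (by positivity) ?_ (by simpa using hκ.le) (c' / 2) c' hc'0 (by linarith) ?_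
  · rw [hρ]; push_cast; ring
  · rw [hρ]; linarith
  · intro r
    have h3 := mB_low hκ0 1 q ρ hρ0 h2 (fun i => 1 / (q i : ℝ)) hβ (1 / κ) (by positivity)
      (by rw [hρ]; linarith) r
    exact mul_le_mul_of_nonneg_left h3 (aF_pos hκ0).le

/-- All real exponents `≥ 2` (`κ ≥ 1`). -/
theorem all_real (κ : ℝ) (hκ : 1 ≤ κ) :
    ∃ c : ℝ, 0 < c ∧ ∃ B : ℝ, 0 < B ∧ ∀ᶠ T : ℝ in atTop, ∀ U : ℝ, Real.log T ^ B ≤ U →
      c * (U * Real.log U ^ (κ ^ 2)) ≤
        ∫ t in T..(T + U), ‖riemannZeta (1 / 2 + t * Complex.I)‖ ^ (2 * κ) := by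
  rcases eq_or_lt_of_le hκ with h | h
  · obtain ⟨δ, hδ, hn⟩ := near_one (1 / 2) (by norm_num)
    obtain ⟨B, hB, h1⟩ := hn κ hκ (by linarith)
    exact ⟨1 - 1 / 2, by norm_num, B, hB, h1⟩
  · have hκ0 : 0 < κ := by linarith
    have hs1 : 0 < 1 - 1 / κ := by
      have : 1 / κ < 1 := by rw [div_lt_one hκ0]; exact h
      linarith
    have hs2 : 1 - 1 / κ < 1 := by
      have : 0 < 1 / κ := by positivity
      linarith
    have hinv : κ⁻¹ = 1 / κ := (one_div κ).symm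
    rcases le_or_gt (1 - 1 / κ) (1 / 4) with h1 | h1
    · exact all_head (n := 0) h Fin.elim0 (fun i => i.elim0) (by simpa using hs1) (by simpa using h1)
    · rcases le_or_gt (1 - 1 / κ) (1 / 2) with h2 | h2
      · refine all_head (n := 1) h ![4] (fun i => by fin_cases i; simp) ?_ ?_
        · simp; linarith
        · simp; linarith
      · rcases le_or_gt (1 - 1 / κ) (3 / 4) with h3 | h3
        · refine all_head (n := 1) h ![2] (fun i => by fin_cases i; simp) ?_ ?_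
          · simp; linarith
          · simp; linarith
        · refine all_head (n := 2) h ![2, 4] (fun i => by fin_cases i <;> simp) ?_ ?_
          · simp [Fin.sum_univ_succ]; linarith
          · simp [Fin.sum_univ_succ]; linarith

end

end Pool.Agent.W181.Mom
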