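import Mathlib

set_option autoImplicit false

/-! Greedy expansion of a real number into unit fractions. -/

namespace Pool.Agent.W181.Mom

open Finset Filter Topology

noncomputable section

/-- the next denominator -/
def gE (r : ℝ) : ℕ := ⌊1 / r⌋₊ + 1

/-- the remainders -/
def gR (r0 : ℝ) : ℕ → ℝ
  | 0 => r0
  | n + 1 => gR r0 n - 1 / (gE (gR r0 n) : ℝ)

/-- the denominators -/
def gq (r0 : ℝ) (n : ℕ) : ℕ := gE (gR r0 n)

lemma gR_zero (r0 : ℝ) : gR r0 0 = r0 := rfl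

lemma gR_succ (r0 : ℝ) (n : ℕ) : gR r0 (n + 1) = gR r0 n - 1 / (gq r0 n : ℝ) := rfl

lemma gE_gt {r : ℝ} : 1 / r < gE r := by
  unfold gE
  push_cast
  exact Nat.lt_floor_add_one _

lemma gE_le {r : ℝ} (hr : 0 < r) : (gE r : ℝ) ≤ 1 / r + 1 := by
  unfold gE
  push_cast
  have := Nat.floor_le (a := 1 / r) (by positivity)
  linarith

lemma gE_pos (r : ℝ) : (0:ℝ) < gE r := by
  unfold gE; push_cast; positivity

lemma gstep {r : ℝ} (hr : 0 < r) : 0 < r - 1 / (gE r : ℝ) ∧ r - 1 / (gE r : ℝ) ≤ r ^ 2 := by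
  have h1 := gE_gt (r := r)
  have h2 := gE_le hr
  have h0 := gE_pos r
  constructor
  · have : 1 / (gE r : ℝ) < r := by
      rw [div_lt_iff₀ h0]
      rw [div_lt_iff₀ hr] at h1
      linarith
    linarith
  · have h3 : 1 / (1 / r + 1) ≤ 1 / (gE r : ℝ) := one_div_le_one_div_of_le h0 h2
    have h4 : 1 / (1 / r + 1) = r / (1 + r) := by field_simp
    have h5 : r - r / (1 + r) = r ^ 2 / (1 + r) := by field_simp; ring
    have h6 : r ^ 2 / (1 + r) ≤ r ^ 2 := div_le_self (by positivity) (by linarith)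
    rw [h4] at h3
    linarith

lemma gR_pos {r0 : ℝ} (hr : 0 < r0) (n : ℕ) : 0 < gR r0 n := by
  induction n with
  | zero => exact hr
  | succ n ih => exact (gstep ih).1

lemma gR_sq {r0 : ℝ} (hr : 0 < r0) (n : ℕ) : gR r0 (n + 1) ≤ gR r0 n ^ 2 :=
  (gstep (gR_pos hr n)).2

lemma gR_le {r0 : ℝ} (hr : 0 < r0) (hr1 : r0 ≤ 1 / 4) (n : ℕ) : gR r0 n ≤ r0 * (1 / 4) ^ n := by
  induction n with
  | zero => simp [gR_zero]
  | succ n ih =>
    have h1 := gR_sq hr n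
    have h2 := gR_pos hr n
    have h3 : gR r0 n ≤ 1 / 4 := by
      refine ih.trans ?_
      have : (1 / 4 : ℝ) ^ n ≤ 1 := pow_le_one₀ (by norm_num) (by norm_num)
      nlinarith
    rw [pow_succ]
    nlinarith

lemma gR_le' {r0 : ℝ} (hr : 0 < r0) (hr1 : r0 ≤ 1 / 4) (n : ℕ) : gR r0 n ≤ r0 := by
  refine (gR_le hr hr1 n).trans ?_
  have : (1 / 4 : ℝ) ^ n ≤ 1 := pow_le_one₀ (by norm_num) (by norm_num)
  nlinarith

lemma gR_tendsto {r0 : ℝ} (hr : 0 < r0) (hr1 : r0 ≤ 1 / 4) : Tendsto (gR r0) atTop (𝓝 0) := by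
  have h := (tendsto_pow_atTop_nhds_zero_of_lt_one (by norm_num : (0:ℝ) ≤ 1 / 4)
    (by norm_num)).const_mul r0
  rw [mul_zero] at h
  exact squeeze_zero (fun n => (gR_pos hr n).le) (fun n => gR_le hr hr1 n) h

lemma gq_pos (r0 : ℝ) (n : ℕ) : (0:ℝ) < gq r0 n := gE_pos _

lemma gq_gt (r0 : ℝ) (n : ℕ) : 1 / gR r0 n < gq r0 n := gE_gt

lemma gq_le {r0 : ℝ} (hr : 0 < r0) (n : ℕ) : (gq r0 n : ℝ) ≤ 1 / gR r0 n + 1 := gE_le (gR_pos hr n)

lemma gq_ge {r0 : ℝ} (hr : 0 < r0) (hr1 : r0 ≤ 1 / 4) (n : ℕ) : 4 ≤ gq r0 n := by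
  have h1 := gq_gt r0 n
  have h2 := gR_le' hr hr1 n
  have h3 := gR_pos hr n
  have h4 : (4:ℝ) ≤ 1 / gR r0 n := by
    rw [le_div_iff₀ h3]; linarith
  have h5 : (4:ℝ) < gq r0 n := by linarith
  have : 4 < gq r0 n := by exact_mod_cast h5
  omega

lemma gq_sum (r0 : ℝ) (n : ℕ) : ∑ i ∈ range n, 1 / (gq r0 i : ℝ) = r0 - gR r0 n := by
  induction n with
  | zero => simp [gR_zero]
  | succ n ih => rw [sum_range_succ, ih, gR_succ]; ring

lemma gR_sqrt {r0 : ℝ} (hr : 0 < r0) (hr1 : r0 ≤ 1 / 4) (n : ℕ) :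
    ∑ i ∈ range n, 1 / Real.sqrt (gq r0 i) + 2 * Real.sqrt (gR r0 n) ≤ 2 * Real.sqrt r0 := by
  induction n with
  | zero => simp [gR_zero]
  | succ n ih =>
    rw [sum_range_succ]
    have h0 := gR_pos hr n
    have h1 : Real.sqrt (gR r0 (n + 1)) ≤ gR r0 n := by
      apply Real.sqrt_le_iff.mpr
      exact ⟨h0.le, gR_sq hr n⟩
    have h2 : gR r0 n ≤ 1 / 2 * Real.sqrt (gR r0 n) := by
      have h3 : Real.sqrt (gR r0 n) ≤ 1 / 2 := by
        apply Real.sqrt_le_iff.mpr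
        refine ⟨by norm_num, (gR_le' hr hr1 n).trans ?_⟩
        linarith
      have h4 := Real.mul_self_sqrt h0.le
      have h5 := Real.sqrt_nonneg (gR r0 n)
      nlinarith
    have h3 : 1 / Real.sqrt (gq r0 n) ≤ Real.sqrt (gR r0 n) := by
      have h4 := gq_gt r0 n
      have h5 : 1 / (gq r0 n : ℝ) ≤ gR r0 n := by
        rw [div_le_iff₀ (gq_pos r0 n)]
        rw [div_lt_iff₀ h0] at h4
        linarith
      rw [one_div, ← Real.sqrt_inv]
      apply Real.sqrt_le_sqrt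
      rw [← one_div]
      exact h5
    linarith

lemma gR_find {r0 : ℝ} (hr : 0 < r0) (hr1 : r0 ≤ 1 / 4) {δ : ℝ} (hδ : 0 < δ) :
    ∃ m : ℕ, gR r0 m ≤ δ ∧ ∀ i < m, δ < gR r0 i := by
  classical
  have hex : ∃ m, gR r0 m ≤ δ := ((gR_tendsto hr hr1).eventually_le_const hδ).exists
  exact ⟨Nat.find hex, Nat.find_spec hex, fun i hi => not_le.mp (Nat.find_min hex hi)⟩

end

end Pool.Agent.W181.Mom
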