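import Pool.Agent.H306R2.RWindow

set_option autoImplicit false

/-! Hölder's inequality on a window when the exponents sum to less than one. -/

namespace Pool.Agent.W181.Mom

open Finset Filter Topology MeasureTheory Pool.Agent.H306R2

noncomputable section

/-- Hölder on one window, with slack. -/
theorem window_holder_slack {ι : Type*} [Fintype ι] (q : ι → ℕ) (hq : ∀ i, 1 ≤ q i) (j : ℕ) (k : ℝ)
    (hj : 1 ≤ j) (hk0 : 0 < k)
    (hjk : (j:ℝ) / k + 1 / 2 + ∑ i, 1 / (2 * (q i : ℝ)) ≤ 1)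
    (Z C : ℝ → ℂ) (A : ι → ℝ → ℂ) (hZ : Continuous Z) (hC : Continuous C)
    (hA : ∀ i, Continuous (A i)) (w : ℝ → ℝ) (hw : Continuous w) (hw0 : ∀ t, 0 ≤ w t)
    (a b : ℝ) (hab : a ≤ b) (hw1 : ∫ t in a..b, w t ≤ 1) (N0 S0 : ℝ) (K0 : ι → ℝ)
    (hN0 : 0 < N0) (hS0 : 0 < S0) (hK0 : ∀ i, 0 < K0 i)
    (hN : N0 ≤ ‖∫ t in a..b, (Z t ^ j * ∏ i, A i t) * (starRingEnd ℂ) (C t) * (w t : ℂ)‖)
    (hS : ∫ t in a..b, ‖C t‖ ^ 2 * w t ≤ S0)
    (hK : ∀ i, ∫ t in a..b, ‖A i t‖ ^ (2 * q i) * w t ≤ K0 i) :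
    (N0 / (S0 ^ (1 / 2 : ℝ) * ∏ i, K0 i ^ (1 / (2 * (q i : ℝ))))) ^ (k / (j:ℝ)) ≤
      ∫ t in a..b, ‖Z t‖ ^ k * w t := by
  have hj0 : (0:ℝ) < j := by exact_mod_cast hj
  have hq0 : ∀ i, (0:ℝ) < q i := fun i => by exact_mod_cast hq i
  set J := ∫ t in a..b, ‖Z t‖ ^ k * w t with hJ
  have hJ0 : 0 ≤ J := intervalIntegral.integral_nonneg hab fun t _ =>
    mul_nonneg (by positivity) (hw0 t)
  set r := 1 - ((j:ℝ) / k + 1 / 2 + ∑ i, 1 / (2 * (q i : ℝ))) with hr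
  have hr0 : 0 ≤ r := by linarith
  -- Hölder
  let F : Option (Option (Option ι)) → ℝ → ℝ := fun o t =>
    match o with
    | none => ‖Z t‖ ^ k
    | some none => ‖C t‖ ^ 2
    | some (some none) => 1
    | some (some (some i)) => ‖A i t‖ ^ (2 * q i)
  let p : Option (Option (Option ι)) → ℝ := fun o =>
    match o with
    | none => (j:ℝ) / k
    | some none => 1 / 2
    | some (some none) => r
    | some (some (some i)) => 1 / (2 * (q i : ℝ))
  have hHol := holder_real (univ : Finset (Option (Option (Option ι)))) F w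
    (by
      rintro (_ | _ | _ | i) _
      · exact hZ.norm.rpow_const fun _ => Or.inr hk0.le
      · exact hC.norm.pow 2
      · exact continuous_const
      · exact (hA i).norm.pow _)
    (by
      rintro (_ | _ | _ | i) _ t
      · exact Real.rpow_nonneg (norm_nonneg _) _
      · exact pow_nonneg (norm_nonneg _) _
      · exact zero_le_one
      · exact pow_nonneg (norm_nonneg _) _)
    hw hw0 p
    (by
      simp only [Fintype.sum_option, p]
      rw [hr]; ring)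
    (by
      rintro (_ | _ | _ | i) _
      · simp only [p]; positivity
      · simp only [p]; norm_num
      · simp only [p]; exact hr0
      · simp only [p]; positivity)
    a b hab
  simp only [Fintype.prod_option, F, p, Real.one_rpow, one_mul] at hHol
  -- pointwise identity
  have hpt : ∀ t, ((‖Z t‖ ^ k) ^ ((j:ℝ) / k) * ((‖C t‖ ^ 2) ^ (1 / 2 : ℝ) *
      ∏ i, (‖A i t‖ ^ (2 * q i)) ^ (1 / (2 * (q i : ℝ))))) * w t =
      ‖(Z t ^ j * ∏ i, A i t) * (starRingEnd ℂ) (C t) * (w t : ℂ)‖ := by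
    intro t
    have e1 : (‖Z t‖ ^ k) ^ ((j:ℝ) / k) = ‖Z t‖ ^ j := by
      rw [← Real.rpow_mul (norm_nonneg _),
        show k * ((j:ℝ) / k) = j by field_simp, Real.rpow_natCast]
    have e2 : (‖C t‖ ^ 2) ^ (1 / 2 : ℝ) = ‖C t‖ := by
      rw [← Real.sqrt_eq_rpow, Real.sqrt_sq (norm_nonneg _)]
    have e3 : ∀ i, (‖A i t‖ ^ (2 * q i)) ^ (1 / (2 * (q i : ℝ))) = ‖A i t‖ := by
      intro i
      rw [← Real.rpow_natCast (‖A i t‖) (2 * q i), ← Real.rpow_mul (norm_nonneg _)]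
      have := hq0 i
      rw [show ((2 * q i : ℕ) : ℝ) * (1 / (2 * (q i : ℝ))) = 1 by push_cast; field_simp,
        Real.rpow_one]
    rw [e1, e2, prod_congr rfl fun i _ => e3 i]
    rw [norm_mul, norm_mul, norm_mul, norm_pow, RCLike.norm_conj, Complex.norm_real,
      Real.norm_of_nonneg (hw0 t), norm_prod]
    ring
  have hSn : 0 ≤ ∫ t in a..b, ‖C t‖ ^ 2 * w t := intervalIntegral.integral_nonneg hab fun t _ =>
    mul_nonneg (by positivity) (hw0 t)
  have hwn : 0 ≤ ∫ t in a..b, w t := intervalIntegral.integral_nonneg hab fun t _ => hw0 t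
  have hwr : (∫ t in a..b, w t) ^ r ≤ 1 := Real.rpow_le_one hwn hw1 hr0
  have hKn : ∀ i, 0 ≤ ∫ t in a..b, ‖A i t‖ ^ (2 * q i) * w t := fun i =>
    intervalIntegral.integral_nonneg hab fun t _ => mul_nonneg (by positivity) (hw0 t)
  have hPn : 0 ≤ ∏ i, (∫ t in a..b, ‖A i t‖ ^ (2 * q i) * w t) ^ (1 / (2 * (q i : ℝ))) :=
    prod_nonneg fun i _ => Real.rpow_nonneg (hKn i) _
  have h1 : N0 ≤ J ^ ((j:ℝ) / k) * ((∫ t in a..b, ‖C t‖ ^ 2 * w t) ^ (1 / 2 : ℝ) *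
      ∏ i, (∫ t in a..b, ‖A i t‖ ^ (2 * q i) * w t) ^ (1 / (2 * (q i : ℝ)))) := by
    have h2 : N0 ≤ J ^ ((j:ℝ) / k) * ((∫ t in a..b, ‖C t‖ ^ 2 * w t) ^ (1 / 2 : ℝ) *
      ((∫ t in a..b, w t) ^ r *
        ∏ i, (∫ t in a..b, ‖A i t‖ ^ (2 * q i) * w t) ^ (1 / (2 * (q i : ℝ))))) := by
      refine hN.trans (le_trans ?_ hHol)
      refine (intervalIntegral.norm_integral_le_integral_norm hab).trans (le_of_eq ?_)
      refine intervalIntegral.integral_congr fun t _ => ?_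
      exact (hpt t).symm
    refine h2.trans ?_
    refine mul_le_mul_of_nonneg_left ?_ (Real.rpow_nonneg hJ0 _)
    refine mul_le_mul_of_nonneg_left ?_ (Real.rpow_nonneg hSn _)
    exact mul_le_of_le_one_left hPn hwr
  set D := S0 ^ (1 / 2 : ℝ) * ∏ i, K0 i ^ (1 / (2 * (q i : ℝ))) with hD
  have hD0 : 0 < D := mul_pos (Real.rpow_pos_of_pos hS0 _)
    (prod_pos fun i _ => Real.rpow_pos_of_pos (hK0 i) _)
  have h2 : N0 ≤ J ^ ((j:ℝ) / k) * D := by
    refine h1.trans ?_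
    refine mul_le_mul_of_nonneg_left ?_ (Real.rpow_nonneg hJ0 _)
    refine mul_le_mul (Real.rpow_le_rpow hSn hS (by norm_num)) ?_
      (prod_nonneg fun i _ => Real.rpow_nonneg (hKn i) _) (Real.rpow_nonneg hS0.le _)
    exact prod_le_prod (fun i _ => Real.rpow_nonneg (hKn i) _) fun i _ =>
      Real.rpow_le_rpow (hKn i) (hK i) (by positivity)
  have h3 : N0 / D ≤ J ^ ((j:ℝ) / k) := by rwa [div_le_iff₀ hD0]
  calc (N0 / D) ^ (k / (j:ℝ)) ≤ (J ^ ((j:ℝ) / k)) ^ (k / (j:ℝ)) :=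
        Real.rpow_le_rpow (by positivity) h3 (by positivity)
    _ = J := by
        rw [← Real.rpow_mul hJ0, show (j:ℝ) / k * (k / (j:ℝ)) = 1 by field_simp, Real.rpow_one]

end

end Pool.Agent.W181.Mom
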