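import Pool.Agent.W181.Mom.WinG
import Pool.Agent.W181.Mom.HolS
import Pool.Agent.H295R2.LM.RMain

set_option autoImplicit false

/-! The lower bound for the moments with a finite head and the greedy tail. -/

namespace Pool.Agent.W181.Mom

open Finset Filter Topology MeasureTheory Pool.Agent.H306R2

noncomputable section

lemma pullG {n : ℕ} (m : ℕ) (q : Fin n → ℕ) (hq : ∀ i, 2 ≤ q i) (ρ : ℝ) (hρ : 0 < ρ)
    (hρ1 : ρ ≤ 1 / 4) (j : ℕ) (κ : ℝ) (hj : 1 ≤ j) (hκ0 : 0 < κ)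
    (hsum : (j:ℝ) / κ + ∑ i, 1 / (q i : ℝ) + ρ = 1) (N S : ℝ) (K : Fin n → ℝ) (K' Λ : ℝ)
    (hN : 0 < N) (hS : 0 < S) (hK : ∀ i, 0 < K i) (hK' : 1 ≤ K') (hΛ : 1 ≤ Λ) :
    (N / (S ^ (1 / 2 : ℝ) * (∏ i, K i ^ (1 / (2 * (q i : ℝ)))) * K' ^ ρ)) ^ (2 * κ / (j:ℝ)) * Λ ≤
    ((N * Λ) / ((S * Λ) ^ (1 / 2 : ℝ) *
      ∏ i : Fin n ⊕ Fin m, (Sum.elim (fun i => K i * Λ) (fun _ => K' * Λ) i : ℝ) ^
        (1 / (2 * ((Sum.elim q (fun i : Fin m => gq ρ i) i : ℕ) : ℝ))))) ^ (2 * κ / (j:ℝ)) := by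
  have hj0 : (0:ℝ) < j := by exact_mod_cast hj
  have hΛ0 : 0 < Λ := by linarith
  have hK'0 : 0 < K' := by linarith
  have hq0 : ∀ i, (0:ℝ) < q i := fun i => by exact_mod_cast (by linarith [hq i] : 0 < q i)
  rw [Fintype.prod_sum_type]
  simp only [Sum.elim_inl, Sum.elim_inr]
  set D := S ^ (1 / 2 : ℝ) * (∏ i, K i ^ (1 / (2 * (q i : ℝ)))) * K' ^ ρ with hD
  have hPK : 0 < ∏ i, K i ^ (1 / (2 * (q i : ℝ))) :=
    prod_pos fun i _ => Real.rpow_pos_of_pos (hK i) _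
  have hD0 : 0 < D := by positivity
  have e1 : (S * Λ) ^ (1 / 2 : ℝ) = S ^ (1 / 2 : ℝ) * Λ ^ (1 / 2 : ℝ) := Real.mul_rpow hS.le hΛ0.le
  have e2 : ∏ i, (K i * Λ) ^ (1 / (2 * (q i : ℝ))) =
      (∏ i, K i ^ (1 / (2 * (q i : ℝ)))) * Λ ^ (∑ i, 1 / (2 * (q i : ℝ))) := by
    rw [Real.rpow_sum_of_pos hΛ0, ← prod_mul_distrib]
    exact prod_congr rfl fun i _ => Real.mul_rpow (hK i).le hΛ0.le
  have e3 : ∏ i : Fin m, (K' * Λ) ^ (1 / (2 * (gq ρ i : ℝ))) ≤ K' ^ ρ * Λ ^ (ρ / 2) := by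
    rw [← Real.rpow_sum_of_pos (by positivity)]
    have h1 : ∑ i : Fin m, 1 / (2 * (gq ρ i : ℝ)) = (ρ - gR ρ m) / 2 := by
      rw [Fin.sum_univ_eq_sum_range (fun i => 1 / (2 * (gq ρ i : ℝ))) m, ← gq_sum, sum_div]
      exact sum_congr rfl fun i _ => by
        have := gq_pos ρ i
        field_simp
    rw [h1]
    have h2 := gR_pos hρ m
    have h3 : (1:ℝ) ≤ K' * Λ := by nlinarith
    calc (K' * Λ) ^ ((ρ - gR ρ m) / 2) ≤ (K' * Λ) ^ (ρ / 2) :=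
          Real.rpow_le_rpow_of_exponent_le h3 (by linarith)
      _ = K' ^ (ρ / 2) * Λ ^ (ρ / 2) := Real.mul_rpow hK'0.le hΛ0.le
      _ ≤ K' ^ ρ * Λ ^ (ρ / 2) := by
          have := Real.rpow_le_rpow_of_exponent_le hK' (show ρ / 2 ≤ ρ by linarith)
          gcongr
  have e4 : (1 / 2 : ℝ) + ∑ i, 1 / (2 * (q i : ℝ)) + ρ / 2 = 1 - j / (2 * κ) := by
    have h1 : ∑ i, 1 / (2 * (q i : ℝ)) = (∑ i, 1 / (q i : ℝ)) / 2 := by
      rw [sum_div]
      exact sum_congr rfl fun i _ => by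
        have := hq0 i
        field_simp
    have h2 : (j:ℝ) / (2 * κ) = (j:ℝ) / κ / 2 := by field_simp
    rw [h1, h2]
    linarith
  have hden : (S * Λ) ^ (1 / 2 : ℝ) * ((∏ i, (K i * Λ) ^ (1 / (2 * (q i : ℝ)))) *
      ∏ i : Fin m, (K' * Λ) ^ (1 / (2 * (gq ρ i : ℝ)))) ≤ D * Λ ^ (1 - j / (2 * κ)) := by
    rw [e1, e2, ← e4, Real.rpow_add hΛ0, Real.rpow_add hΛ0]
    have h1 : 0 ≤ S ^ (1 / 2 : ℝ) * Λ ^ (1 / 2 : ℝ) := by positivity
    have h2 : 0 ≤ (∏ i, K i ^ (1 / (2 * (q i : ℝ)))) * Λ ^ (∑ i, 1 / (2 * (q i : ℝ))) := by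
      positivity
    calc S ^ (1 / 2 : ℝ) * Λ ^ (1 / 2 : ℝ) *
        ((∏ i, K i ^ (1 / (2 * (q i : ℝ)))) * Λ ^ (∑ i, 1 / (2 * (q i : ℝ))) *
          ∏ i : Fin m, (K' * Λ) ^ (1 / (2 * (gq ρ i : ℝ)))) ≤
        S ^ (1 / 2 : ℝ) * Λ ^ (1 / 2 : ℝ) *
        ((∏ i, K i ^ (1 / (2 * (q i : ℝ)))) * Λ ^ (∑ i, 1 / (2 * (q i : ℝ))) *
          (K' ^ ρ * Λ ^ (ρ / 2))) := by gcongr
      _ = _ := by rw [hD]; ring
  have hden0 : 0 < (S * Λ) ^ (1 / 2 : ℝ) * ((∏ i, (K i * Λ) ^ (1 / (2 * (q i : ℝ)))) *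
      ∏ i : Fin m, (K' * Λ) ^ (1 / (2 * (gq ρ i : ℝ)))) := by
    refine mul_pos (by positivity) (mul_pos (prod_pos fun i _ => ?_) (prod_pos fun i _ => ?_))
    · exact Real.rpow_pos_of_pos (mul_pos (hK i) hΛ0) _
    · positivity
  have hbase : N / D * Λ ^ ((j:ℝ) / (2 * κ)) ≤ (N * Λ) / ((S * Λ) ^ (1 / 2 : ℝ) *
      ((∏ i, (K i * Λ) ^ (1 / (2 * (q i : ℝ)))) *
      ∏ i : Fin m, (K' * Λ) ^ (1 / (2 * (gq ρ i : ℝ))))) := by
    have h1 : N / D * Λ ^ ((j:ℝ) / (2 * κ)) = (N * Λ) / (D * Λ ^ (1 - (j:ℝ) / (2 * κ))) := by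
      rw [Real.rpow_sub hΛ0, Real.rpow_one]
      have h2 : Λ ^ ((j:ℝ) / (2 * κ)) ≠ 0 := by positivity
      field_simp
    rw [h1]
    exact div_le_div_of_nonneg_left (by positivity) hden0 hden
  have hND : 0 ≤ N / D := by positivity
  calc (N / D) ^ (2 * κ / (j:ℝ)) * Λ = (N / D * Λ ^ ((j:ℝ) / (2 * κ))) ^ (2 * κ / (j:ℝ)) := by
        rw [Real.mul_rpow hND (by positivity), ← Real.rpow_mul hΛ0.le,
          show (j:ℝ) / (2 * κ) * (2 * κ / (j:ℝ)) = 1 by field_simp, Real.rpow_one]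
    _ ≤ _ := Real.rpow_le_rpow (by positivity) hbase (by positivity)

/-- lower bound with fixed head and greedy tail -/
theorem lower_fixedG {κ : ℝ} (hκ : 1 ≤ κ) : ∃ C : ℝ, 0 < C ∧ ∃ K' : ℝ, 1 ≤ K' ∧
    ∀ (n j : ℕ), 1 ≤ j → ∀ (q : Fin n → ℕ), (∀ i, 2 ≤ q i) → ∀ ρ : ℝ, 0 < ρ → ρ ≤ 1 / 4 →
    (j:ℝ) / κ + ∑ i, 1 / (q i : ℝ) + ρ = 1 → ∀ (β : Fin n → ℝ), (∀ i, 0 < β i) →
    (∀ i, β i ≤ 1 / (q i : ℝ)) → ∀ b : ℝ, 0 < b → ∑ i, β i + b ≤ 1 → ∑ i, β i + ρ ≤ 1 →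
    1 ≤ κ * j → ∀ N : ℝ, C * Real.sqrt ρ < N →
    N < Nf κ j (Fin.cons (κ * ρ) (fun i => κ / (q i : ℝ)) : Fin (n + 1) → ℝ) (Fin.cons b β) →
    ∀ S : ℝ, aF κ / Real.Gamma (κ ^ 2 + 1) < S →
    ∀ K : Fin n → ℝ, (∀ i, aF κ * ((β i) ^ (κ ^ 2 / q i) /
        Real.Gamma (κ ^ 2 / q i + 1)) ^ (q i) < K i) →
    ∀ x : ℝ, 0 < x → x < 1 / 4 →
    ∀ᶠ T : ℝ in atTop, ∀ T0 : ℝ, 0 ≤ T0 → T0 ≤ Real.exp (T ^ x) / 2 →
      ((N - C * Real.sqrt ρ) / (S ^ (1 / 2 : ℝ) * (∏ i, K i ^ (1 / (2 * (q i : ℝ)))) * K' ^ ρ)) ^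
        (2 * κ / (j:ℝ)) * ((1 - 2 * x) * (1 - 2 * x) ^ (κ ^ 2)) * (T * Real.log T ^ (κ ^ 2)) ≤
      ∫ t in T0..(T0 + T), ‖riemannZeta (1 / 2 + t * Complex.I)‖ ^ (2 * κ) := by
  have hκ0 : 0 < κ := by linarith
  obtain ⟨C, hC, hNW⟩ := N_windowG hκ
  obtain ⟨K', hK'1, hKW⟩ := K_windowG hκ0
  refine ⟨C, hC, K', hK'1, ?_⟩
  intro n j hj q hq ρ hρ hρ1 hsum β hβ hβq b hb hβs hβρ hm0 N hCN hNV S hSV K hKV x hx hx2
  have hj0 : (0:ℝ) < j := by exact_mod_cast hj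
  have hq0 : ∀ i, (0:ℝ) < q i := fun i => by exact_mod_cast (by linarith [hq i] : 0 < q i)
  have hS0 : 0 < S := lt_trans (div_pos (aF_pos hκ0) (Real.Gamma_pos_of_pos (by positivity))) hSV
  have hN0 : 0 < N := lt_of_le_of_lt (by positivity) hCN
  have hN' : 0 < N - C * Real.sqrt ρ := by linarith
  have hV0 : ∀ i, 0 < (β i) ^ (κ ^ 2 / q i) / Real.Gamma (κ ^ 2 / q i + 1) := fun i => by
    have h1 := hβ i
    have h2 := hq0 i
    have h3 := Real.Gamma_pos_of_pos (by positivity : 0 < κ ^ 2 / q i + 1)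
    positivity
  have hK0 : ∀ i, 0 < K i := fun i =>
    lt_trans (mul_pos (aF_pos hκ0) (pow_pos (hV0 i) _)) (hKV i)
  have hK'0 : 0 < K' := by linarith
  -- exponents
  have hκs : κ = j + ∑ i, κ / (q i : ℝ) + κ * ρ := by
    have h1 : ∑ i, κ / (q i:ℝ) = κ * ∑ i, 1 / (q i : ℝ) := by
      rw [mul_sum]
      exact sum_congr rfl fun i _ => by ring
    have h2 : ∑ i, 1 / (q i : ℝ) = 1 - (j:ℝ) / κ - ρ := by linarith
    rw [h1, h2]
    field_simp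
    ring
  have he : ∀ i, 0 < κ / (q i : ℝ) := fun i => div_pos hκ0 (hq0 i)
  have hκe : ∀ i, κ * (κ / (q i : ℝ)) = κ ^ 2 / q i := fun i => by ring
  have hqe : ∀ i, (q i : ℝ) * (κ / (q i : ℝ)) = κ := fun i => by
    have := hq0 i
    field_simp
  obtain ⟨ε, hε, hEN⟩ := hNW n j hj (fun i => κ / (q i : ℝ)) he ρ hρ hρ1 hκs β hβ b hb hβs hβρ hm0
    N hN0 hNV x x hx (by linarith) hx (by linarith)
  have hES := H295LM.K_windowX κ hκ0 1 le_rfl 1 one_pos (by norm_num) S (by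
    simp only [Nat.cast_one, one_mul, Real.one_rpow, pow_one]
    rw [mul_one_div, ← pow_two]
    exact hSV) x x hx (by linarith) hx (by linarith)
  have hEK : ∀ i, ∀ᶠ T : ℝ in atTop, ∀ τ : ℝ, x * T ≤ τ → τ ≤ Real.exp (T ^ x) →
      ∫ t in (τ - x / 2 * T)..(τ + x / 2 * T),
        ‖Dp (tr (dA (κ / (q i : ℝ))) (Yt x T ^ β i)) (Yt x T ^ β i) (1 / 2 + t * Complex.I)‖ ^ (2 * q i) *
          gw τ (Ht x T) t ≤ K i * Real.log (Yt x T) ^ (κ ^ 2) := by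
    intro i
    have h := H295LM.K_windowX (κ / (q i : ℝ)) (he i) (q i) (by linarith [hq i]) (β i) (hβ i) (by
      have := hβq i
      rwa [le_div_iff₀ (hq0 i)] at this) (K i) (by
      rw [hqe, hκe]
      exact hKV i) x x hx (by linarith) hx (by linarith)
    rw [hqe] at h
    exact h
  have hEK' := eventually_all.mpr hEK
  have hET := hKW x x hx (by linarith) hx (by linarith)
  have hlog := Yt_tendsto (η := x) (by linarith)
  have hloglog : Tendsto (fun T => Real.log (Real.log (Yt x T))) atTop atTop :=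
    Real.tendsto_log_atTop.comp hlog
  filter_upwards [hEN, hES, hEK', hET, eventually_gt_atTop 1, hlog.eventually_ge_atTop 1,
      hloglog.eventually_ge_atTop 1, H295LK.evexp x hx] with T hT1 hT2 hT3 hTT hT4 hT5 hT7 hT6 T0 hT00 hT0N
  have hT0 : 0 < T := by linarith
  have hH0 : 0 < Ht x T := Real.rpow_pos_of_pos hT0 _
  have hLL0 : 0 < Real.log (Real.log (Yt x T)) := by linarith
  obtain ⟨m, hm1, hm2⟩ := gR_find hρ hρ1 (δ := ε / Real.log (Real.log (Yt x T))) (by positivity)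
  have hT1m := hT1 m hm1 hm2
  set Λ := Real.log (Yt x T) ^ (κ ^ 2) with hΛ
  have hΛ1 : 1 ≤ Λ := Real.one_le_rpow hT5 (by positivity)
  have hΛ0 : 0 < Λ := by linarith
  set D := ((N - C * Real.sqrt ρ) / (S ^ (1 / 2 : ℝ) * (∏ i, K i ^ (1 / (2 * (q i : ℝ)))) * K' ^ ρ)) ^
    (2 * κ / (j:ℝ)) with hD
  have hD0 : 0 ≤ D := by
    have : 0 < S ^ (1 / 2 : ℝ) * (∏ i, K i ^ (1 / (2 * (q i : ℝ)))) * K' ^ ρ :=
      mul_pos (mul_pos (by positivity) (prod_pos fun i _ => Real.rpow_pos_of_pos (hK0 i) _))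
        (by positivity)
    positivity
  set q' : Fin n ⊕ Fin m → ℕ := Sum.elim q (fun i : Fin m => gq ρ i) with hq'
  have hgq1 : ∀ i, 1 ≤ gq ρ i := fun i => by have := gq_ge hρ hρ1 i; omega
  have hq'1 : ∀ i, 1 ≤ q' i := by
    rintro (i | i)
    · exact le_trans (by norm_num) (hq i)
    · exact hgq1 i
  have hslack : (j:ℝ) / (2 * κ) + 1 / 2 + ∑ i, 1 / (2 * (q' i : ℝ)) ≤ 1 := by
    rw [Fintype.sum_sum_type]
    simp only [hq', Sum.elim_inl, Sum.elim_inr]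
    have h1 : ∑ i, 1 / (2 * (q i : ℝ)) = (∑ i, 1 / (q i : ℝ)) / 2 := by
      rw [sum_div]
      exact sum_congr rfl fun i _ => by
        have := hq0 i
        field_simp
    have h2 : ∑ i : Fin m, 1 / (2 * (gq ρ i : ℝ)) = (ρ - gR ρ m) / 2 := by
      rw [Fin.sum_univ_eq_sum_range (fun i => 1 / (2 * (gq ρ i : ℝ))) m, ← gq_sum, sum_div]
      exact sum_congr rfl fun i _ => by
        have := gq_pos ρ i
        field_simp
    have h3 : (j:ℝ) / (2 * κ) = (j:ℝ) / κ / 2 := by field_simp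
    rw [h1, h2, h3]
    have := gR_pos hρ m
    linarith
  have hwin0 : ∀ τ ∈ Set.Icc (x * T) ((1 - x) * T), D * Λ ≤
      ∫ t in ((T0 + τ) - x / 2 * T)..((T0 + τ) + x / 2 * T),
        ‖riemannZeta (1 / 2 + t * Complex.I)‖ ^ (2 * κ) * gw (T0 + τ) (Ht x T) t := by
    intro τ hτ
    have hτ1 : x * T ≤ T0 + τ := by linarith [hτ.1]
    have hτ2 : T0 + τ ≤ Real.exp (T ^ x) := by
      have e1 := hτ.2
      have e2 : (1 - x) * T ≤ T := by nlinarith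
      linarith
    have hw1 : ∫ t in ((T0 + τ) - x / 2 * T)..((T0 + τ) + x / 2 * T), gw (T0 + τ) (Ht x T) t ≤ 1 := by
      rw [intervalIntegral.integral_of_le (by nlinarith), ← gw_integral (T0 + τ) (Ht x T) hH0]
      exact setIntegral_le_integral (gw_integrable _ _ hH0)
        (Eventually.of_forall fun t => gw_nonneg _ _ _ hH0)
    have h := window_holder_slack q' hq'1 j (2 * κ) hj (by positivity) hslack
      (fun t => riemannZeta (1 / 2 + t * Complex.I))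
      (fun t => Dp (dA κ) (Yt x T) (1 / 2 + t * Complex.I))
      (Sum.elim (fun i t => Dp (tr (dA (κ / (q i : ℝ))) (Yt x T ^ β i)) (Yt x T ^ β i)
          (1 / 2 + t * Complex.I))
        (fun i t => Dp (tr (dA (κ / (gq ρ i : ℝ))) (Yt x T ^ (1 / (gq ρ i : ℝ))))
          (Yt x T ^ (1 / (gq ρ i : ℝ))) (1 / 2 + t * Complex.I)))
      zeta_line_continuous (Dp_line_continuous _ _)
      (by
        rintro (i | i)
        · exact Dp_line_continuous _ _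
        · exact Dp_line_continuous _ _)
      (gw (T0 + τ) (Ht x T)) (gw_continuous _ _) (fun t => gw_nonneg _ _ _ hH0)
      ((T0 + τ) - x / 2 * T) ((T0 + τ) + x / 2 * T) (by nlinarith) hw1
      ((N - C * Real.sqrt ρ) * Λ) (S * Λ)
      (Sum.elim (fun i => K i * Λ) (fun _ => K' * Λ))
      (by positivity) (by positivity)
      (by
        rintro (i | i)
        · exact mul_pos (hK0 i) hΛ0
        · exact mul_pos hK'0 hΛ0)
      (by
        have h1 := hT1m (T0 + τ) hτ1 hτ2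
        have e1 : ∀ t : ℝ, (∏ i : Fin n ⊕ Fin m,
            (Sum.elim (fun i t => Dp (tr (dA (κ / (q i : ℝ))) (Yt x T ^ β i)) (Yt x T ^ β i)
              (1 / 2 + t * Complex.I))
            (fun (i : Fin m) t => Dp (tr (dA (κ / (gq ρ i : ℝ))) (Yt x T ^ (1 / (gq ρ i : ℝ))))
              (Yt x T ^ (1 / (gq ρ i : ℝ))) (1 / 2 + t * Complex.I)) i : ℝ → ℂ) t) =
            (∏ i, Dp (tr (dA (κ / (q i : ℝ)))
              (Yt x T ^ β i)) (Yt x T ^ β i) (1 / 2 + t * Complex.I)) *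
            ∏ i ∈ range m, Dp (tr (dA (κ / gq ρ i)) (Yt x T ^ (1 / (gq ρ i : ℝ))))
              (Yt x T ^ (1 / (gq ρ i : ℝ))) (1 / 2 + t * Complex.I) := by
          intro t
          rw [Fintype.prod_sum_type]
          simp only [Sum.elim_inl, Sum.elim_inr]
          congr 1
          exact Fin.prod_univ_eq_prod_range (fun i => Dp (tr (dA (κ / gq ρ i))
            (Yt x T ^ (1 / (gq ρ i : ℝ)))) (Yt x T ^ (1 / (gq ρ i : ℝ))) (1 / 2 + t * Complex.I)) m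
        refine h1.trans (le_of_eq ?_)
        congr 1
        refine intervalIntegral.integral_congr fun t _ => ?_
        exact congrArg (fun z => riemannZeta (1 / 2 + t * Complex.I) ^ j * z *
          (starRingEnd ℂ) (Dp (dA κ) (Yt x T) (1 / 2 + t * Complex.I)) *
          (gw (T0 + τ) (Ht x T) t : ℂ)) (e1 t).symm)
      (by
        have := hT2 (T0 + τ) hτ1 hτ2
        simp only [Real.rpow_one, Nat.cast_one, one_mul, mul_one, Dp_trunc] at this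
        exact this)
      (by
        rintro (i | i)
        · exact hT3 i (T0 + τ) hτ1 hτ2
        · exact hTT (T0 + τ) hτ1 hτ2 (gq ρ i) (hgq1 i))
    refine le_trans ?_ h
    exact pullG m q hq ρ hρ hρ1 j κ hj hκ0 hsum _ S K K' Λ hN' hS0 hK0 hK'1 hΛ1
  have hwin : ∀ τ ∈ Set.Icc (x * T) ((1 - x) * T), D * Λ ≤
      ∫ t in (τ - x / 2 * T)..(τ + x / 2 * T),
        ‖riemannZeta (1 / 2 + ((T0 + t : ℝ) : ℂ) * Complex.I)‖ ^ (2 * κ) * gw τ (Ht x T) t := by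
    intro τ hτ
    refine (hwin0 τ hτ).trans (le_of_eq ?_)
    have e1 := intervalIntegral.integral_comp_add_left (a := τ - x / 2 * T) (b := τ + x / 2 * T)
      (fun s : ℝ => ‖riemannZeta (1 / 2 + s * Complex.I)‖ ^ (2 * κ) * gw (T0 + τ) (Ht x T) s) T0
    rw [show T0 + (τ - x / 2 * T) = (T0 + τ) - x / 2 * T by ring,
      show T0 + (τ + x / 2 * T) = (T0 + τ) + x / 2 * T by ring] at e1
    rw [← e1]
    refine intervalIntegral.integral_congr fun t _ => ?_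
    show _ * gw (T0 + τ) (Ht x T) (T0 + t) = _
    have e2 : gw (T0 + τ) (Ht x T) (T0 + t) = gw τ (Ht x T) t := by
      unfold gw
      rw [show T0 + t - (T0 + τ) = t - τ by ring]
    rw [e2]
  have hfin := window_sum
    (fun t => ‖riemannZeta (1 / 2 + ((T0 + t : ℝ) : ℂ) * Complex.I)‖ ^ (2 * κ))
    ((zeta_line_continuous.comp (continuous_const.add continuous_id)).norm.rpow_const
      fun _ => Or.inr (by positivity)) (fun t => by positivity)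
    (fun τ t => gw τ (Ht x T) t) (by unfold gw; fun_prop) (fun τ t => gw_nonneg _ _ _ hH0)
    (by
      intro t
      have h1 : ∀ τ, gw τ (Ht x T) t = gw t (Ht x T) τ := fun τ => gw_symm _ _ _
      simp only [h1]
      rw [← ofReal_integral_eq_lintegral_ofReal (gw_integrable _ _ hH0)
        (Eventually.of_forall fun τ => gw_nonneg _ _ _ hH0), gw_integral _ _ hH0]
      simp)
    T (x * T) ((1 - x) * T) (x / 2 * T) (D * Λ) (by nlinarith) (by positivity) (by nlinarith)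
    (by nlinarith) (by positivity) hwin
  have hconv : (∫ t in (0:ℝ)..T,
        ‖riemannZeta (1 / 2 + ((T0 + t : ℝ) : ℂ) * Complex.I)‖ ^ (2 * κ))
      = ∫ t in T0..(T0 + T), ‖riemannZeta (1 / 2 + t * Complex.I)‖ ^ (2 * κ) := by
    have e1 := intervalIntegral.integral_comp_add_left (a := 0) (b := T)
      (fun s : ℝ => ‖riemannZeta (1 / 2 + s * Complex.I)‖ ^ (2 * κ)) T0
    rw [add_zero] at e1
    rw [← e1]
  rw [hconv] at hfin
  refine le_trans (le_of_eq ?_) hfin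
  have hlogY : Real.log (Yt x T) = (1 - 2 * x) * Real.log T := by
    unfold Yt
    rw [Real.log_rpow hT0]
  rw [hΛ, hlogY, Real.mul_rpow (by linarith) (Real.log_nonneg hT4.le)]
  ring

end

end Pool.Agent.W181.Mom
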