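import Pool.Agent.W181.Mom.MainG

set_option autoImplicit false

/-! The master theorem for arbitrary real exponents. -/

namespace Pool.Agent.W181.Mom

open Finset Filter Topology MeasureTheory Pool.Agent.H306R2

noncomputable section

/-- value of the quotient -/
lemma const_eqG {n : ℕ} (q : Fin n → ℕ) (hq : ∀ i, 2 ≤ q i) (a : ℝ) (ha : 0 < a)
    (V : Fin n → ℝ) (hV : ∀ i, 0 < V i) (t m0 G G0 : ℝ) (ht : 0 < t) (hG : 0 < G) (hG0 : 0 < G0) :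
    (a * ((∏ i, V i) * (t ^ m0 / G0))) /
      ((a / G) ^ (1 / 2 : ℝ) * ∏ i, (a * V i ^ (q i)) ^ (1 / (2 * (q i : ℝ)))) =
    a ^ (1 / 2 - ∑ i, 1 / (2 * (q i : ℝ))) *
      ((∏ i, V i) * t ^ (2 * m0) * G / G0 ^ 2) ^ (1 / 2 : ℝ) := by
  have hP : 0 < ∏ i, V i := prod_pos fun i _ => hV i
  have h1 : ∏ i, (a * V i ^ (q i)) ^ (1 / (2 * (q i : ℝ))) =
      (∏ i, V i) ^ (1 / 2 : ℝ) * a ^ (∑ i, 1 / (2 * (q i : ℝ))) := by
    rw [Real.rpow_sum_of_pos ha, ← Real.finsetProd_rpow _ _ fun i _ => (hV i).le, ← prod_mul_distrib]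
    refine prod_congr rfl fun i _ => ?_
    have hqi : (0:ℝ) < q i := by exact_mod_cast (by linarith [hq i] : 0 < q i)
    rw [Real.mul_rpow ha.le (by have := hV i; positivity), ← Real.rpow_natCast (V i) (q i),
      ← Real.rpow_mul (hV i).le]
    rw [show (q i : ℝ) * (1 / (2 * (q i : ℝ))) = 1 / 2 by field_simp]
    ring
  have h2 : (a / G) ^ (1 / 2 : ℝ) = a ^ (1 / 2 : ℝ) / G ^ (1 / 2 : ℝ) := Real.div_rpow ha.le hG.le _
  have h3 : (a / G) ^ (1 / 2 : ℝ) * ∏ i, (a * V i ^ (q i)) ^ (1 / (2 * (q i : ℝ))) =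
      a ^ (1 - (1 / 2 - ∑ i, 1 / (2 * (q i : ℝ)))) * ((∏ i, V i) ^ (1 / 2 : ℝ) / G ^ (1 / 2 : ℝ)) := by
    rw [h1, h2, show 1 - (1 / 2 - ∑ i, 1 / (2 * (q i : ℝ))) = 1 / 2 + ∑ i, 1 / (2 * (q i : ℝ)) by ring,
      Real.rpow_add ha]
    ring
  have e1 : ((∏ i, V i) * t ^ (2 * m0) * G / G0 ^ 2) ^ (1 / 2 : ℝ) =
      (∏ i, V i) ^ (1 / 2 : ℝ) * t ^ m0 * G ^ (1 / 2 : ℝ) / G0 := by
    rw [Real.div_rpow (by positivity) (by positivity), Real.mul_rpow (by positivity) hG.le,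
      Real.mul_rpow hP.le (by positivity), ← Real.rpow_mul ht.le,
      show 2 * m0 * (1 / 2) = m0 by ring]
    congr 1
    rw [← Real.sqrt_eq_rpow, Real.sqrt_sq hG0.le]
  have e2 : ∏ i, V i = (∏ i, V i) ^ (1 / 2 : ℝ) * (∏ i, V i) ^ (1 / 2 : ℝ) := by
    rw [← Real.rpow_add hP]; norm_num
  rw [h3, e1, Real.rpow_sub ha, Real.rpow_one]
  have p1 : 0 < (∏ i, V i) ^ (1 / 2 : ℝ) := by positivity
  have p2 : 0 < G ^ (1 / 2 : ℝ) := by positivity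
  set A := a ^ (1 / 2 - ∑ i, 1 / (2 * (q i : ℝ))) with hA
  have p3 : 0 < A := by positivity
  set Q := (∏ i, V i) ^ (1 / 2 : ℝ) with hQ
  rw [e2]
  field_simp

/-- the perturbation factor -/
def Psi (κ : ℝ) (j : ℕ) (a b K' : ℝ) (z : ℝ × ℝ) : ℝ :=
  ((1 - 2 * z.1) / (1 + z.1) * ((b ^ (κ ^ 2 * z.2) / Real.Gamma (κ ^ 2 * z.2 + 1)) *
    (1 - κ ^ 2 * z.2 / (κ ^ 2 * z.2 + 1)) ^ (κ * j)) / K' ^ z.2) ^ (2 * κ / (j:ℝ)) *
    a ^ (z.2 * (κ / (j:ℝ))) * ((1 - 2 * z.1) * (1 - 2 * z.1) ^ (κ ^ 2))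

lemma Vb_cont {κ b : ℝ} (hb : 0 < b) (j : ℕ) :
    ContinuousAt (fun ρ : ℝ => (b ^ (κ ^ 2 * ρ) / Real.Gamma (κ ^ 2 * ρ + 1)) *
      (1 - κ ^ 2 * ρ / (κ ^ 2 * ρ + 1)) ^ (κ * j)) 0 := by
  have hG : ContinuousAt (fun ρ : ℝ => Real.Gamma (κ ^ 2 * ρ + 1)) 0 := by
    have h1 : ContinuousAt Real.Gamma (κ ^ 2 * 0 + 1) := by
      refine (Real.differentiableAt_Gamma fun m => ?_).continuousAt
      have : (0:ℝ) ≤ m := Nat.cast_nonneg m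
      simp only [mul_zero, zero_add]
      intro h
      linarith
    exact ContinuousAt.comp (f := fun ρ : ℝ => κ ^ 2 * ρ + 1) h1 (by fun_prop)
  have hB : ContinuousAt (fun ρ : ℝ => b ^ (κ ^ 2 * ρ)) 0 := by
    have h1 : Continuous (fun ρ : ℝ => b ^ (κ ^ 2 * ρ)) :=
      Continuous.rpow continuous_const (by fun_prop) fun _ => Or.inl hb.ne'
    exact h1.continuousAt
  refine ContinuousAt.mul (hB.div hG (by simp)) (ContinuousAt.rpow_const ?_ (Or.inl (by simp)))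
  refine ContinuousAt.sub continuousAt_const (ContinuousAt.div (by fun_prop) (by fun_prop) (by simp))

lemma Psi_cont {κ : ℝ} {j : ℕ} {a b K' : ℝ} (ha : 0 < a) (hb : 0 < b) (hK : 0 < K') :
    ContinuousAt (Psi κ j a b K') (0, 0) := by
  unfold Psi
  have h1 := Vb_cont (κ := κ) hb j
  have h2 : ContinuousAt (fun z : ℝ × ℝ => (b ^ (κ ^ 2 * z.2) / Real.Gamma (κ ^ 2 * z.2 + 1)) *
      (1 - κ ^ 2 * z.2 / (κ ^ 2 * z.2 + 1)) ^ (κ * j)) (0, 0) :=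
    ContinuousAt.comp (x := ((0:ℝ), (0:ℝ))) (f := fun z : ℝ × ℝ => z.2) h1 continuousAt_snd
  have h3 : ContinuousAt (fun z : ℝ × ℝ => K' ^ z.2) (0, 0) :=
    (Continuous.rpow continuous_const continuous_snd fun _ => Or.inl hK.ne').continuousAt
  have h4 : ContinuousAt (fun z : ℝ × ℝ => a ^ (z.2 * (κ / (j:ℝ)))) (0, 0) :=
    (Continuous.rpow continuous_const (by fun_prop) fun _ => Or.inl ha.ne').continuousAt
  refine ContinuousAt.mul (ContinuousAt.mul (ContinuousAt.rpow_const ?_ (Or.inl ?_)) h4) ?_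
  · refine ContinuousAt.div (ContinuousAt.mul (ContinuousAt.div (by fun_prop) (by fun_prop)
      (by simp)) h2) h3 (by simp)
  · simp
  · refine ContinuousAt.mul (by fun_prop) (ContinuousAt.rpow_const (by fun_prop) (Or.inl (by simp)))

lemma Psi_zero {κ : ℝ} {j : ℕ} {a b K' : ℝ} : Psi κ j a b K' (0, 0) = 1 := by
  unfold Psi
  simp

/-- auxiliary factor -/
def Fb (κ : ℝ) (j : ℕ) (b ρ : ℝ) : ℝ :=
  (b ^ (κ ^ 2 * ρ) / Real.Gamma (κ ^ 2 * ρ + 1)) * (1 - κ ^ 2 * ρ / (κ ^ 2 * ρ + 1)) ^ (κ * j)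

lemma Fb_pos {κ b ρ : ℝ} (hρ : 0 < ρ) (hb : 0 < b) (j : ℕ) : 0 < Fb κ j b ρ := by
  unfold Fb
  have h0 : 0 ≤ κ ^ 2 * ρ := by positivity
  have h1 : 0 < Real.Gamma (κ ^ 2 * ρ + 1) := Real.Gamma_pos_of_pos (by linarith)
  have h2 : 0 < 1 - κ ^ 2 * ρ / (κ ^ 2 * ρ + 1) := by
    have : 1 - κ ^ 2 * ρ / (κ ^ 2 * ρ + 1) = 1 / (κ ^ 2 * ρ + 1) := by field_simp; ring
    rw [this]; positivity
  positivity

/-- the main constant without the extra factor -/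
def Vf (κ : ℝ) {n : ℕ} (q : Fin n → ℕ) (β : Fin n → ℝ) : ℝ :=
  ∏ i, (β i) ^ (κ ^ 2 / q i) / Real.Gamma (κ ^ 2 / q i + 1)

def Df (κ : ℝ) {n : ℕ} (q : Fin n → ℕ) (β : Fin n → ℝ) : ℝ :=
  1 - ∑ i, β i * (κ ^ 2 / q i / (κ ^ 2 / q i + 1))

lemma Df_ge {κ : ℝ} {n : ℕ} (q : Fin n → ℕ) (β : Fin n → ℝ)
    (hβ : ∀ i, 0 < β i) {b : ℝ} (hβs : ∑ i, β i + b ≤ 1) : b ≤ Df κ q β := by
  unfold Df
  have h1 : ∑ i, β i * (κ ^ 2 / q i / (κ ^ 2 / q i + 1)) ≤ ∑ i, β i := by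
    refine sum_le_sum fun i _ => ?_
    have h2 : 0 ≤ κ ^ 2 / (q i : ℝ) := by positivity
    have h3 : κ ^ 2 / (q i : ℝ) / (κ ^ 2 / q i + 1) ≤ 1 := by
      rw [div_le_one (by linarith)]; linarith
    have := hβ i
    nlinarith
  linarith

lemma Df_le {κ : ℝ} {n : ℕ} (q : Fin n → ℕ) (β : Fin n → ℝ)
    (hβ : ∀ i, 0 < β i) : Df κ q β ≤ 1 := by
  unfold Df
  have h1 : 0 ≤ ∑ i, β i * (κ ^ 2 / q i / (κ ^ 2 / q i + 1)) := by
    refine sum_nonneg fun i _ => ?_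
    have := hβ i
    positivity
  linarith

lemma Vf_pos {κ : ℝ} (hκ : 0 < κ) {n : ℕ} (q : Fin n → ℕ) (β : Fin n → ℝ)
    (hβ : ∀ i, 0 < β i) : 0 < Vf κ q β := by
  unfold Vf
  refine prod_pos fun i _ => ?_
  have h1 := hβ i
  have h2 : 0 ≤ κ ^ 2 / (q i : ℝ) := by positivity
  have h3 := Real.Gamma_pos_of_pos (by linarith : 0 < κ ^ 2 / (q i : ℝ) + 1)
  positivity

lemma mB_eqf {κ : ℝ} {n : ℕ} (j : ℕ) (q : Fin n → ℕ) (β : Fin n → ℝ) :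
    mB κ j q β = (Vf κ q β * Df κ q β ^ (2 * (κ * j)) * Real.Gamma (κ ^ 2 + 1) /
      Real.Gamma (κ * j + 1) ^ 2) ^ (κ / j) := rfl

/-- lower bound for the numerator constant -/
lemma Nf_ge {κ : ℝ} (hκ : 0 < κ) {n : ℕ} (j : ℕ) (q : Fin n → ℕ) (β : Fin n → ℝ)
    (hβ : ∀ i, 0 < β i) {b ρ : ℝ} (hb : 0 < b) (hρ : 0 < ρ) (hβs : ∑ i, β i + b ≤ 1) :
    Fb κ j b ρ * (aF κ * (Vf κ q β * (Df κ q β ^ (κ * j) / Real.Gamma (κ * j + 1)))) ≤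
      Nf κ j (Fin.cons (κ * ρ) (fun i => κ / (q i : ℝ)) : Fin (n + 1) → ℝ) (Fin.cons b β) := by
  have ha := aF_pos hκ
  have hV := Vf_pos hκ q β hβ
  have hD := Df_ge (κ := κ) q β hβ hβs
  have hG0 : 0 < Real.Gamma (κ * j + 1) := Real.Gamma_pos_of_pos (by positivity)
  unfold Nf
  rw [Fin.prod_univ_succ, Fin.sum_univ_succ]
  simp only [Fin.cons_zero, Fin.cons_succ]
  have e1 : κ * (κ * ρ) = κ ^ 2 * ρ := by ring
  have e2 : ∀ i, κ * (κ / (q i : ℝ)) = κ ^ 2 / q i := fun i => by ring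
  simp only [e1, e2]
  set w := κ ^ 2 * ρ / (κ ^ 2 * ρ + 1) with hw
  have hw1 : 0 < 1 - w := by
    rw [hw]
    have : 1 - κ ^ 2 * ρ / (κ ^ 2 * ρ + 1) = 1 / (κ ^ 2 * ρ + 1) := by field_simp; ring
    rw [this]; positivity
  have hw0 : 0 ≤ w := by rw [hw]; positivity
  have e3 : 1 - (b * w + ∑ i, β i * (κ ^ 2 / q i / (κ ^ 2 / q i + 1))) = Df κ q β - b * w := by
    unfold Df; ring
  rw [e3]
  have hD0 : 0 < Df κ q β := by linarith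
  have h1 : Df κ q β * (1 - w) ≤ Df κ q β - b * w := by nlinarith
  have h2 : (Df κ q β) ^ (κ * j) * (1 - w) ^ (κ * j) ≤ (Df κ q β - b * w) ^ (κ * j) := by
    rw [← Real.mul_rpow hD0.le hw1.le]
    exact Real.rpow_le_rpow (by positivity) h1 (by positivity)
  have hB : 0 < b ^ (κ ^ 2 * ρ) / Real.Gamma (κ ^ 2 * ρ + 1) := by
    have h0 : 0 ≤ κ ^ 2 * ρ := by positivity
    have h1 : 0 < Real.Gamma (κ ^ 2 * ρ + 1) := Real.Gamma_pos_of_pos (by linarith)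
    positivity
  unfold Fb
  rw [← hw]
  set B := b ^ (κ ^ 2 * ρ) / Real.Gamma (κ ^ 2 * ρ + 1) with hBd
  show B * (1 - w) ^ (κ * j) * (aF κ * (Vf κ q β * (Df κ q β ^ (κ * j) / Real.Gamma (κ * j + 1)))) ≤
    aF κ * (B * Vf κ q β * ((Df κ q β - b * w) ^ (κ * j) / Real.Gamma (κ * j + 1)))
  have e4 : B * (1 - w) ^ (κ * j) * (aF κ * (Vf κ q β * (Df κ q β ^ (κ * j) / Real.Gamma (κ * j + 1)))) =
      (aF κ * B * Vf κ q β / Real.Gamma (κ * j + 1)) * (Df κ q β ^ (κ * j) * (1 - w) ^ (κ * j)) := by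
    ring
  have e5 : aF κ * (B * Vf κ q β * ((Df κ q β - b * w) ^ (κ * j) / Real.Gamma (κ * j + 1))) =
      (aF κ * B * Vf κ q β / Real.Gamma (κ * j + 1)) * (Df κ q β - b * w) ^ (κ * j) := by ring
  rw [e4, e5]
  exact mul_le_mul_of_nonneg_left h2 (by positivity)

/-- the constant obtained from `lower_fixedG` -/
lemma const_lower {κ : ℝ} (hκ : 0 < κ) {n : ℕ} (j : ℕ) (hj : 1 ≤ j) (q : Fin n → ℕ)
    (hq : ∀ i, 2 ≤ q i) (β : Fin n → ℝ) (hβ : ∀ i, 0 < β i) {b ρ : ℝ} (hb : 0 < b) (hρ : 0 < ρ)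
    (hsum : (j:ℝ) / κ + ∑ i, 1 / (q i : ℝ) + ρ = 1) (hβs : ∑ i, β i + b ≤ 1)
    {C K' x N : ℝ} (hK' : 1 ≤ K') (hx : 0 < x) (hx4 : x < 1 / 4)
    (hN : N = Nf κ j (Fin.cons (κ * ρ) (fun i => κ / (q i : ℝ)) : Fin (n + 1) → ℝ) (Fin.cons b β))
    (hC : C * Real.sqrt ρ ≤ x * N) :
    Psi κ j (aF κ) b K' (x, ρ) * (aF κ * mB κ j q β) ≤
    (((1 - x) * N - C * Real.sqrt ρ) / (((1 + x) * (aF κ / Real.Gamma (κ ^ 2 + 1))) ^ (1 / 2 : ℝ) *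
      (∏ i, ((1 + x) * (aF κ * ((β i) ^ (κ ^ 2 / q i) /
        Real.Gamma (κ ^ 2 / q i + 1)) ^ (q i))) ^ (1 / (2 * (q i : ℝ)))) * K' ^ ρ)) ^
        (2 * κ / (j:ℝ)) * ((1 - 2 * x) * (1 - 2 * x) ^ (κ ^ 2)) := by
  have ha := aF_pos hκ
  have hj0 : (0:ℝ) < j := by exact_mod_cast hj
  have hq0 : ∀ i, (0:ℝ) < q i := fun i => by exact_mod_cast (by linarith [hq i] : 0 < q i)
  have hV := Vf_pos hκ q β hβ
  have hVi : ∀ i, 0 < (β i) ^ (κ ^ 2 / q i) / Real.Gamma (κ ^ 2 / q i + 1) := fun i => by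
    have h1 := hβ i
    have h2 : 0 ≤ κ ^ 2 / (q i : ℝ) := by positivity
    have h3 := Real.Gamma_pos_of_pos (by linarith : 0 < κ ^ 2 / (q i : ℝ) + 1)
    positivity
  have hD := Df_ge (κ := κ) q β hβ hβs
  have hD0 : 0 < Df κ q β := by linarith
  have hG0 : 0 < Real.Gamma (κ * j + 1) := Real.Gamma_pos_of_pos (by positivity)
  have hG : 0 < Real.Gamma (κ ^ 2 + 1) := Real.Gamma_pos_of_pos (by positivity)
  have hN1 := Nf_ge hκ j q β hβ hb hρ hβs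
  rw [← hN] at hN1
  have hF := Fb_pos (κ := κ) hρ hb j
  set a := aF κ with had
  set G := Real.Gamma (κ ^ 2 + 1) with hGd
  set G0 := Real.Gamma (κ * j + 1) with hG0d
  set V : Fin n → ℝ := fun i => (β i) ^ (κ ^ 2 / q i) / Real.Gamma (κ ^ 2 / q i + 1) with hVd
  have hVe : Vf κ q β = ∏ i, V i := rfl
  set D := Df κ q β with hDd
  set F := Fb κ j b ρ with hFd
  have hK0 : 0 < K' := by linarith
  have hce := const_eqG q hq a ha V hVi D (κ * j) G G0 hD0 hG hG0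
  rw [← hVe] at hce
  -- exponent
  have hs2 : ∑ i, 1 / (2 * (q i : ℝ)) = (∑ i, 1 / (q i : ℝ)) / 2 := by
    rw [sum_div]
    exact sum_congr rfl fun i _ => by
      have := hq0 i
      field_simp
  have hexp : (1 / 2 : ℝ) - ∑ i, 1 / (2 * (q i : ℝ)) = j / (2 * κ) + ρ / 2 := by
    have h2 : (j:ℝ) / (2 * κ) = (j:ℝ) / κ / 2 := by field_simp
    rw [hs2, h2]
    linarith
  rw [hexp] at hce
  -- denominators
  set den0 := (a / G) ^ (1 / 2 : ℝ) * ∏ i, (a * V i ^ (q i)) ^ (1 / (2 * (q i : ℝ))) with hden0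
  have hden0p : 0 < den0 := mul_pos (by positivity) (prod_pos fun i _ =>
    Real.rpow_pos_of_pos (mul_pos ha (pow_pos (hVi i) _)) _)
  have hden : ((1 + x) * (a / G)) ^ (1 / 2 : ℝ) *
      (∏ i, ((1 + x) * (a * V i ^ (q i))) ^ (1 / (2 * (q i : ℝ)))) ≤ (1 + x) * den0 := by
    have e1 : ((1 + x) * (a / G)) ^ (1 / 2 : ℝ) = (1 + x) ^ (1 / 2 : ℝ) * (a / G) ^ (1 / 2 : ℝ) :=
      Real.mul_rpow (by linarith) (by positivity)
    have e2 : ∏ i, ((1 + x) * (a * V i ^ (q i))) ^ (1 / (2 * (q i : ℝ))) =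
        (1 + x) ^ (∑ i, 1 / (2 * (q i : ℝ))) * ∏ i, (a * V i ^ (q i)) ^ (1 / (2 * (q i : ℝ))) := by
      rw [Real.rpow_sum_of_pos (by linarith : 0 < 1 + x), ← prod_mul_distrib]
      exact prod_congr rfl fun i _ => Real.mul_rpow (by linarith) (mul_pos ha (pow_pos (hVi i) _)).le
    rw [e1, e2]
    have e3 : (1 + x) ^ (1 / 2 : ℝ) * (1 + x) ^ (∑ i, 1 / (2 * (q i : ℝ))) ≤ 1 + x := by
      rw [← Real.rpow_add (by linarith)]
      calc (1 + x) ^ (1 / 2 + ∑ i, 1 / (2 * (q i : ℝ))) ≤ (1 + x) ^ (1:ℝ) := by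
            refine Real.rpow_le_rpow_of_exponent_le (by linarith) ?_
            have : 0 < (j:ℝ) / (2 * κ) := by positivity
            linarith
        _ = 1 + x := Real.rpow_one _
    calc (1 + x) ^ (1 / 2 : ℝ) * (a / G) ^ (1 / 2 : ℝ) * ((1 + x) ^ (∑ i, 1 / (2 * (q i : ℝ))) *
        ∏ i, (a * V i ^ (q i)) ^ (1 / (2 * (q i : ℝ)))) =
        ((1 + x) ^ (1 / 2 : ℝ) * (1 + x) ^ (∑ i, 1 / (2 * (q i : ℝ)))) * den0 := by rw [hden0]; ring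
      _ ≤ (1 + x) * den0 := mul_le_mul_of_nonneg_right e3 hden0p.le
  set den := ((1 + x) * (a / G)) ^ (1 / 2 : ℝ) *
      (∏ i, ((1 + x) * (a * V i ^ (q i))) ^ (1 / (2 * (q i : ℝ)))) with hdend
  have hdenp : 0 < den := mul_pos (Real.rpow_pos_of_pos (by positivity) _)
    (prod_pos fun i _ => Real.rpow_pos_of_pos
      (mul_pos (by linarith) (mul_pos ha (pow_pos (hVi i) _))) _)
  -- the base
  set X := Vf κ q β * D ^ (2 * (κ * j)) * G / G0 ^ 2 with hX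
  have hX0 : 0 < X := by positivity
  have hkey : (1 - 2 * x) / (1 + x) * F / K' ^ ρ * (a ^ (j / (2 * κ) + ρ / 2) * X ^ (1 / 2 : ℝ)) ≤
      ((1 - x) * N - C * Real.sqrt ρ) / (den * K' ^ ρ) := by
    rw [← hce]
    have h1 : (1 - 2 * x) * (F * (a * (Vf κ q β * (D ^ (κ * j) / G0)))) ≤
        (1 - x) * N - C * Real.sqrt ρ := by
      have h2 : (1 - 2 * x) * (F * (a * (Vf κ q β * (D ^ (κ * j) / G0)))) ≤ (1 - 2 * x) * N :=
        mul_le_mul_of_nonneg_left hN1 (by linarith)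
      linarith
    have h3 : 0 ≤ F * (a * (Vf κ q β * (D ^ (κ * j) / G0))) := by positivity
    calc (1 - 2 * x) / (1 + x) * F / K' ^ ρ * (a * (Vf κ q β * (D ^ (κ * j) / G0)) / den0) =
        (1 - 2 * x) * (F * (a * (Vf κ q β * (D ^ (κ * j) / G0)))) / (((1 + x) * den0) * K' ^ ρ) := by
          field_simp
      _ ≤ (1 - 2 * x) * (F * (a * (Vf κ q β * (D ^ (κ * j) / G0)))) / (den * K' ^ ρ) := by
          refine div_le_div_of_nonneg_left (mul_nonneg (by linarith) h3) (by positivity) ?_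
          exact mul_le_mul_of_nonneg_right hden (by positivity)
      _ ≤ _ := by
          refine div_le_div_of_nonneg_right h1 (by positivity)
  have hbase0 : 0 ≤ (1 - 2 * x) / (1 + x) * F / K' ^ ρ := by
    have : 0 ≤ 1 - 2 * x := by linarith
    positivity
  have h12 : 0 ≤ (1 - 2 * x) * (1 - 2 * x) ^ (κ ^ 2) := by
    have : 0 ≤ 1 - 2 * x := by linarith
    positivity
  have hfin : ((1 - 2 * x) / (1 + x) * F / K' ^ ρ * (a ^ (j / (2 * κ) + ρ / 2) * X ^ (1 / 2 : ℝ))) ^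
      (2 * κ / (j:ℝ)) = ((1 - 2 * x) / (1 + x) * F / K' ^ ρ) ^ (2 * κ / (j:ℝ)) *
        a ^ (ρ * (κ / (j:ℝ))) * (a * X ^ (κ / (j:ℝ))) := by
    rw [Real.mul_rpow hbase0 (by positivity), Real.mul_rpow (by positivity) (by positivity),
      ← Real.rpow_mul ha.le, ← Real.rpow_mul hX0.le]
    have e1 : ((j:ℝ) / (2 * κ) + ρ / 2) * (2 * κ / j) = ρ * (κ / j) + 1 := by field_simp; ring
    have e2 : (1 / 2 : ℝ) * (2 * κ / j) = κ / j := by ring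
    rw [e1, e2, Real.rpow_add_one ha.ne']
    ring
  have hmB : mB κ j q β = X ^ (κ / (j:ℝ)) := by
    rw [mB_eqf]
  rw [hmB]
  have e6 : Psi κ j a b K' (x, ρ) * (a * X ^ (κ / (j:ℝ))) =
      (((1 - 2 * x) / (1 + x) * F / K' ^ ρ) ^ (2 * κ / (j:ℝ)) *
        a ^ (ρ * (κ / (j:ℝ))) * (a * X ^ (κ / (j:ℝ)))) * ((1 - 2 * x) * (1 - 2 * x) ^ (κ ^ 2)) := by
    unfold Psi
    rw [hFd]
    unfold Fb
    simp only
    ring
  rw [e6, ← hfin]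
  exact mul_le_mul_of_nonneg_right (Real.rpow_le_rpow (by positivity) hkey (by positivity)) h12

end

end Pool.Agent.W181.Mom
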