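import Pool.Agent.W181.Mom.Master

set_option autoImplicit false

/-! The master theorem for arbitrary real exponents. -/

namespace Pool.Agent.W181.Mom

open Finset Filter Topology MeasureTheory Pool.Agent.H306R2

noncomputable section

theorem masterG {n : ℕ} {κ : ℝ} (hκ : 1 ≤ κ) (j : ℕ) (hj : 1 ≤ j) (q : Fin n → ℕ)
    (hq : ∀ i, 2 ≤ q i) (ρ : ℝ) (hρ : 0 < ρ) (hρ1 : ρ ≤ 1 / 4)
    (hsum : (j:ℝ) / κ + ∑ i, 1 / (q i : ℝ) + ρ = 1)
    (β : Fin n → ℝ) (hβ : ∀ i, 0 < β i) (hβq : ∀ i, β i ≤ 1 / (q i : ℝ)) (b : ℝ) (hb : 0 < b)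
    (hβs : ∑ i, β i + ρ + b ≤ 1) (hm0 : 1 ≤ κ * j) (c c' : ℝ) (hc' : 0 < c') (hcc : c < c')
    (H : ∀ r : ℕ, c' ≤ aF κ * mB κ j (Fin.append q (fun i : Fin r => gq ρ i))
      (Fin.append β (fun i : Fin r => 1 / (gq ρ i : ℝ)))) :
    ∃ A : ℝ, 0 < A ∧ ∀ᶠ T : ℝ in atTop, ∀ U : ℝ, Real.log T ^ A ≤ U →
      c * (U * Real.log U ^ (κ ^ 2)) ≤
        ∫ t in T..(T + U), ‖riemannZeta (1 / 2 + t * Complex.I)‖ ^ (2 * κ) := by
  have hκ0 : 0 < κ := by linarith
  have ha := aF_pos hκ0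
  have hj0 : (0:ℝ) < j := by exact_mod_cast hj
  obtain ⟨C, hC, K', hK'1, hLF⟩ := lower_fixedG hκ
  have hK'0 : 0 < K' := by linarith
  have hG0 : 0 < Real.Gamma (κ * j + 1) := Real.Gamma_pos_of_pos (by positivity)
  have hG : 0 < Real.Gamma (κ ^ 2 + 1) := Real.Gamma_pos_of_pos (by positivity)
  -- continuity
  have hPsi := Psi_cont (κ := κ) (j := j) (a := aF κ) (b := b) (K' := K') ha hb hK'0
  have hPsi1 : ∀ᶠ z in 𝓝 ((0:ℝ), (0:ℝ)), c / c' < Psi κ j (aF κ) b K' z := by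
    refine hPsi.eventually_const_lt ?_
    rw [Psi_zero, div_lt_one hc']
    exact hcc
  obtain ⟨ε0, hε0, hball⟩ := Metric.eventually_nhds_iff.1 hPsi1
  set x := min (ε0 / 2) (1 / 8) with hx
  have hx0 : 0 < x := by rw [hx]; positivity
  have hxε : x < ε0 := lt_of_le_of_lt (min_le_left _ _) (by linarith)
  have hx4 : x < 1 / 4 := lt_of_le_of_lt (min_le_right _ _) (by norm_num)
  -- lower bound for the numerators
  set ν0 := 1 / 2 * (aF κ * ((c' / aF κ) ^ ((j:ℝ) / κ) * Real.Gamma (κ * j + 1) /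
    Real.Gamma (κ ^ 2 + 1))) with hν0
  have hν0p : 0 < ν0 := by rw [hν0]; positivity
  have hFb : ∀ᶠ y in 𝓝 (0:ℝ), 1 / 2 < Fb κ j b y := by
    have h1 : ContinuousAt (Fb κ j b) 0 := Vb_cont (κ := κ) hb j
    refine h1.eventually_const_lt ?_
    unfold Fb
    simp
    norm_num
  have hsq : ∀ᶠ y in 𝓝 (0:ℝ), C * Real.sqrt y < x * ν0 := by
    have h1 : ContinuousAt (fun y => C * Real.sqrt y) 0 := by fun_prop
    refine h1.eventually_lt_const ?_
    simp
    positivity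
  have hlt : ∀ᶠ y in 𝓝 (0:ℝ), y < ε0 := eventually_lt_nhds hε0
  have hten := gR_tendsto hρ hρ1
  obtain ⟨r, hr1, hr2, hr3⟩ := ((hten.eventually hFb).and
    ((hten.eventually hsq).and (hten.eventually hlt))).exists
  set ρr := gR ρ r with hρr
  have hρr0 : 0 < ρr := gR_pos hρ r
  have hρr1 : ρr ≤ ρ := gR_le' hρ hρ1 r
  set Q := Fin.append q (fun i : Fin r => gq ρ i) with hQ
  set B := Fin.append β (fun i : Fin r => 1 / (gq ρ i : ℝ)) with hB
  have hQ2 : ∀ i, 2 ≤ Q i := by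
    intro i
    refine Fin.addCases (fun i => ?_) (fun i => ?_) i
    · rw [hQ, Fin.append_left]; exact hq i
    · rw [hQ, Fin.append_right]
      have := gq_ge hρ hρ1 i
      omega
  have hB0 : ∀ i, 0 < B i := by
    intro i
    refine Fin.addCases (fun i => ?_) (fun i => ?_) i
    · rw [hB, Fin.append_left]; exact hβ i
    · rw [hB, Fin.append_right]
      have := gq_pos ρ i
      positivity
  have hBQ : ∀ i, B i ≤ 1 / (Q i : ℝ) := by
    intro i
    refine Fin.addCases (fun i => ?_) (fun i => ?_) i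
    · rw [hB, hQ, Fin.append_left, Fin.append_left]; exact hβq i
    · rw [hB, hQ, Fin.append_right, Fin.append_right]
  have hgs : ∑ i : Fin r, 1 / (gq ρ i : ℝ) = ρ - ρr := by
    rw [Fin.sum_univ_eq_sum_range (fun i => 1 / (gq ρ i : ℝ)) r, gq_sum]
  have hsQ : ∑ i, 1 / (Q i : ℝ) = ∑ i, 1 / (q i : ℝ) + (ρ - ρr) := by
    rw [Fin.sum_univ_add, ← hgs]
    simp only [hQ, Fin.append_left, Fin.append_right]
  have hsB : ∑ i, B i = ∑ i, β i + (ρ - ρr) := by
    rw [Fin.sum_univ_add, ← hgs]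
    simp only [hB, Fin.append_left, Fin.append_right]
  have hsum' : (j:ℝ) / κ + ∑ i, 1 / (Q i : ℝ) + ρr = 1 := by rw [hsQ]; linarith
  have hBs : ∑ i, B i + b ≤ 1 := by rw [hsB]; linarith
  have hBρ : ∑ i, B i + ρr ≤ 1 := by rw [hsB]; linarith
  set N := Nf κ j (Fin.cons (κ * ρr) (fun i => κ / (Q i : ℝ)) : Fin (n + r + 1) → ℝ)
    (Fin.cons b B) with hN
  have hHr := H r
  rw [← hQ, ← hB] at hHr
  -- N is large
  have hDf := Df_ge (κ := κ) Q B hB0 hBs
  have hDf0 : 0 < Df κ Q B := by linarith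
  have hDf1 := Df_le (κ := κ) Q B hB0
  have hVf := Vf_pos hκ0 Q B hB0
  have hNν : ν0 ≤ N := by
    have h1 := Nf_ge hκ0 j Q B hB0 hb hρr0 hBs
    rw [← hN] at h1
    refine le_trans ?_ h1
    have h2 : (c' / aF κ) ^ ((j:ℝ) / κ) ≤ Vf κ Q B * Df κ Q B ^ (2 * (κ * j)) *
        Real.Gamma (κ ^ 2 + 1) / Real.Gamma (κ * j + 1) ^ 2 := by
      have h3 : c' / aF κ ≤ mB κ j Q B := by
        rw [div_le_iff₀ ha]; linarith
      rw [mB_eqf] at h3
      have h4 := Real.rpow_le_rpow (by positivity) h3 (by positivity : 0 ≤ (j:ℝ) / κ)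
      rw [← Real.rpow_mul (by positivity), show κ / (j:ℝ) * (j / κ) = 1 by field_simp,
        Real.rpow_one] at h4
      exact h4
    have h5 : Df κ Q B ^ (2 * (κ * j)) ≤ Df κ Q B ^ (κ * j) := by
      refine Real.rpow_le_rpow_of_exponent_ge hDf0 hDf1 ?_
      have : 0 ≤ κ * j := by positivity
      linarith
    have h6 : (c' / aF κ) ^ ((j:ℝ) / κ) * Real.Gamma (κ * j + 1) / Real.Gamma (κ ^ 2 + 1) ≤
        Vf κ Q B * (Df κ Q B ^ (κ * j) / Real.Gamma (κ * j + 1)) := by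
      calc (c' / aF κ) ^ ((j:ℝ) / κ) * Real.Gamma (κ * j + 1) / Real.Gamma (κ ^ 2 + 1) ≤
          (Vf κ Q B * Df κ Q B ^ (2 * (κ * j)) *
            Real.Gamma (κ ^ 2 + 1) / Real.Gamma (κ * j + 1) ^ 2) * Real.Gamma (κ * j + 1) /
            Real.Gamma (κ ^ 2 + 1) := by gcongr
        _ = Vf κ Q B * (Df κ Q B ^ (2 * (κ * j)) / Real.Gamma (κ * j + 1)) := by
            field_simp
        _ ≤ _ := by gcongr
    rw [hν0]
    have hF2 : 1 / 2 ≤ Fb κ j b ρr := hr1.le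
    have h7 : 0 ≤ (c' / aF κ) ^ ((j:ℝ) / κ) * Real.Gamma (κ * j + 1) / Real.Gamma (κ ^ 2 + 1) := by
      positivity
    gcongr
  have hN0 : 0 < N := by linarith
  have hCx : C * Real.sqrt ρr ≤ x * N := by
    refine hr2.le.trans ?_
    exact mul_le_mul_of_nonneg_left hNν hx0.le
  have hlow := const_lower hκ0 j hj Q hQ2 B hB0 hb hρr0 hsum' hBs (C := C) hK'1 hx0 hx4 hN hCx
  have hmain := hLF (n + r) j hj Q hQ2 ρr hρr0 (hρr1.trans hρ1) hsum' B hB0 hBQ b hb hBs hBρ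
    (by linarith) ((1 - x) * N) (by nlinarith) (by rw [← hN]; nlinarith)
    ((1 + x) * (aF κ / Real.Gamma (κ ^ 2 + 1))) (by
      have : 0 < aF κ / Real.Gamma (κ ^ 2 + 1) := by positivity
      nlinarith)
    (fun i => (1 + x) * (aF κ * ((B i) ^ (κ ^ 2 / Q i) /
        Real.Gamma (κ ^ 2 / Q i + 1)) ^ (Q i))) (fun i => by
      have h1 : 0 < aF κ * ((B i) ^ (κ ^ 2 / Q i) / Real.Gamma (κ ^ 2 / Q i + 1)) ^ (Q i) := by
        have h2 := hB0 i
        have h3 : 0 ≤ κ ^ 2 / (Q i : ℝ) := by positivity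
        have h4 := Real.Gamma_pos_of_pos (by linarith : 0 < κ ^ 2 / (Q i : ℝ) + 1)
        positivity
      have : aF κ * ((B i) ^ (κ ^ 2 / Q i) / Real.Gamma (κ ^ 2 / Q i + 1)) ^ (Q i) <
        (1 + x) * (aF κ * ((B i) ^ (κ ^ 2 / Q i) / Real.Gamma (κ ^ 2 / Q i + 1)) ^ (Q i)) := by
        nlinarith
      exact this) x hx0 hx4
  have hxc : c ≤ Psi κ j (aF κ) b K' (x, ρr) * (aF κ * mB κ j Q B) := by
    have h1 : c / c' < Psi κ j (aF κ) b K' (x, ρr) := by
      apply hball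
      rw [Prod.dist_eq]
      simp only [Real.dist_eq, sub_zero]
      rw [abs_of_pos hx0, abs_of_pos hρr0]
      exact max_lt hxε hr3
    rcases le_or_gt c 0 with hc0 | hc0
    · refine hc0.trans ?_
      have h2 : 0 ≤ Psi κ j (aF κ) b K' (x, ρr) := by
        have hF := Fb_pos (κ := κ) hρr0 hb j
        have e1 : 0 < 1 - 2 * x := by linarith
        unfold Psi
        unfold Fb at hF
        simp only
        positivity
      have h3 : 0 ≤ aF κ * mB κ j Q B := hc'.le.trans hHr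
      positivity
    · have h2 : 0 ≤ c / c' := by positivity
      calc c = c / c' * c' := by field_simp
        _ ≤ Psi κ j (aF κ) b K' (x, ρr) * (aF κ * mB κ j Q B) := by
          exact mul_le_mul h1.le hHr hc'.le (h2.trans h1.le)
  obtain ⟨U0, hU0⟩ := eventually_atTop.1 hmain
  refine ⟨2 / x, by positivity, ?_⟩
  have htend : Tendsto (fun T : ℝ => Real.log T ^ (2 / x)) atTop atTop :=
    (tendsto_rpow_atTop (by positivity)).comp Real.tendsto_log_atTop
  filter_upwards [htend.eventually_ge_atTop U0, htend.eventually_ge_atTop 1,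
    Real.tendsto_log_atTop.eventually_ge_atTop 2, eventually_gt_atTop 1] with T hT1 hT2 hT4 hT3 U hU
  have hU1 : 1 ≤ U := hT2.trans hU
  have hT0 : 0 < T := by linarith
  have hTU : T ≤ Real.exp (U ^ x) / 2 := by
    have e1 : Real.log T ^ (2 : ℝ) = (Real.log T ^ (2 / x)) ^ x := by
      rw [← Real.rpow_mul (by linarith), div_mul_cancel₀ _ hx0.ne']
    have e2 : Real.log T ^ (2 : ℝ) ≤ U ^ x := by
      rw [e1]
      exact Real.rpow_le_rpow (by linarith) hU hx0.le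
    have e3 : Real.log T ^ (2 : ℝ) = Real.log T * Real.log T := by
      rw [Real.rpow_two]; ring
    have e4 : Real.log T + Real.log 2 ≤ Real.log T ^ (2 : ℝ) := by
      rw [e3]
      have := Real.log_two_lt_d9
      nlinarith
    have e5 : T * 2 = Real.exp (Real.log T + Real.log 2) := by
      rw [Real.exp_add, Real.exp_log hT0, Real.exp_log (by norm_num)]
    rw [le_div_iff₀ (by norm_num), e5]
    exact Real.exp_le_exp.mpr (e4.trans e2)
  have hT := hU0 U (hT1.trans hU) T hT0.le hTU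
  refine le_trans ?_ hT
  have hlog : 0 ≤ Real.log U := Real.log_nonneg hU1
  have : 0 ≤ U * Real.log U ^ (κ ^ 2) := by positivity
  exact mul_le_mul_of_nonneg_right (hxc.trans hlow) this

end

end Pool.Agent.W181.Mom
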