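import Pool.Agent.W181.Mom.Tail
import Pool.Agent.W181.Mom.Grd
import Pool.Agent.H306R2.NW

set_option autoImplicit false

/-! The lower bound of the numerator with a tail of greedy exponents. -/

namespace Pool.Agent.W181.Mom

open Finset Filter Topology Pool.Agent.H306R2

noncomputable section

lemma af_mul_mono {A B C : ArithmeticFunction ℝ} (hA : ∀ n, 0 ≤ A n) (h : ∀ n, B n ≤ C n) (n : ℕ) :
    (A * B) n ≤ (A * C) n := by
  rw [ArithmeticFunction.mul_apply, ArithmeticFunction.mul_apply]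
  refine sum_le_sum fun x _ => ?_
  exact mul_le_mul_of_nonneg_left (h _) (hA _)

lemma af_mul_mono2 {A A' B B' : ArithmeticFunction ℝ} (hA : ∀ n, 0 ≤ A n) (hB' : ∀ n, 0 ≤ B' n)
    (h : ∀ n, A n ≤ A' n) (h' : ∀ n, B n ≤ B' n) (n : ℕ) : (A * B) n ≤ (A' * B') n := by
  rw [ArithmeticFunction.mul_apply, ArithmeticFunction.mul_apply]
  refine sum_le_sum fun x _ => ?_
  exact (mul_le_mul_of_nonneg_left (h' _) (hA _)).trans (mul_le_mul_of_nonneg_right (h _) (hB' _))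

/-- telescoping a product -/
lemma Ph_tele {ι : Type*} [DecidableEq ι] {κ Y : ℝ} (hκ : 0 ≤ κ) (S : Finset ι)
    (A B : ι → ArithmeticFunction ℝ) (hA : ∀ i n, 0 ≤ A i n) (hB : ∀ i n, 0 ≤ B i n) :
    ∀ W : ArithmeticFunction ℝ, (∀ n, 0 ≤ W n) →
    Ph κ Y (W * ∏ i ∈ S, (A i + B i)) ≤ Ph κ Y (W * ∏ i ∈ S, A i) +
      ∑ i ∈ S, Ph κ Y (W * (B i * ∏ l ∈ S.erase i, (A l + B l))) := by
  have hAB : ∀ i n, 0 ≤ (A i + B i) n := fun i n => by
    rw [ArithmeticFunction.add_apply]; exact add_nonneg (hA i n) (hB i n)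
  induction S using Finset.induction_on with
  | empty => intro W hW; simp
  | insert a S ha ih =>
    intro W hW
    rw [prod_insert ha, prod_insert ha, sum_insert ha]
    have hWA : ∀ n, 0 ≤ (W * A a) n := mul_nonneg_af hW (hA a)
    have h1 := ih (W * A a) hWA
    have e1 : Ph κ Y (W * ((A a + B a) * ∏ i ∈ S, (A i + B i))) =
        Ph κ Y (W * A a * ∏ i ∈ S, (A i + B i)) + Ph κ Y (W * (B a * ∏ i ∈ S, (A i + B i))) := by
      rw [← Ph_add]
      congr 1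
      ring
    rw [e1, erase_insert ha]
    have h2 : ∑ i ∈ S, Ph κ Y (W * A a * (B i * ∏ l ∈ S.erase i, (A l + B l))) ≤
        ∑ i ∈ S, Ph κ Y (W * (B i * ∏ l ∈ (insert a S).erase i, (A l + B l))) := by
      refine sum_le_sum fun i hi => ?_
      have hia : i ≠ a := fun h => ha (h ▸ hi)
      have e2 : (insert a S).erase i = insert a (S.erase i) := by
        rw [erase_insert_of_ne (Ne.symm hia)]
      have ha' : a ∉ S.erase i := fun h => ha (mem_of_mem_erase h)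
      rw [e2, prod_insert ha']
      refine Ph_mono hκ ?_
      have hP : ∀ n, 0 ≤ (∏ l ∈ S.erase i, (A l + B l)) n := prod_nonneg_af _ _ hAB
      have e3 : W * A a * (B i * ∏ l ∈ S.erase i, (A l + B l)) =
          (W * (B i * ∏ l ∈ S.erase i, (A l + B l))) * A a := by ring
      have e4 : W * (B i * ((A a + B a) * ∏ l ∈ S.erase i, (A l + B l))) =
          (W * (B i * ∏ l ∈ S.erase i, (A l + B l))) * (A a + B a) := by ring
      rw [e3, e4]
      refine af_mul_mono (mul_nonneg_af hW (mul_nonneg_af (hB i) hP)) fun n => ?_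
      rw [ArithmeticFunction.add_apply]
      linarith [hB a n]
    have e3 : W * A a * ∏ i ∈ S, A i = W * (A a * ∏ i ∈ S, A i) := by ring
    rw [e3] at h1
    linarith

lemma prod_dA {ι : Type*} (S : Finset ι) (f : ι → ℝ) : ∏ i ∈ S, dA (f i) = dA (∑ i ∈ S, f i) := by
  have := prod_tw_const S f 0
  simpa only [tw_zero] using this

lemma PA_le {n : ℕ} {e : Fin n → ℝ} (he : ∀ i, 0 ≤ e i) (X : Fin n → ℝ) (m : ℕ) :
    PA e X m ≤ dA (∑ i, e i) m := by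
  rw [← prod_dA]
  exact prod_mono_af _ _ _ (fun i n => tr_nonneg (fun m => dv_nonneg (he i) m) _ n)
    (fun i n => tr_le (fun m => dv_nonneg (he i) m) _ n) m

lemma PA_nonneg {n : ℕ} {e : Fin n → ℝ} (he : ∀ i, 0 ≤ e i) (X : Fin n → ℝ) (m : ℕ) :
    0 ≤ PA e X m :=
  prod_nonneg_af _ _ (fun i n => tr_nonneg (fun m => dv_nonneg (he i) m) _ n) m

/-- the tail product -/
def GT (κ ρ : ℝ) (m : ℕ) (Y : ℝ) : ArithmeticFunction ℝ :=
  ∏ i ∈ range m, tr (dA (κ / gq ρ i)) (Y ^ (1 / (gq ρ i : ℝ)))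

lemma GT_nonneg {κ : ℝ} (hκ : 0 ≤ κ) (ρ : ℝ) (m : ℕ) (Y : ℝ) (n : ℕ) : 0 ≤ GT κ ρ m Y n :=
  prod_nonneg_af _ _ (fun i n => tr_nonneg (fun m => dv_nonneg (div_nonneg hκ (gq_pos ρ i).le) m) _ n) n

lemma GT_le {κ : ℝ} (hκ : 0 ≤ κ) (ρ : ℝ) (m : ℕ) (Y : ℝ) (n : ℕ) :
    GT κ ρ m Y n ≤ dA (κ * (ρ - gR ρ m)) n := by
  have e1 : κ * (ρ - gR ρ m) = ∑ i ∈ range m, κ / gq ρ i := by
    rw [← gq_sum, mul_sum]
    exact sum_congr rfl fun i _ => by ring
  rw [e1, ← prod_dA]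
  exact prod_mono_af _ _ _
    (fun i n => tr_nonneg (fun m => dv_nonneg (div_nonneg hκ (gq_pos ρ i).le) m) _ n)
    (fun i n => tr_le (fun m => dv_nonneg (div_nonneg hκ (gq_pos ρ i).le) m) _ n) n

lemma fin_alg {P0 P G c1 c2 κ ε t L2 : ℝ} (h1 : P0 ≤ P * (1 + c1 * κ * ε))
    (h2 : P ≤ G + 2 * c2 * t * L2) (hP : 0 ≤ P) (hs : 0 ≤ t * L2)
    (hc1 : 0 ≤ c1) (hc2 : 0 ≤ c2) (hκ : 0 ≤ κ) (hε : 0 ≤ ε) :
    P0 ≤ (1 + (c1 * κ + κ + 2 * c2) * ε) * (G + (c1 * κ + κ + 2 * c2) * t * L2) := by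
  have h3 : P ≤ G + (c1 * κ + κ + 2 * c2) * t * L2 := by
    have h4 : 0 ≤ (c1 * κ + κ) * (t * L2) := by positivity
    nlinarith
  have h4 : 1 + c1 * κ * ε ≤ 1 + (c1 * κ + κ + 2 * c2) * ε := by
    have : 0 ≤ (κ + 2 * c2) * ε := by positivity
    nlinarith
  have h5 : 0 ≤ 1 + c1 * κ * ε := by positivity
  calc P0 ≤ P * (1 + c1 * κ * ε) := h1
    _ ≤ (G + (c1 * κ + κ + 2 * c2) * t * L2) * (1 + (c1 * κ + κ + 2 * c2) * ε) :=
        mul_le_mul h3 h4 h5 (hP.trans h3)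
    _ = _ := by ring

/-- **The loss from the tail.** -/
lemma tail_loss {κ : ℝ} (hκ : 1 ≤ κ) : ∃ C : ℝ, 0 < C ∧ ∀ ρ : ℝ, 0 < ρ → ρ ≤ 1 / 4 →
    ∀ (W : ArithmeticFunction ℝ) (w : ℝ), (∀ n, 0 ≤ W n) → 0 ≤ w → w + κ * ρ = κ →
    (∀ n, W n ≤ dA w n) → ∀ (ε Y : ℝ) (m : ℕ), 0 < ε → C * ε ≤ 1 → 1 ≤ Y →
    1 ≤ Real.log (Real.log Y) → 2 * (Real.log (Real.log Y) / ε + 1) ≤ Real.log Y →
    gR ρ m ≤ ε / Real.log (Real.log Y) → (∀ i < m, ε / Real.log (Real.log Y) < gR ρ i) →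
    Ph κ Y (W * dA (κ * ρ)) ≤ (1 + C * ε) *
      (Ph κ Y (W * GT κ ρ m Y) + C * Real.sqrt ρ * Real.log Y ^ (κ ^ 2)) := by
  have hκ0 : 0 < κ := by linarith
  obtain ⟨C1, hC1, h1⟩ := Ph_dA_small hκ
  obtain ⟨C2, hC2, h2⟩ := Ph_dA_le hκ0
  obtain ⟨C3, hC3, h3⟩ := tail_e hκ0
  refine ⟨C1 * κ + κ + 2 * (C2 * C3 * κ), by positivity, ?_⟩
  intro ρ hρ hρ1 W w hW hw hwκ hWw ε Y m hε hCε hY hLL hLY hm hmi
  set L := Real.log Y with hL
  set LL := Real.log L with hLLd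
  have hLL0 : 0 < LL := by linarith
  have hL0 : 0 < L := by
    have : 0 ≤ LL / ε := by positivity
    linarith
  have hL1 : 1 ≤ L := by
    have : 0 ≤ LL / ε := by positivity
    linarith
  have hY0 : 0 < Y := by linarith
  set η := gR ρ m with hη
  have hη0 : 0 < η := gR_pos hρ m
  have hηρ : η ≤ ρ := gR_le' hρ hρ1 m
  have hηL : η * LL ≤ ε := by rwa [le_div_iff₀ hLL0] at hm
  have hCCε : (C1 * κ + κ) * ε ≤ 1 := by
    have : 0 ≤ 2 * (C2 * C3 * κ) * ε := by positivity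
    linarith
  -- step 1
  have hd0 : ∀ n, 0 ≤ dA (κ * (ρ - η)) n := fun n => dv_nonneg (mul_nonneg hκ0.le (by linarith)) n
  have hWd : ∀ n, 0 ≤ (W * dA (κ * (ρ - η))) n := mul_nonneg_af hW hd0
  have s1 : Ph κ Y (W * dA (κ * ρ)) ≤ Ph κ Y (W * dA (κ * (ρ - η))) * (1 + C1 * κ * ε) := by
    have e1 : W * dA (κ * ρ) = (W * dA (κ * (ρ - η))) * dA (κ * η) := by
      rw [mul_assoc, dA_mul]; congr 2; ring
    rw [e1]
    refine (Ph_mul_le hκ hWd (fun n => dv_nonneg (by positivity) n)).trans ?_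
    have h4 := h1 (κ * η) Y (by positivity) hY0 hL1 hLL (by
      calc κ * η * LL = κ * (η * LL) := by ring
        _ ≤ κ * ε := by gcongr
        _ ≤ 1 := by
          have : 0 ≤ C1 * κ * ε := by positivity
          linarith)
    have h5 : Ph κ Y (dA (κ * η)) ≤ 1 + C1 * κ * ε := by
      refine h4.trans ?_
      have : C1 * (κ * η * LL) = C1 * κ * (η * LL) := by ring
      rw [this]
      have : C1 * κ * (η * LL) ≤ C1 * κ * ε := by gcongr
      linarith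
    exact mul_le_mul_of_nonneg_left h5 (Ph_nonneg hκ0.le hWd)
  -- step 2
  set A : ℕ → ArithmeticFunction ℝ := fun i => tr (dA (κ / gq ρ i)) (Y ^ (1 / (gq ρ i : ℝ))) with hA
  set B : ℕ → ArithmeticFunction ℝ := fun i => tc (κ / gq ρ i) (Y ^ (1 / (gq ρ i : ℝ))) with hB
  have hf0 : ∀ i, 0 ≤ κ / gq ρ i := fun i => div_nonneg hκ0.le (gq_pos ρ i).le
  have hA0 : ∀ i n, 0 ≤ A i n := fun i n => tr_nonneg (fun m => dv_nonneg (hf0 i) m) _ n
  have hB0 : ∀ i n, 0 ≤ B i n := fun i n => tc_nonneg (hf0 i) _ n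
  have hAB : ∀ i, A i + B i = dA (κ / gq ρ i) := fun i => tr_add_tc _ _
  have hsum : ∑ i ∈ range m, κ / gq ρ i = κ * (ρ - η) := by
    rw [hη, ← gq_sum, mul_sum]
    exact sum_congr rfl fun i _ => by ring
  have s2 := Ph_tele (Y := Y) hκ0.le (range m) A B hA0 hB0 W hW
  simp only [hAB] at s2
  rw [prod_dA, hsum] at s2
  have s3 : ∀ i ∈ range m, Ph κ Y (W * (B i * ∏ l ∈ (range m).erase i, dA (κ / gq ρ l))) ≤
      C2 * C3 * κ * L ^ (κ ^ 2) * (1 / Real.sqrt (gq ρ i)) := by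
    intro i hi
    have him : i < m := mem_range.mp hi
    set f := κ / (gq ρ i : ℝ) with hf
    have hqi := gq_pos ρ i
    have hq4 := gq_ge hρ hρ1 i
    have hfκ : f ≤ κ := by
      rw [hf, div_le_iff₀ hqi]
      have : (4:ℝ) ≤ gq ρ i := by exact_mod_cast hq4
      nlinarith
    have e1 : ∑ l ∈ (range m).erase i, κ / gq ρ l = κ * (ρ - η) - f := by
      rw [← hsum, ← add_sum_erase _ _ hi]; ring
    rw [prod_dA, e1]
    have hr0 : 0 ≤ κ * (ρ - η) - f := by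
      rw [← e1]; exact sum_nonneg fun l _ => hf0 l
    have e2 : W * (B i * dA (κ * (ρ - η) - f)) = (W * dA (κ * (ρ - η) - f)) * B i := by ring
    rw [e2]
    have hWd2 : ∀ n, 0 ≤ (W * dA (κ * (ρ - η) - f)) n :=
      mul_nonneg_af hW fun n => dv_nonneg hr0 n
    refine (Ph_mul_le hκ hWd2 (hB0 i)).trans ?_
    have h6 : Ph κ Y (W * dA (κ * (ρ - η) - f)) ≤ C2 * L ^ (κ * (κ - f)) := by
      refine le_trans ?_ (h2 (κ - f) Y (by linarith) (by linarith [hf0 i]) hY0 hL1)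
      refine Ph_mono hκ0.le fun n => ?_
      have h7 : (W * dA (κ * (ρ - η) - f)) n ≤ (dA w * dA (κ * (ρ - η) - f)) n :=
        af_mul_mono2 hW (fun n => dv_nonneg hr0 n) hWw (fun n => le_refl _) n
      refine h7.trans ?_
      rw [dA_mul, dA_apply, dA_apply]
      refine dv_mono (by linarith) ?_ n
      have : 0 ≤ κ * η := by positivity
      nlinarith
    have h7 : Ph κ Y (B i) ≤ C3 * Real.sqrt (gq ρ i) * f * L ^ (κ * f) := by
      refine h3 (gq ρ i) f Y (by omega) (hf0 i) hfκ hY ?_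
      have h8 := gq_le hρ i
      have h9 := hmi i him
      have h10 : 1 / gR ρ i ≤ LL / ε := by
        rw [div_le_div_iff₀ (gR_pos hρ i) hε]
        rw [div_lt_iff₀ hLL0] at h9
        linarith
      linarith
    have h8 : 0 ≤ Ph κ Y (B i) := Ph_nonneg hκ0.le (hB0 i)
    calc Ph κ Y (W * dA (κ * (ρ - η) - f)) * Ph κ Y (B i)
        ≤ (C2 * L ^ (κ * (κ - f))) * (C3 * Real.sqrt (gq ρ i) * f * L ^ (κ * f)) := by gcongr
      _ = C2 * C3 * (Real.sqrt (gq ρ i) * f) * (L ^ (κ * (κ - f)) * L ^ (κ * f)) := by ring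
      _ = C2 * C3 * (κ * (1 / Real.sqrt (gq ρ i))) * L ^ (κ ^ 2) := by
          congr 1
          · congr 1
            rw [hf]
            have h9 : Real.sqrt (gq ρ i) ≠ 0 := (Real.sqrt_pos.mpr hqi).ne'
            have h10 := Real.mul_self_sqrt hqi.le
            field_simp
            nlinarith
          · rw [← Real.rpow_add hL0]; congr 1; ring
      _ = _ := by ring
  have s4 : ∑ i ∈ range m, Ph κ Y (W * (B i * ∏ l ∈ (range m).erase i, dA (κ / gq ρ l))) ≤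
      2 * (C2 * C3 * κ) * Real.sqrt ρ * L ^ (κ ^ 2) := by
    refine (sum_le_sum s3).trans ?_
    rw [← mul_sum]
    have h6 := gR_sqrt hρ hρ1 m
    have h7 := Real.sqrt_nonneg (gR ρ m)
    have h8 : ∑ i ∈ range m, 1 / Real.sqrt (gq ρ i) ≤ 2 * Real.sqrt ρ := by linarith
    have h9 : 0 ≤ C2 * C3 * κ * L ^ (κ ^ 2) := by positivity
    calc C2 * C3 * κ * L ^ (κ ^ 2) * ∑ i ∈ range m, 1 / Real.sqrt (gq ρ i)
        ≤ C2 * C3 * κ * L ^ (κ ^ 2) * (2 * Real.sqrt ρ) := by gcongr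
      _ = _ := by ring
  have s5 : Ph κ Y (W * dA (κ * (ρ - η))) ≤ Ph κ Y (W * GT κ ρ m Y) +
      2 * (C2 * C3 * κ) * Real.sqrt ρ * L ^ (κ ^ 2) := by
    have : GT κ ρ m Y = ∏ i ∈ range m, A i := rfl
    rw [this]
    linarith
  have hL2 : 0 ≤ Real.sqrt ρ * L ^ (κ ^ 2) := by positivity
  have hP0 : 0 ≤ Ph κ Y (W * dA (κ * (ρ - η))) := Ph_nonneg hκ0.le hWd
  exact fin_alg s1 s5 hP0 hL2 (by positivity) (by positivity) hκ0.le hε.le

end

end Pool.Agent.W181.Mom
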