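import Pool.Agent.W181.Mom.Ser

set_option autoImplicit false

/-! The ratio of the Dirichlet series at `σ` and `2σ`, uniformly in `f`. -/

namespace Pool.Agent.W181.Mom

open Finset Filter Topology Pool.Agent.H306R2

noncomputable section

lemma one_add_sum_le {ι : Type*} (S : Finset ι) (δ : ι → ℝ) (hδ : ∀ i, 0 ≤ δ i) :
    1 + ∑ i ∈ S, δ i ≤ ∏ i ∈ S, (1 + δ i) := by
  classical
  induction S using Finset.induction_on with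
  | empty => simp
  | insert a S ha ih =>
    rw [sum_insert ha, prod_insert ha]
    have h1 := hδ a
    have h2 : 0 ≤ ∑ i ∈ S, δ i := sum_nonneg fun i _ => hδ i
    nlinarith

lemma prime_pow_le {p : ℕ} (hp : p.Prime) {s t : ℝ} (hst : s ≤ t) :
    (p:ℝ) ^ (-1 - t) ≤ (p:ℝ) ^ (-1 - s) :=
  Real.rpow_le_rpow_of_exponent_le (by exact_mod_cast hp.one_lt.le) (by linarith)

lemma primes_diff {σ : ℝ} (hσ : 0 < σ) (hσ1 : σ ≤ 1) (S : Finset Nat.Primes) :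
    ∑ p ∈ S, (((p:ℕ):ℝ) ^ (-1 - σ) - ((p:ℕ):ℝ) ^ (-1 - 2 * σ)) ≤ 3 := by
  have h1 := Zr_hasProd hσ
  have h2 := Zr_hasProd (σ := 2 * σ) (by linarith)
  set δ : Nat.Primes → ℝ := fun p => ((p:ℕ):ℝ) ^ (-1 - σ) - ((p:ℕ):ℝ) ^ (-1 - 2 * σ) with hδ
  have hδ0 : ∀ p, 0 ≤ δ p := fun p => by
    have := prime_pow_le p.2 (show σ ≤ 2 * σ by linarith)
    rw [hδ]; simp only; linarith
  have hx : ∀ p : Nat.Primes, 0 < 1 - ((p:ℕ):ℝ) ^ (-1 - σ) := fun p => by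
    have h1 := rpow_term p.2 hσ.le
    have h2 := (inv_prime p.2).2
    linarith
  have hy : ∀ p : Nat.Primes, 0 < 1 - ((p:ℕ):ℝ) ^ (-1 - 2 * σ) := fun p => by
    have h1 := rpow_term p.2 (show 0 ≤ 2 * σ by linarith)
    have h2 := (inv_prime p.2).2
    linarith
  have hy1 : ∀ p : Nat.Primes, 0 < ((p:ℕ):ℝ) ^ (-1 - 2 * σ) := fun p =>
    Real.rpow_pos_of_pos (by exact_mod_cast p.2.pos) _
  have hx1 : ∀ p : Nat.Primes, 0 < ((p:ℕ):ℝ) ^ (-1 - σ) := fun p =>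
    Real.rpow_pos_of_pos (by exact_mod_cast p.2.pos) _
  have hle : ∀ p : Nat.Primes, (1 + δ p) * (1 - ((p:ℕ):ℝ) ^ (-1 - 2 * σ))⁻¹ ≤
      (1 - ((p:ℕ):ℝ) ^ (-1 - σ))⁻¹ := by
    intro p
    have ha := hx p
    have hb := hy p
    have hc := hδ0 p
    rw [← div_eq_mul_inv, div_le_iff₀ hb, inv_mul_eq_div, le_div_iff₀ ha]
    have : δ p = ((p:ℕ):ℝ) ^ (-1 - σ) - ((p:ℕ):ℝ) ^ (-1 - 2 * σ) := rfl
    have h3 := hx1 p
    nlinarith [mul_nonneg hc h3.le]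
  have hlim : (1 + ∑ p ∈ S, δ p) * Zr (2 * σ) ≤ Zr σ := by
    have h3 := Filter.Tendsto.const_mul (1 + ∑ p ∈ S, δ p) h2
    refine le_of_tendsto_of_tendsto h3 h1 ?_
    filter_upwards [eventually_ge_atTop S] with S' hS'
    have h4 : 1 + ∑ p ∈ S, δ p ≤ ∏ p ∈ S', (1 + δ p) := by
      refine le_trans ?_ (one_add_sum_le S' δ hδ0)
      have := sum_le_sum_of_subset_of_nonneg hS' (fun p _ _ => hδ0 p)
      linarith
    have h5 : 0 ≤ ∏ p ∈ S', (1 - ((p:ℕ):ℝ) ^ (-1 - 2 * σ))⁻¹ :=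
      prod_nonneg fun p _ => (inv_pos.mpr (hy p)).le
    calc (1 + ∑ p ∈ S, δ p) * ∏ p ∈ S', (1 - ((p:ℕ):ℝ) ^ (-1 - 2 * σ))⁻¹
        ≤ (∏ p ∈ S', (1 + δ p)) * ∏ p ∈ S', (1 - ((p:ℕ):ℝ) ^ (-1 - 2 * σ))⁻¹ := by gcongr
      _ = ∏ p ∈ S', ((1 + δ p) * (1 - ((p:ℕ):ℝ) ^ (-1 - 2 * σ))⁻¹) := by rw [prod_mul_distrib]
      _ ≤ _ := prod_le_prod (fun p _ => by
          have := hδ0 p
          have := inv_pos.mpr (hy p)
          positivity) fun p _ => hle p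
  have h3 := (Zr_bounds hσ).2
  have h4 := (Zr_bounds (σ := 2 * σ) (by linarith)).1
  have h5 : 0 ≤ ∑ p ∈ S, δ p := sum_nonneg fun p _ => hδ0 p
  have h6 : (1 + ∑ p ∈ S, δ p) * (1 / (2 * σ)) ≤ 1 + 1 / σ := by
    calc (1 + ∑ p ∈ S, δ p) * (1 / (2 * σ)) ≤ (1 + ∑ p ∈ S, δ p) * Zr (2 * σ) := by gcongr
      _ ≤ _ := hlim.trans h3
  have h7 : (1 + ∑ p ∈ S, δ p) ≤ (1 + 1 / σ) * (2 * σ) := by
    rw [mul_one_div, div_le_iff₀ (by linarith)] at h6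
    exact h6
  have h8 : (1 + 1 / σ) * (2 * σ) = 2 * σ + 2 := by field_simp
  rw [h8] at h7
  linarith

/-- local factor -/
def Eh (κ f σ : ℝ) (p : ℕ) : ℝ := ∑' m : ℕ, hh κ f σ (p ^ m)

lemma hh_pp {κ f σ : ℝ} {p : ℕ} (hp : p.Prime) (m : ℕ) :
    hh κ f σ (p ^ m) = lc f m * lc κ m * ((p:ℝ) ^ m) ^ (-1 - σ) := by
  unfold hh
  rw [dv_prime_pow _ hp, dv_prime_pow _ hp]
  push_cast
  rfl

lemma hh_pp_le {κ f σ : ℝ} (hf : 0 ≤ f) (hfκ : f ≤ κ) (hκ : 0 < κ) (hσ : 0 ≤ σ) {p : ℕ}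
    (hp : p.Prime) {m : ℕ} (hm : m ≠ 0) :
    hh κ f σ (p ^ m) ≤ f / κ * (lc (κ ^ 2) m * (1 / (p:ℝ)) ^ m) := by
  rw [hh_pp hp]
  have h1 := lc_ratio hf hfκ hm
  have h2 := lc_sq_le hκ.le m
  have h3 := lc_nonneg hκ.le m
  have h4 := lc_nonneg hf m
  have hp1 : (1:ℝ) ≤ p := by exact_mod_cast hp.one_lt.le
  have hp0 : (0:ℝ) < p := by linarith
  have h5 : ((p:ℝ) ^ m) ^ (-1 - σ) ≤ (1 / (p:ℝ)) ^ m := by
    have h6 : (1:ℝ) ≤ (p:ℝ) ^ m := one_le_pow₀ hp1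
    calc ((p:ℝ) ^ m) ^ (-1 - σ) ≤ ((p:ℝ) ^ m) ^ (-1 : ℝ) :=
          Real.rpow_le_rpow_of_exponent_le h6 (by linarith)
      _ = (1 / (p:ℝ)) ^ m := by rw [Real.rpow_neg_one, one_div, inv_pow]
  have h6 : lc f m ≤ f / κ * lc κ m := by
    rw [div_mul_eq_mul_div, le_div_iff₀ hκ]
    linarith
  calc lc f m * lc κ m * ((p:ℝ) ^ m) ^ (-1 - σ) ≤ (f / κ * lc κ m) * lc κ m * (1 / (p:ℝ)) ^ m := by
        have : 0 ≤ ((p:ℝ) ^ m) ^ (-1 - σ) := by positivity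
        gcongr
    _ = f / κ * (lc κ m ^ 2 * (1 / (p:ℝ)) ^ m) := by ring
    _ ≤ _ := by
        have : 0 ≤ f / κ := by positivity
        gcongr

lemma hh_pp_summable {κ f σ : ℝ} (hf : 0 ≤ f) (hfκ : f ≤ κ) (hκ : 0 < κ) (hσ : 0 ≤ σ) {p : ℕ}
    (hp : p.Prime) : Summable (fun m : ℕ => hh κ f σ (p ^ m)) := by
  rw [← summable_nat_add_iff 1]
  have hp' := inv_prime hp
  have h1 := (summable_nat_add_iff 1).mpr
    (lc_summable (α := κ ^ 2) (by positivity) hp'.1 (by linarith [hp'.2]))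
  exact Summable.of_nonneg_of_le (fun m => hh_nonneg hf hfκ _ _)
    (fun m => hh_pp_le hf hfκ hκ hσ hp (by omega)) (h1.mul_left (f / κ))

lemma Eh_ge_one {κ f σ : ℝ} (hf : 0 ≤ f) (hfκ : f ≤ κ) (hκ : 0 < κ) (hσ : 0 ≤ σ) {p : ℕ}
    (hp : p.Prime) : 1 ≤ Eh κ f σ p := by
  have h := (hh_pp_summable hf hfκ hκ hσ hp).sum_le_tsum {0} (fun n _ => hh_nonneg hf hfκ σ _)
  rw [sum_singleton, pow_zero, hh_one] at h
  exact h

/-- difference of local factors -/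
lemma Eh_diff {κ f σ : ℝ} (hf : 0 ≤ f) (hfκ : f ≤ κ) (hκ : 0 < κ) (hσ : 0 < σ) {p : ℕ}
    (hp : p.Prime) :
    Eh κ f σ p - Eh κ f (2 * σ) p ≤
      f * (κ * ((p:ℝ) ^ (-1 - σ) - (p:ℝ) ^ (-1 - 2 * σ)) + C0 κ / κ * (1 / (p:ℝ)) ^ 2) := by
  have hs1 := hh_pp_summable hf hfκ hκ hσ.le hp
  have hs2 := hh_pp_summable (σ := 2 * σ) hf hfκ hκ (by linarith) hp
  have hp' := inv_prime hp
  unfold Eh
  rw [← hs1.sum_add_tsum_nat_add 2, ← hs2.sum_add_tsum_nat_add 2]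
  simp only [sum_range_succ, sum_range_zero, pow_zero, zero_add, hh_one]
  rw [hh_pp hp, hh_pp hp, lc_one, lc_one, pow_one]
  have h1 : ∑' m : ℕ, hh κ f σ (p ^ (m + 2)) ≤ f / κ * (C0 κ * (1 / (p:ℝ)) ^ 2) := by
    unfold C0
    rw [← tsum_mul_right, ← tsum_mul_left]
    refine Summable.tsum_le_tsum (fun m => ?_) ((summable_nat_add_iff 2).mpr hs1)
      (((C0_summable hκ).mul_right _).mul_left _)
    refine (hh_pp_le hf hfκ hκ hσ.le hp (by omega)).trans ?_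
    rw [pow_add, mul_assoc]
    have h1 : (1 / (p:ℝ)) ^ m ≤ (1 / 2) ^ m := pow_le_pow_left₀ hp'.1.le hp'.2 m
    have h2 := lc_nonneg (α := κ ^ 2) (by positivity) (m + 2)
    have : 0 ≤ f / κ := by positivity
    gcongr
  have h2 : 0 ≤ ∑' m : ℕ, hh κ f (2 * σ) (p ^ (m + 2)) :=
    tsum_nonneg fun m => hh_nonneg hf hfκ _ _
  have h3 : f / κ * (C0 κ * (1 / (p:ℝ)) ^ 2) = f * (C0 κ / κ * (1 / (p:ℝ)) ^ 2) := by ring
  rw [h3] at h1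
  nlinarith

/-- **The ratio bound.** -/
lemma DD_ratio {κ : ℝ} (hκ : 0 < κ) : ∃ C : ℝ, 0 < C ∧ ∀ f σ : ℝ, 0 ≤ f → f ≤ κ → 0 < σ → σ ≤ 1 →
    DD κ f σ ≤ Real.exp (C * f) * DD κ f (2 * σ) := by
  set P := ∑' p : Nat.Primes, (1 / ((p:ℕ):ℝ)) ^ 2 with hP
  have hP0 : 0 ≤ P := tsum_nonneg fun p => by positivity
  have hC0 := C0_nonneg hκ
  refine ⟨3 * κ + C0 κ / κ * P + 1, by positivity, ?_⟩
  intro f σ hf hfκ hσ hσ1
  have h1 : HasProd (fun p : Nat.Primes => Eh κ f σ p) (DD κ f σ) :=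
    EulerProduct.eulerProduct_hasProd (hh_one κ f σ) (fun {m n} h => hh_mult κ f σ h)
      (hh_summable hf hfκ hσ).norm (hh_zero κ f σ)
  have h2 : HasProd (fun p : Nat.Primes => Eh κ f (2 * σ) p) (DD κ f (2 * σ)) :=
    EulerProduct.eulerProduct_hasProd (hh_one κ f _) (fun {m n} h => hh_mult κ f _ h)
      (hh_summable hf hfκ (by linarith)).norm (hh_zero κ f _)
  have h3 := Filter.Tendsto.const_mul (Real.exp ((3 * κ + C0 κ / κ * P + 1) * f)) h2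
  refine le_of_tendsto_of_tendsto' h1 h3 fun S => ?_
  set d : Nat.Primes → ℝ := fun p =>
    f * (κ * (((p:ℕ):ℝ) ^ (-1 - σ) - ((p:ℕ):ℝ) ^ (-1 - 2 * σ)) + C0 κ / κ * (1 / ((p:ℕ):ℝ)) ^ 2) with hd
  have hd0 : ∀ p, 0 ≤ d p := fun p => by
    have := prime_pow_le p.2 (show σ ≤ 2 * σ by linarith)
    have h4 : 0 ≤ κ * (((p:ℕ):ℝ) ^ (-1 - σ) - ((p:ℕ):ℝ) ^ (-1 - 2 * σ)) :=
      mul_nonneg hκ.le (by linarith)
    rw [hd]; positivity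
  have h4 : ∏ p ∈ S, Eh κ f σ p ≤ ∏ p ∈ S, (Real.exp (d p) * Eh κ f (2 * σ) p) := by
    refine prod_le_prod (fun p _ => by linarith [Eh_ge_one hf hfκ hκ hσ.le p.2]) fun p _ => ?_
    have h5 := Eh_diff hf hfκ hκ hσ p.2
    have h6 := Eh_ge_one (σ := 2 * σ) hf hfκ hκ (by linarith) p.2
    have h7 := Real.add_one_le_exp (d p)
    have h8 := hd0 p
    have h9 : Eh κ f σ p ≤ d p + Eh κ f (2 * σ) p := by
      have : d p = f * (κ * (((p:ℕ):ℝ) ^ (-1 - σ) - ((p:ℕ):ℝ) ^ (-1 - 2 * σ)) +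
        C0 κ / κ * (1 / ((p:ℕ):ℝ)) ^ 2) := rfl
      linarith
    nlinarith
  refine h4.trans ?_
  rw [prod_mul_distrib, ← Real.exp_sum]
  have h5 : ∑ p ∈ S, d p ≤ (3 * κ + C0 κ / κ * P + 1) * f := by
    rw [hd]
    simp only
    rw [← mul_sum, sum_add_distrib, ← mul_sum, ← mul_sum]
    have h6 := primes_diff hσ hσ1 S
    have h7 : ∑ p ∈ S, (1 / ((p:ℕ):ℝ)) ^ 2 ≤ P :=
      primes_summable.sum_le_tsum S (fun p _ => by positivity)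
    have h8 : κ * ∑ p ∈ S, (((p:ℕ):ℝ) ^ (-1 - σ) - ((p:ℕ):ℝ) ^ (-1 - 2 * σ)) ≤ κ * 3 := by gcongr
    have h9 : C0 κ / κ * ∑ p ∈ S, (1 / ((p:ℕ):ℝ)) ^ 2 ≤ C0 κ / κ * P := by
      have : 0 ≤ C0 κ / κ := by positivity
      gcongr
    nlinarith
  have h6 : 0 ≤ ∏ p ∈ S, Eh κ f (2 * σ) p :=
    prod_nonneg fun p _ => by linarith [Eh_ge_one (σ := 2 * σ) hf hfκ hκ (by linarith) p.2]
  exact mul_le_mul_of_nonneg_right (Real.exp_le_exp.mpr h5) h6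

end

end Pool.Agent.W181.Mom
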