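import Pool.Agent.W181.Mom.Sub

set_option autoImplicit false

/-! The Dirichlet series `Σ d_f(n) d_κ(n) n^{-1-σ}`, uniformly in `f`. -/

namespace Pool.Agent.W181.Mom

open Finset Filter Topology Pool.Agent.H306R2

noncomputable section

lemma Zr_tele {σ : ℝ} (hσ : 0 < σ) (n : ℕ) (hn : 1 ≤ n) :
    σ * ((n:ℝ) + 1) ^ (-1 - σ) ≤ (n:ℝ) ^ (-σ) - ((n:ℝ) + 1) ^ (-σ) ∧
      (n:ℝ) ^ (-σ) - ((n:ℝ) + 1) ^ (-σ) ≤ σ * (n:ℝ) ^ (-1 - σ) := by
  have hn0 : (0:ℝ) < n := by exact_mod_cast hn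
  have hd : ∀ x : ℝ, 0 < x → HasDerivAt (fun x : ℝ => x ^ (-σ)) (-σ * x ^ (-σ - 1)) x := by
    intro x hx
    exact Real.hasDerivAt_rpow_const (Or.inl hx.ne')
  obtain ⟨c, hc, hc2⟩ := exists_hasDerivAt_eq_slope (fun x : ℝ => x ^ (-σ))
    (fun x => -σ * x ^ (-σ - 1)) (show (n:ℝ) < n + 1 by linarith)
    (fun x hx => (hd x (lt_of_lt_of_le hn0 hx.1)).continuousAt.continuousWithinAt)
    (fun x hx => hd x (hn0.trans hx.1))
  simp only [add_sub_cancel_left, div_one] at hc2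
  have hc0 : 0 < c := hn0.trans hc.1
  have e1 : (n:ℝ) ^ (-σ) - ((n:ℝ) + 1) ^ (-σ) = σ * c ^ (-1 - σ) := by
    rw [show (-1 - σ : ℝ) = -σ - 1 by ring]
    linarith
  rw [e1]
  constructor
  · exact mul_le_mul_of_nonneg_left
      (Real.rpow_le_rpow_of_nonpos hc0 hc.2.le (by linarith)) hσ.le
  · exact mul_le_mul_of_nonneg_left
      (Real.rpow_le_rpow_of_nonpos hn0 hc.1.le (by linarith)) hσ.le

lemma Zr_bounds {σ : ℝ} (hσ : 0 < σ) : 1 / σ ≤ Zr σ ∧ Zr σ ≤ 1 + 1 / σ := by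
  have hs := Zr_summable hσ
  have hs1 : Summable (fun n : ℕ => ((n:ℝ) + 1) ^ (-1 - σ)) := by
    have := (summable_nat_add_iff 1).mpr hs
    refine this.congr fun n => by push_cast; rfl
  have hs2 : Summable (fun n : ℕ => ((n:ℝ) + 1 + 1) ^ (-1 - σ)) := by
    have := (summable_nat_add_iff 2).mpr hs
    refine this.congr fun n => by push_cast; ring_nf
  have e0 : (0:ℝ) ^ (-1 - σ) = 0 := Real.zero_rpow (by linarith)
  have eZ : Zr σ = ∑' n : ℕ, ((n:ℝ) + 1) ^ (-1 - σ) := by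
    unfold Zr
    rw [hs.tsum_eq_zero_add]
    simp only [Nat.cast_zero, e0, zero_add]
    refine tsum_congr fun n => by push_cast; rfl
  have eZ2 : Zr σ = 1 + ∑' n : ℕ, ((n:ℝ) + 1 + 1) ^ (-1 - σ) := by
    rw [eZ, hs1.tsum_eq_zero_add]
    simp only [Nat.cast_zero, zero_add, Real.one_rpow]
    congr 1
    refine tsum_congr fun n => by push_cast; rfl
  -- telescoping
  have htel : HasSum (fun n : ℕ => ((n:ℝ) + 1) ^ (-σ) - ((n:ℝ) + 1 + 1) ^ (-σ)) 1 := by
    have hnn : ∀ n : ℕ, 0 ≤ ((n:ℝ) + 1) ^ (-σ) - ((n:ℝ) + 1 + 1) ^ (-σ) := by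
      intro n
      have := (Zr_tele hσ (n + 1) (by omega)).1
      push_cast at this
      refine le_trans ?_ this
      positivity
    rw [hasSum_iff_tendsto_nat_of_nonneg hnn]
    have hsum : ∀ N : ℕ, ∑ n ∈ range N, (((n:ℝ) + 1) ^ (-σ) - ((n:ℝ) + 1 + 1) ^ (-σ)) =
        1 - ((N:ℝ) + 1) ^ (-σ) := by
      intro N
      induction N with
      | zero => simp
      | succ N ih => rw [sum_range_succ, ih]; push_cast; ring
    simp only [hsum]
    have h1 : Tendsto (fun N : ℕ => ((N:ℝ) + 1) ^ (-σ)) atTop (𝓝 0) := by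
      have h2 := tendsto_rpow_neg_atTop hσ
      exact h2.comp (tendsto_atTop_add_const_right _ _ tendsto_natCast_atTop_atTop)
    simpa using h1.const_sub 1
  constructor
  · have h1 : (1:ℝ) ≤ σ * Zr σ := by
      rw [eZ, ← tsum_mul_left]
      refine htel.tsum_eq.symm.le.trans ?_
      refine Summable.tsum_le_tsum (fun n => ?_) htel.summable (hs1.mul_left σ)
      have := (Zr_tele hσ (n + 1) (by omega)).2
      push_cast at this
      exact this
    rw [div_le_iff₀ hσ]; linarith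
  · have h1 : σ * ∑' n : ℕ, ((n:ℝ) + 1 + 1) ^ (-1 - σ) ≤ 1 := by
      rw [← tsum_mul_left]
      refine le_trans ?_ htel.tsum_eq.le
      refine Summable.tsum_le_tsum (fun n => ?_) (hs2.mul_left σ) htel.summable
      have := (Zr_tele hσ (n + 1) (by omega)).1
      push_cast at this
      exact this
    rw [eZ2]
    have : ∑' n : ℕ, ((n:ℝ) + 1 + 1) ^ (-1 - σ) ≤ 1 / σ := by
      rw [le_div_iff₀ hσ]; linarith
    linarith

/-- summand -/
def hh (κ f σ : ℝ) (n : ℕ) : ℝ := dv f n * dv κ n * (n:ℝ) ^ (-1 - σ)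

/-- the series -/
def DD (κ f σ : ℝ) : ℝ := ∑' n : ℕ, hh κ f σ n

lemma hh_nonneg {κ f : ℝ} (hf : 0 ≤ f) (hfκ : f ≤ κ) (σ : ℝ) (n : ℕ) : 0 ≤ hh κ f σ n := by
  unfold hh
  have h1 := dv_nonneg hf n
  have h2 := dv_nonneg (hf.trans hfκ) n
  positivity

lemma hh_summable {κ f σ : ℝ} (hf : 0 ≤ f) (hfκ : f ≤ κ) (hσ : 0 < σ) : Summable (hh κ f σ) := by
  have hκ : 0 ≤ κ := hf.trans hfκ
  obtain ⟨J, hJ⟩ := exists_nat_ge (κ ^ 2)
  refine Summable.of_nonneg_of_le (fun n => hh_nonneg hf hfκ σ n) (fun n => ?_) (dvJ_summable J hσ)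
  unfold hh
  have h1 := dv_mono hf hfκ n
  have h2 := dv_nonneg hκ n
  have h3 := (dv_sq_le hκ n).trans (dv_mono (by positivity) hJ n)
  calc dv f n * dv κ n * (n:ℝ) ^ (-1 - σ) ≤ dv κ n * dv κ n * (n:ℝ) ^ (-1 - σ) := by gcongr
    _ = dv κ n ^ 2 * (n:ℝ) ^ (-1 - σ) := by ring
    _ ≤ _ := by gcongr

lemma hh_one (κ f σ : ℝ) : hh κ f σ 1 = 1 := by
  unfold hh
  rw [dv_one, dv_one]; simp

lemma hh_zero (κ f σ : ℝ) : hh κ f σ 0 = 0 := by
  unfold hh
  simp [dv]

lemma hh_mult (κ f σ : ℝ) {m n : ℕ} (h : Nat.Coprime m n) :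
    hh κ f σ (m * n) = hh κ f σ m * hh κ f σ n := by
  unfold hh
  have h1 := (dA_mult f).map_mul_of_coprime h
  have h2 := (dA_mult κ).map_mul_of_coprime h
  rw [dA_apply, dA_apply, dA_apply] at h1 h2
  rw [h1, h2]
  push_cast
  rw [Real.mul_rpow (by positivity) (by positivity)]
  ring

lemma DD_one_le {κ f σ : ℝ} (hf : 0 ≤ f) (hfκ : f ≤ κ) (hσ : 0 < σ) : 1 ≤ DD κ f σ := by
  have h := (hh_summable hf hfκ hσ).sum_le_tsum {1} (fun n _ => hh_nonneg hf hfκ σ n)
  rw [sum_singleton, hh_one] at h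
  exact h

/-- the upper bound of the series -/
lemma DD_le {κ : ℝ} (hκ : 0 < κ) : ∃ C : ℝ, 1 ≤ C ∧ ∀ f σ : ℝ, 0 ≤ f → f ≤ κ → 0 < σ → σ ≤ 1 →
    DD κ f σ ≤ C * (1 / σ) ^ (κ * f) := by
  set P := ∑' p : Nat.Primes, (1 / ((p:ℕ):ℝ)) ^ 2 with hP
  have hP0 : 0 ≤ P := tsum_nonneg fun p => by positivity
  have hC1 : ∀ (e s : Fin 2 → ℝ) (he : ∀ i, 0 ≤ e i) (hE : ∑ i, e i = κ) (hs : ∀ i, 0 ≤ s i),
      ∑' p : Nat.Primes, up e s p ≤ C1 κ * P := by
    intro e s he hE hs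
    have hE0 : 0 < ∑ i, e i := by rw [hE]; exact hκ
    rw [hP, ← tsum_mul_left]
    refine Summable.tsum_le_tsum (fun p => ?_) (up_summable he hE0 hs) (primes_summable.mul_left _)
    have := up_bound he hE0 hs p.2
    rw [hE] at this
    exact (Real.le_norm_self _).trans this
  refine ⟨Real.exp (|C1 κ| * P) * (Zr 1 ^ (κ * κ) + 1) * (2:ℝ) ^ (κ * κ), ?_, ?_⟩
  · have h1 : 1 ≤ Real.exp (|C1 κ| * P) := Real.one_le_exp (by positivity)
    have h2 : (1:ℝ) ≤ Zr 1 ^ (κ * κ) + 1 := by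
      have := Real.rpow_nonneg (Zr_pos one_pos).le (κ * κ)
      linarith
    have h3 : (1:ℝ) ≤ (2:ℝ) ^ (κ * κ) := Real.one_le_rpow (by norm_num) (by positivity)
    calc (1:ℝ) = 1 * 1 * 1 := by ring
      _ ≤ _ := by gcongr
  · intro f σ hf hfκ hσ hσ1
    set e : Fin 2 → ℝ := ![f, κ - f] with he
    set s : Fin 2 → ℝ := ![σ, 1] with hs
    have he0 : ∀ i, 0 ≤ e i := by
      intro i; fin_cases i
      · simpa [he] using hf
      · simp [he]; exact hfκ
    have hE : ∑ i, e i = κ := by rw [Fin.sum_univ_two]; simp [he]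
    have hs0 : ∀ i, σ ≤ s i := by
      intro i; fin_cases i
      · simp [hs]
      · simpa [hs] using hσ1
    have hs00 : ∀ i, 0 ≤ s i := fun i => hσ.le.trans (hs0 i)
    have h1 := cf_tsum he0 (by rw [hE]; exact hκ) hσ hs0
    have h2 : DD κ f σ ≤ ∑' n, cf e s n := by
      refine Summable.tsum_le_tsum (fun n => ?_) (hh_summable hf hfκ hσ) (cf_summable he0 hσ hs0)
      rcases Nat.eq_zero_or_pos n with hn | hn
      · subst hn; rw [hh_zero, cf_zero]
      · unfold cf hh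
        rw [hE]
        have hn0 : (0:ℝ) < n := by exact_mod_cast hn
        have h3 : dv f n * (n:ℝ) ^ (-σ) ≤ Gs e s n := by
          unfold Gs
          rw [Fin.prod_univ_two, ArithmeticFunction.mul_apply]
          have h4 := single_le_sum (s := n.divisorsAntidiagonal)
            (f := fun x => (tw (e 0) (s 0)) x.1 * (tw (e 1) (s 1)) x.2) (fun x _ => by
              rw [tw_apply, tw_apply]
              have h5 := dv_nonneg (he0 0) x.1
              have h6 := dv_nonneg (he0 1) x.2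
              positivity) (a := (n, 1)) (by simp; omega)
          simp only at h4
          rw [tw_apply, tw_apply, dv_one] at h4
          simpa [he, hs] using h4
        have h4 := dv_nonneg hκ.le n
        calc dv f n * dv κ n * (n:ℝ) ^ (-1 - σ) = dv κ n * (dv f n * (n:ℝ) ^ (-σ)) / n := by
              rw [show (-1 - σ : ℝ) = -σ - 1 by ring, Real.rpow_sub hn0, Real.rpow_one]
              ring
          _ ≤ _ := by gcongr
    refine h2.trans ?_
    rw [h1, hE, Fin.prod_univ_two]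
    have e0 : e 0 = f := by simp [he]
    have e1 : e 1 = κ - f := by simp [he]
    have s0 : s 0 = σ := by simp [hs]
    have s1 : s 1 = 1 := by simp [hs]
    rw [e0, e1, s0, s1]
    have h5 : Real.exp (∑' p : Nat.Primes, up e s p) ≤ Real.exp (|C1 κ| * P) := by
      apply Real.exp_le_exp.mpr
      refine (hC1 e s he0 hE hs00).trans ?_
      exact mul_le_mul_of_nonneg_right (le_abs_self _) hP0
    have h6 : Zr 1 ^ (κ * (κ - f)) ≤ Zr 1 ^ (κ * κ) + 1 := by
      rcases le_total 1 (Zr 1) with h | h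
      · have := Real.rpow_le_rpow_of_exponent_le h (show κ * (κ - f) ≤ κ * κ by nlinarith)
        linarith
      · have h7 := Real.rpow_le_one (Zr_pos one_pos).le h (show 0 ≤ κ * (κ - f) by
          apply mul_nonneg hκ.le; linarith)
        have h8 := Real.rpow_nonneg (Zr_pos one_pos).le (κ * κ)
        linarith
    have h7 : Zr σ ^ (κ * f) ≤ (2:ℝ) ^ (κ * κ) * (1 / σ) ^ (κ * f) := by
      have h8 : Zr σ ≤ 2 * (1 / σ) := by
        have := (Zr_bounds hσ).2
        have h9 : 1 ≤ 1 / σ := by rw [le_div_iff₀ hσ]; linarith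
        linarith
      calc Zr σ ^ (κ * f) ≤ (2 * (1 / σ)) ^ (κ * f) :=
            Real.rpow_le_rpow (Zr_pos hσ).le h8 (by positivity)
        _ = (2:ℝ) ^ (κ * f) * (1 / σ) ^ (κ * f) := Real.mul_rpow (by norm_num) (by positivity)
        _ ≤ _ := by
            gcongr
            · norm_num
    have h10 := Real.rpow_nonneg (Zr_pos one_pos).le (κ * (κ - f))
    calc Real.exp (∑' p : Nat.Primes, up e s p) * (Zr σ ^ (κ * f) * Zr 1 ^ (κ * (κ - f)))
        ≤ Real.exp (|C1 κ| * P) * (((2:ℝ) ^ (κ * κ) * (1 / σ) ^ (κ * f)) * (Zr 1 ^ (κ * κ) + 1)) := by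
          have := Real.rpow_nonneg (Zr_pos one_pos).le (κ * κ)
          have h11 := Real.rpow_nonneg (Zr_pos hσ).le (κ * f)
          refine mul_le_mul h5 (mul_le_mul h7 h6 h10 (h11.trans h7)) (mul_nonneg h11 h10)
            (Real.exp_pos _).le
      _ = _ := by ring

end

end Pool.Agent.W181.Mom
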