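import Pool.Agent.H306R2.EP

set_option autoImplicit false

/-! Submultiplicativity of the generalised divisor functions and weighted sums. -/

namespace Pool.Agent.W181.Mom

open Finset Pool.Agent.H306R2

noncomputable section

lemma lc_submul {κ : ℝ} (hκ : 1 ≤ κ) (m n : ℕ) : lc κ (m + n) ≤ lc κ m * lc κ n := by
  induction n with
  | zero => simp [lc_zero]
  | succ n ih =>
    rw [← add_assoc, lc_succ, lc_succ]
    have h1 : (κ + (m + n : ℕ)) / (((m + n : ℕ) : ℝ) + 1) ≤ (κ + n) / ((n : ℝ) + 1) := by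
      rw [div_le_div_iff₀ (by positivity) (by positivity)]
      push_cast
      have : 0 ≤ (m : ℝ) * (κ - 1) := mul_nonneg (Nat.cast_nonneg m) (by linarith)
      nlinarith
    have h0 : 0 ≤ lc κ m * lc κ n := mul_nonneg (lc_nonneg (by linarith) _) (lc_nonneg (by linarith) _)
    calc lc κ (m + n) * ((κ + (m + n : ℕ)) / (((m + n : ℕ) : ℝ) + 1))
        ≤ (lc κ m * lc κ n) * ((κ + n) / ((n : ℝ) + 1)) :=
          mul_le_mul ih h1 (by positivity) h0
      _ = _ := by ring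

lemma lc_ge_one {κ : ℝ} (hκ : 1 ≤ κ) (m : ℕ) : 1 ≤ lc κ m := by
  have := lc_mono (by norm_num : (0:ℝ) ≤ 1) hκ m
  rwa [lc_one_left] at this

lemma dv_eq {κ : ℝ} {n : ℕ} (hn : n ≠ 0) : dv κ n = ∏ p ∈ n.primeFactors, lc κ (n.factorization p) := by
  unfold dv
  rw [if_neg hn]
  rfl

lemma dv_eq_of_sub {κ : ℝ} {n : ℕ} (hn : n ≠ 0) {S : Finset ℕ} (hS : n.primeFactors ⊆ S) :
    dv κ n = ∏ p ∈ S, lc κ (n.factorization p) := by
  rw [dv_eq hn]
  refine prod_subset hS fun p _ hp => ?_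
  have : n.factorization p = 0 := by
    rwa [← Finsupp.notMem_support_iff]
  rw [this, lc_zero]

lemma dv_submul {κ : ℝ} (hκ : 1 ≤ κ) (a b : ℕ) : dv κ (a * b) ≤ dv κ a * dv κ b := by
  have h0 : 0 ≤ κ := by linarith
  rcases Nat.eq_zero_or_pos a with ha | ha
  · subst ha; simp [dv]
  rcases Nat.eq_zero_or_pos b with hb | hb
  · subst hb; simp [dv]
  have hab : a * b ≠ 0 := by positivity
  rw [dv_eq hab, dv_eq_of_sub ha.ne' (S := (a * b).primeFactors)
      (Nat.primeFactors_mono (dvd_mul_right a b) hab),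
    dv_eq_of_sub hb.ne' (S := (a * b).primeFactors)
      (Nat.primeFactors_mono (dvd_mul_left b a) hab), ← prod_mul_distrib]
  refine prod_le_prod (fun p _ => lc_nonneg h0 _) fun p _ => ?_
  rw [Nat.factorization_mul ha.ne' hb.ne', Finsupp.add_apply]
  exact lc_submul hκ _ _

/-- `d_f / f` is monotone in `f` -/
lemma lc_ratio {f F : ℝ} (hf : 0 ≤ f) (hF : f ≤ F) {m : ℕ} (hm : m ≠ 0) :
    F * lc f m ≤ f * lc F m := by
  obtain ⟨k, rfl⟩ := Nat.exists_eq_succ_of_ne_zero hm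
  clear hm
  induction k with
  | zero => rw [lc_one, lc_one]; linarith [mul_comm f F]
  | succ k ih =>
    rw [lc_succ f, lc_succ F]
    have h1 : (f + (k.succ : ℕ)) / (((k.succ : ℕ) : ℝ) + 1) ≤ (F + (k.succ : ℕ)) / (((k.succ : ℕ) : ℝ) + 1) := by
      gcongr
    calc F * (lc f (k.succ) * ((f + (k.succ : ℕ)) / (((k.succ : ℕ) : ℝ) + 1)))
        = (F * lc f k.succ) * ((f + (k.succ : ℕ)) / (((k.succ : ℕ) : ℝ) + 1)) := by ring
      _ ≤ (f * lc F k.succ) * ((F + (k.succ : ℕ)) / (((k.succ : ℕ) : ℝ) + 1)) := by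
          have h2 := lc_nonneg (hf.trans hF) k.succ
          exact mul_le_mul ih h1 (by positivity) (by positivity)
      _ = _ := by ring

lemma dv_ratio {f F : ℝ} (hf : 0 ≤ f) (hF : f ≤ F) {n : ℕ} (hn : 2 ≤ n) :
    F * dv f n ≤ f * dv F n := by
  have hn0 : n ≠ 0 := by omega
  rw [dv_eq hn0, dv_eq hn0]
  have hne : n.primeFactors.Nonempty := Nat.nonempty_primeFactors.mpr (by omega)
  obtain ⟨p, hp⟩ := hne
  rw [← mul_prod_erase _ _ hp, ← mul_prod_erase _ _ hp]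
  have hm : n.factorization p ≠ 0 := by
    rwa [← Finsupp.mem_support_iff]
  have h1 := lc_ratio hf hF hm
  have h2 : ∏ x ∈ n.primeFactors.erase p, lc f (n.factorization x) ≤
      ∏ x ∈ n.primeFactors.erase p, lc F (n.factorization x) :=
    prod_le_prod (fun x _ => lc_nonneg hf _) fun x _ => lc_mono hf hF _
  have h3 : 0 ≤ ∏ x ∈ n.primeFactors.erase p, lc f (n.factorization x) :=
    prod_nonneg fun x _ => lc_nonneg hf _
  calc F * (lc f (n.factorization p) * ∏ x ∈ n.primeFactors.erase p, lc f (n.factorization x))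
      = (F * lc f (n.factorization p)) * ∏ x ∈ n.primeFactors.erase p, lc f (n.factorization x) := by
        ring
    _ ≤ (f * lc F (n.factorization p)) * ∏ x ∈ n.primeFactors.erase p, lc F (n.factorization x) := by
        have h4 := lc_nonneg (hf.trans hF) (n.factorization p)
        exact mul_le_mul h1 h2 h3 (by positivity)
    _ = _ := by ring

/-- the weighted sum `Σ_{m ≤ Y} F(m) d_κ(m) / m` -/
def Ph (κ Y : ℝ) (F : ArithmeticFunction ℝ) : ℝ := ∑ m ∈ Icc 1 ⌊Y⌋₊, F m * dA κ m / m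

lemma Ph_mono {κ Y : ℝ} (hκ : 0 ≤ κ) {F G : ArithmeticFunction ℝ} (h : ∀ n, F n ≤ G n) :
    Ph κ Y F ≤ Ph κ Y G := by
  unfold Ph
  refine sum_le_sum fun m _ => ?_
  have h1 := h m
  have h2 : 0 ≤ dA κ m := dv_nonneg hκ m
  gcongr

lemma Ph_nonneg {κ Y : ℝ} (hκ : 0 ≤ κ) {F : ArithmeticFunction ℝ} (h : ∀ n, 0 ≤ F n) :
    0 ≤ Ph κ Y F := by
  unfold Ph
  refine sum_nonneg fun m _ => ?_
  have h2 : 0 ≤ dA κ m := dv_nonneg hκ m
  have := h m
  positivity

lemma Ph_add (κ Y : ℝ) (F G : ArithmeticFunction ℝ) : Ph κ Y (F + G) = Ph κ Y F + Ph κ Y G := by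
  unfold Ph
  rw [← sum_add_distrib]
  refine sum_congr rfl fun m _ => ?_
  rw [ArithmeticFunction.add_apply]
  ring

lemma Ph_sum {ι : Type*} (κ Y : ℝ) (S : Finset ι) (F : ι → ArithmeticFunction ℝ) :
    Ph κ Y (∑ i ∈ S, F i) = ∑ i ∈ S, Ph κ Y (F i) := by
  classical
  induction S using Finset.induction_on with
  | empty => unfold Ph; simp
  | insert a S ha ih => rw [sum_insert ha, sum_insert ha, Ph_add, ih]

lemma Ph_mul_le {κ Y : ℝ} (hκ : 1 ≤ κ) {F G : ArithmeticFunction ℝ} (hF : ∀ n, 0 ≤ F n)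
    (hG : ∀ n, 0 ≤ G n) : Ph κ Y (F * G) ≤ Ph κ Y F * Ph κ Y G := by
  have hκ0 : 0 ≤ κ := by linarith
  unfold Ph
  rw [sum_mul_sum, ← sum_product']
  have h1 : ∀ m ∈ Icc 1 ⌊Y⌋₊, (F * G) m * dA κ m / m ≤
      ∑ x ∈ m.divisorsAntidiagonal, (F x.1 * dA κ x.1 / x.1) * (G x.2 * dA κ x.2 / x.2) := by
    intro m hm
    rw [mem_Icc] at hm
    rw [ArithmeticFunction.mul_apply, sum_mul, sum_div]
    refine sum_le_sum fun x hx => ?_
    rw [Nat.mem_divisorsAntidiagonal] at hx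
    obtain ⟨hx1, -⟩ := hx
    have ha : x.1 ≠ 0 := by rintro h; rw [h, zero_mul] at hx1; omega
    have hb : x.2 ≠ 0 := by rintro h; rw [h, mul_zero] at hx1; omega
    have h2 := dv_submul hκ x.1 x.2
    rw [← hx1, dA_apply, dA_apply, dA_apply]
    have h3 : (0:ℝ) < x.1 := by exact_mod_cast Nat.pos_of_ne_zero ha
    have h4 : (0:ℝ) < x.2 := by exact_mod_cast Nat.pos_of_ne_zero hb
    have h5 := hF x.1
    have h6 := hG x.2
    calc F x.1 * G x.2 * dv κ (x.1 * x.2) / ((x.1 * x.2 : ℕ) : ℝ)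
        ≤ F x.1 * G x.2 * (dv κ x.1 * dv κ x.2) / ((x.1 * x.2 : ℕ) : ℝ) := by gcongr
      _ = F x.1 * dv κ x.1 / x.1 * (G x.2 * dv κ x.2 / x.2) := by
          push_cast
          field_simp
  refine (sum_le_sum h1).trans ?_
  rw [sum_sigma' (Icc 1 ⌊Y⌋₊) (fun m => m.divisorsAntidiagonal)
    (fun m x => (F x.1 * dA κ x.1 / x.1) * (G x.2 * dA κ x.2 / x.2))]
  have hinj : Set.InjOn (fun y : (Σ _ : ℕ, ℕ × ℕ) => y.2)
      ((Icc 1 ⌊Y⌋₊).sigma fun m => m.divisorsAntidiagonal) := by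
    rintro ⟨m, x⟩ hx ⟨m', x'⟩ hx' h
    simp only [Finset.coe_sigma, Set.mem_sigma_iff, mem_coe, Nat.mem_divisorsAntidiagonal] at hx hx'
    simp only at h
    subst h
    have : m = m' := by rw [← hx.2.1, ← hx'.2.1]
    subst this
    rfl
  rw [← sum_image (f := fun x : ℕ × ℕ => (F x.1 * dA κ x.1 / x.1) * (G x.2 * dA κ x.2 / x.2)) hinj]
  refine sum_le_sum_of_subset_of_nonneg ?_ fun x _ _ => ?_
  · intro x hx
    rw [mem_image] at hx
    obtain ⟨⟨m, y⟩, hy, rfl⟩ := hx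
    rw [mem_sigma, Nat.mem_divisorsAntidiagonal, mem_Icc] at hy
    simp only at hy ⊢
    obtain ⟨⟨h1, h2⟩, h3, -⟩ := hy
    have ha : y.1 ≠ 0 := by rintro h; rw [h, zero_mul] at h3; omega
    have hb : y.2 ≠ 0 := by rintro h; rw [h, mul_zero] at h3; omega
    rw [mem_product, mem_Icc, mem_Icc]
    have h5 : y.1 ≤ m := by rw [← h3]; exact Nat.le_mul_of_pos_right _ (Nat.pos_of_ne_zero hb)
    have h6 : y.2 ≤ m := by rw [← h3]; exact Nat.le_mul_of_pos_left _ (Nat.pos_of_ne_zero ha)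
    omega
  · have h5 := hF x.1
    have h6 := hG x.2
    have h7 : 0 ≤ dA κ x.1 := dv_nonneg hκ0 _
    have h8 : 0 ≤ dA κ x.2 := dv_nonneg hκ0 _
    positivity

end

end Pool.Agent.W181.Mom
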