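import Pool.Agent.W181.Mom.Rat
import Pool.Agent.H306R2.KW

set_option autoImplicit false

/-! Upper bounds for weighted sums, uniformly in the exponent. -/

namespace Pool.Agent.W181.Mom

open Finset Filter Topology Pool.Agent.H306R2

noncomputable section

/-- the part of `d_f` beyond `Z` -/
def tc (f Z : ℝ) : ArithmeticFunction ℝ := ⟨fun n => if (n:ℝ) ≤ Z then 0 else dv f n, by simp [dv]⟩

lemma tc_apply (f Z : ℝ) (n : ℕ) : tc f Z n = if (n:ℝ) ≤ Z then 0 else dv f n := rfl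

lemma tc_nonneg {f : ℝ} (hf : 0 ≤ f) (Z : ℝ) (n : ℕ) : 0 ≤ tc f Z n := by
  rw [tc_apply]; split_ifs
  · exact le_refl _
  · exact dv_nonneg hf n

lemma tr_add_tc (f Z : ℝ) : tr (dA f) Z + tc f Z = dA f := by
  ext n
  rw [ArithmeticFunction.add_apply, tr_apply, tc_apply]
  split_ifs <;> simp [dA_apply]

lemma tc_anti {f : ℝ} (hf : 0 ≤ f) {Z Z' : ℝ} (h : Z ≤ Z') (n : ℕ) : tc f Z' n ≤ tc f Z n := by
  rw [tc_apply, tc_apply]
  split_ifs with h1 h2 h2
  · exact le_refl _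
  · exact dv_nonneg hf n
  · exact absurd (h2.trans h) h1
  · exact le_refl _

lemma DD_anti {κ f σ : ℝ} (hf : 0 ≤ f) (hfκ : f ≤ κ) (hσ : 0 < σ) : DD κ f (2 * σ) ≤ DD κ f σ := by
  refine Summable.tsum_le_tsum (fun n => ?_) (hh_summable hf hfκ (by linarith))
    (hh_summable hf hfκ hσ)
  rcases Nat.eq_zero_or_pos n with hn | hn
  · subst hn; rw [hh_zero, hh_zero]
  · unfold hh
    have h1 := dv_nonneg hf n
    have h2 := dv_nonneg (hf.trans hfκ) n
    have h3 : (n:ℝ) ^ (-1 - 2 * σ) ≤ (n:ℝ) ^ (-1 - σ) :=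
      Real.rpow_le_rpow_of_exponent_le (by exact_mod_cast hn) (by linarith)
    gcongr

/-- general upper bound -/
lemma Ph_dA_le {κ : ℝ} (hκ : 0 < κ) : ∃ C : ℝ, 1 ≤ C ∧ ∀ α Y : ℝ, 0 ≤ α → α ≤ κ → 0 < Y →
    1 ≤ Real.log Y → Ph κ Y (dA α) ≤ C * Real.log Y ^ (κ * α) := by
  obtain ⟨C, hC, h⟩ := DD_le hκ
  refine ⟨3 * C, by linarith, ?_⟩
  intro α Y hα hακ hY0 hY
  have hσ : 0 < 1 / Real.log Y := by positivity
  have hσ1 : 1 / Real.log Y ≤ 1 := by
    rw [div_le_one (by linarith)]; exact hY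
  have h1 := h α (1 / Real.log Y) hα hακ hσ hσ1
  rw [one_div_one_div] at h1
  have h2 : Ph κ Y (dA α) ≤ 3 * DD κ α (1 / Real.log Y) := by
    unfold Ph
    have h3 := (hh_summable hα hακ hσ).sum_le_tsum (Icc 1 ⌊Y⌋₊) (fun n _ => hh_nonneg hα hακ _ n)
    refine le_trans ?_ (mul_le_mul_of_nonneg_left h3 (by norm_num))
    rw [mul_sum]
    refine sum_le_sum fun m hm => ?_
    rw [mem_Icc] at hm
    have hm0 : (0:ℝ) < m := by exact_mod_cast hm.1
    have hmY : (m:ℝ) ≤ Y := (Nat.le_floor_iff' (by omega)).mp hm.2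
    have h4 : 1 ≤ 3 * (m:ℝ) ^ (-(1 / Real.log Y)) := by
      have h5 : Real.log m ≤ Real.log Y := Real.log_le_log hm0 hmY
      rw [Real.rpow_def_of_pos hm0]
      have h6 : -1 ≤ Real.log m * (-(1 / Real.log Y)) := by
        have : Real.log m * (-(1 / Real.log Y)) = -(Real.log m / Real.log Y) := by ring
        rw [this, neg_le_neg_iff, div_le_one (by linarith)]
        exact h5
      have h7 := Real.exp_le_exp.mpr h6
      have h8 : (1:ℝ) / 3 ≤ Real.exp (-1) := by
        rw [Real.exp_neg, one_div]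
        exact inv_anti₀ (Real.exp_pos 1) (by linarith [Real.exp_one_lt_d9])
      linarith
    unfold hh
    rw [dA_apply, dA_apply]
    have h9 := dv_nonneg hα m
    have h10 := dv_nonneg hκ.le m
    have h11 : 0 ≤ dv α m * dv κ m / m := by positivity
    calc dv α m * dv κ m / m ≤ dv α m * dv κ m / m * (3 * (m:ℝ) ^ (-(1 / Real.log Y))) :=
          le_mul_of_one_le_right h11 h4
      _ = 3 * (dv α m * dv κ m * (m:ℝ) ^ (-1 - 1 / Real.log Y)) := by
          rw [show (-1 - 1 / Real.log Y : ℝ) = -(1 / Real.log Y) - 1 by ring, Real.rpow_sub hm0,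
            Real.rpow_one]
          ring
  calc Ph κ Y (dA α) ≤ 3 * DD κ α (1 / Real.log Y) := h2
    _ ≤ 3 * (C * Real.log Y ^ (κ * α)) := by gcongr
    _ = _ := by ring

/-- small exponents -/
lemma Ph_dA_small {κ : ℝ} (hκ : 1 ≤ κ) : ∃ C : ℝ, 0 < C ∧ ∀ f Y : ℝ, 0 ≤ f → 0 < Y →
    1 ≤ Real.log Y → 1 ≤ Real.log (Real.log Y) → f * Real.log (Real.log Y) ≤ 1 →
    Ph κ Y (dA f) ≤ 1 + C * (f * Real.log (Real.log Y)) := by
  obtain ⟨C, hC, h⟩ := Ph_dA_le (by linarith : 0 < κ)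
  refine ⟨C * Real.exp κ, by positivity, ?_⟩
  intro f Y hf hY0 hY hLL hfL
  set L := Real.log (Real.log Y) with hL
  have hL0 : 0 < L := by linarith
  have hκ0 : 0 ≤ κ := by linarith
  have hF : f ≤ 1 / L := by rw [le_div_iff₀ hL0]; exact hfL
  have hFκ : 1 / L ≤ κ := by
    rw [div_le_iff₀ hL0]; nlinarith
  have h1 := h (1 / L) Y (by positivity) hFκ hY0 hY
  have e1 : Real.log Y ^ (κ * (1 / L)) = Real.exp κ := by
    rw [Real.rpow_def_of_pos (by linarith), ← hL]
    congr 1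
    field_simp
  rw [e1] at h1
  have h2 : Ph κ Y (dA f) ≤ 1 + f * L * Ph κ Y (dA (1 / L)) := by
    unfold Ph
    rw [mul_sum]
    have h3 : ∀ m ∈ Icc 1 ⌊Y⌋₊, dA f m * dA κ m / m ≤
        (if m = 1 then 1 else 0) + f * L * (dA (1 / L) m * dA κ m / m) := by
      intro m hm
      rw [mem_Icc] at hm
      have h10 : 0 ≤ dv κ m := dv_nonneg hκ0 m
      have h11 : 0 ≤ dv (1 / L) m := dv_nonneg (by positivity) m
      rw [dA_apply, dA_apply, dA_apply]
      by_cases h1 : m = 1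
      · subst h1
        rw [if_pos rfl, dv_one, dv_one, dv_one]
        have : 0 ≤ f * L := by positivity
        norm_num
        exact this
      · rw [if_neg h1, zero_add]
        have h4 := dv_ratio hf hF (show 2 ≤ m by omega)
        have h5 : dv f m ≤ f * L * dv (1 / L) m := by
          rw [div_mul_eq_mul_div, one_mul, div_le_iff₀ hL0] at h4
          linarith
        calc dv f m * dv κ m / m ≤ (f * L * dv (1 / L) m) * dv κ m / m := by gcongr
          _ = _ := by ring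
    refine (sum_le_sum h3).trans ?_
    rw [sum_add_distrib]
    have h4 : ∑ m ∈ Icc 1 ⌊Y⌋₊, (if m = 1 then (1:ℝ) else 0) ≤ 1 := by
      rw [sum_ite_eq']
      split_ifs <;> norm_num
    linarith
  have h3 : f * L * Ph κ Y (dA (1 / L)) ≤ f * L * (C * Real.exp κ) := by
    have : 0 ≤ f * L := by positivity
    gcongr
  linarith

/-- one dyadic block -/
lemma block {κ : ℝ} (hκ : 0 < κ) : ∃ C : ℝ, 0 < C ∧ ∀ f U : ℝ, 0 ≤ f → f ≤ κ → 0 < U →
    1 ≤ Real.log U → Ph κ U (tc f (U ^ (1 / 2 : ℝ))) ≤ C * f * Real.log U ^ (κ * f) := by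
  obtain ⟨C, hC, h⟩ := DD_le hκ
  obtain ⟨D, hD, h'⟩ := DD_ratio hκ
  refine ⟨9 / 2 * (D * Real.exp (D * κ)) * C, by positivity, ?_⟩
  intro f U hf hfκ hU0 hU
  set σ := 1 / Real.log U with hσd
  have hσ : 0 < σ := by positivity
  have hσ1 : σ ≤ 1 := by
    rw [hσd, div_le_one (by linarith)]; exact hU
  have h1 := h f σ hf hfκ hσ hσ1
  have h2 := h' f σ hf hfκ hσ hσ1
  have e1 : 1 / σ = Real.log U := by rw [hσd, one_div_one_div]
  rw [e1] at h1
  have h3 := DD_anti hf hfκ hσ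
  have hs1 := hh_summable hf hfκ hσ
  have hs2 := hh_summable (σ := 2 * σ) hf hfκ (by linarith)
  have h4 : Ph κ U (tc f (U ^ (1 / 2 : ℝ))) ≤ 9 / 2 * (DD κ f σ - DD κ f (2 * σ)) := by
    unfold Ph DD
    rw [← hs1.tsum_sub hs2]
    have hnn : ∀ n : ℕ, 0 ≤ hh κ f σ n - hh κ f (2 * σ) n := by
      intro n
      rcases Nat.eq_zero_or_pos n with hn | hn
      · subst hn; rw [hh_zero, hh_zero]; simp
      · unfold hh
        have h1 := dv_nonneg hf n
        have h2 := dv_nonneg (hf.trans hfκ) n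
        have h3 : (n:ℝ) ^ (-1 - 2 * σ) ≤ (n:ℝ) ^ (-1 - σ) :=
          Real.rpow_le_rpow_of_exponent_le (by exact_mod_cast hn) (by linarith)
        have h4 : dv f n * dv κ n * (n:ℝ) ^ (-1 - 2 * σ) ≤ dv f n * dv κ n * (n:ℝ) ^ (-1 - σ) := by
          gcongr
        linarith
    have h5 := (hs1.sub hs2).sum_le_tsum (Icc 1 ⌊U⌋₊) (fun n _ => hnn n)
    refine le_trans ?_ (mul_le_mul_of_nonneg_left h5 (by norm_num))
    rw [mul_sum]
    refine sum_le_sum fun m hm => ?_
    rw [mem_Icc] at hm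
    have hm0 : (0:ℝ) < m := by exact_mod_cast hm.1
    have hmU : (m:ℝ) ≤ U := (Nat.le_floor_iff' (by omega)).mp hm.2
    rw [tc_apply]
    split_ifs with hmz
    · rw [zero_mul, zero_div]
      exact mul_nonneg (by norm_num) (hnn m)
    · push Not at hmz
      set x := (m:ℝ) ^ (-σ) with hx
      have hlm : Real.log m ≤ Real.log U := Real.log_le_log hm0 hmU
      have hlm2 : 1 / 2 * Real.log U ≤ Real.log m := by
        rw [← Real.log_rpow hU0]
        exact Real.log_le_log (by positivity) hmz.le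
      have hx1 : 1 / 3 ≤ x := by
        rw [hx, Real.rpow_def_of_pos hm0]
        have h6 : -1 ≤ Real.log m * (-σ) := by
          have : Real.log m * (-σ) = -(Real.log m / Real.log U) := by rw [hσd]; ring
          rw [this, neg_le_neg_iff, div_le_one (by linarith)]
          exact hlm
        have h7 := Real.exp_le_exp.mpr h6
        have h8 : (1:ℝ) / 3 ≤ Real.exp (-1) := by
          rw [Real.exp_neg, one_div]
          exact inv_anti₀ (Real.exp_pos 1) (by linarith [Real.exp_one_lt_d9])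
        linarith
      have hx2 : x ≤ 2 / 3 := by
        rw [hx, Real.rpow_def_of_pos hm0]
        have h6 : Real.log m * (-σ) ≤ -(1 / 2) := by
          have : Real.log m * (-σ) = -(Real.log m / Real.log U) := by rw [hσd]; ring
          rw [this, neg_le_neg_iff, le_div_iff₀ (by linarith)]
          exact hlm2
        have h7 := Real.exp_le_exp.mpr h6
        have h8 : Real.exp (-(1 / 2)) ≤ 2 / 3 := by
          rw [Real.exp_neg]
          have := Real.add_one_le_exp (1 / 2 : ℝ)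
          calc (Real.exp (1 / 2))⁻¹ ≤ (3 / 2 : ℝ)⁻¹ := inv_anti₀ (by norm_num) (by linarith)
            _ = 2 / 3 := by norm_num
        linarith
      have hx3 : 1 ≤ 9 / 2 * (x - x ^ 2) := by nlinarith
      have e2 : (m:ℝ) ^ (-1 - σ) = x / m := by
        rw [show (-1 - σ : ℝ) = -σ - 1 by ring, Real.rpow_sub hm0, Real.rpow_one]
      have e3 : (m:ℝ) ^ (-1 - 2 * σ) = x ^ 2 / m := by
        rw [show (-1 - 2 * σ : ℝ) = -σ + -σ - 1 by ring, Real.rpow_sub hm0, Real.rpow_one,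
          Real.rpow_add hm0]
        ring
      unfold hh
      rw [e2, e3, dA_apply]
      have h9 := dv_nonneg hf m
      have h10 := dv_nonneg hκ.le m
      have h11 : 0 ≤ dv f m * dv κ m / m := by positivity
      calc dv f m * dv κ m / m ≤ dv f m * dv κ m / m * (9 / 2 * (x - x ^ 2)) :=
            le_mul_of_one_le_right h11 hx3
        _ = _ := by ring
  have h5 : DD κ f σ - DD κ f (2 * σ) ≤ (D * Real.exp (D * κ)) * f * DD κ f σ := by
    have h6 : Real.exp (D * f) - 1 ≤ D * f * Real.exp (D * κ) := by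
      have h7 := Real.add_one_le_exp (-(D * f))
      have h8 : Real.exp (D * f) * Real.exp (-(D * f)) = 1 := by
        rw [← Real.exp_add]; simp
      have h9 : 0 < Real.exp (D * f) := Real.exp_pos _
      have h10 : Real.exp (D * f) ≤ Real.exp (D * κ) := by
        apply Real.exp_le_exp.mpr; gcongr
      have h11 : Real.exp (D * f) * (1 - D * f) ≤ 1 := by nlinarith
      have h12 : 0 ≤ D * f := by positivity
      nlinarith
    have h7 : 0 ≤ DD κ f (2 * σ) := by
      have := DD_one_le (σ := 2 * σ) hf hfκ (by linarith)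
      linarith
    have h8 : 0 ≤ D * f * Real.exp (D * κ) := by positivity
    calc DD κ f σ - DD κ f (2 * σ) ≤ (Real.exp (D * f) - 1) * DD κ f (2 * σ) := by linarith
      _ ≤ (D * f * Real.exp (D * κ)) * DD κ f (2 * σ) := by gcongr
      _ ≤ (D * f * Real.exp (D * κ)) * DD κ f σ := by gcongr
      _ = _ := by ring
  have h6 : (D * Real.exp (D * κ)) * f * DD κ f σ ≤
      (D * Real.exp (D * κ)) * f * (C * Real.log U ^ (κ * f)) := by gcongr
  calc Ph κ U (tc f (U ^ (1 / 2 : ℝ))) ≤ 9 / 2 * (DD κ f σ - DD κ f (2 * σ)) := h4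
    _ ≤ 9 / 2 * ((D * Real.exp (D * κ)) * f * (C * Real.log U ^ (κ * f))) := by linarith
    _ = _ := by ring

/-- several dyadic blocks -/
lemma blocks {κ : ℝ} (hκ : 0 < κ) : ∃ C : ℝ, 0 < C ∧ ∀ (K : ℕ) (f Y : ℝ), 0 ≤ f → f ≤ κ → 1 ≤ Y →
    1 ≤ (1 / 2 : ℝ) ^ K * Real.log Y →
    Ph κ Y (tc f (Y ^ ((1 / 2 : ℝ) ^ K))) ≤ K * (C * f * Real.log Y ^ (κ * f)) := by
  obtain ⟨C, hC, h⟩ := block hκ
  refine ⟨C, hC, ?_⟩
  intro K
  induction K with
  | zero =>
    intro f Y hf hfκ hY _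
    rw [pow_zero, Real.rpow_one, Nat.cast_zero, zero_mul]
    unfold Ph
    refine (sum_eq_zero fun m hm => ?_).le
    rw [mem_Icc] at hm
    rw [tc_apply, if_pos ((Nat.le_floor_iff' (by omega)).mp hm.2)]
    simp
  | succ K ih =>
    intro f Y hf hfκ hY hK
    have hY0 : 0 < Y := by linarith
    have hlY : 0 ≤ Real.log Y := Real.log_nonneg hY
    have hK' : 1 ≤ (1 / 2 : ℝ) ^ K * Real.log Y := by
      refine hK.trans ?_
      rw [pow_succ]
      have : 0 ≤ (1 / 2 : ℝ) ^ K * Real.log Y := by positivity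
      linarith
    have h1 := ih f Y hf hfκ hY hK'
    set U := Y ^ ((1 / 2 : ℝ) ^ K) with hU
    have hU0 : 0 < U := by positivity
    have hlU : Real.log U = (1 / 2 : ℝ) ^ K * Real.log Y := Real.log_rpow hY0 _
    have h2 := h f U hf hfκ hU0 (by rw [hlU]; exact hK')
    have e1 : U ^ (1 / 2 : ℝ) = Y ^ ((1 / 2 : ℝ) ^ (K + 1)) := by
      rw [hU, ← Real.rpow_mul hY0.le, pow_succ]
    rw [e1] at h2
    have hUY : U ≤ Y := by
      rw [hU]
      calc Y ^ ((1 / 2 : ℝ) ^ K) ≤ Y ^ (1:ℝ) :=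
            Real.rpow_le_rpow_of_exponent_le hY (pow_le_one₀ (by norm_num) (by norm_num))
        _ = Y := Real.rpow_one Y
    have h3 : Real.log U ^ (κ * f) ≤ Real.log Y ^ (κ * f) := by
      refine Real.rpow_le_rpow (by rw [hlU]; positivity) ?_ (by positivity)
      exact Real.log_le_log hU0 hUY
    have h4 : Ph κ Y (tc f (Y ^ ((1 / 2 : ℝ) ^ (K + 1)))) ≤
        Ph κ Y (tc f U) + Ph κ U (tc f (Y ^ ((1 / 2 : ℝ) ^ (K + 1)))) := by
      unfold Ph
      have h5 : ∀ m ∈ Icc 1 ⌊Y⌋₊, tc f (Y ^ ((1 / 2 : ℝ) ^ (K + 1))) m * dA κ m / m ≤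
          tc f U m * dA κ m / m + (if m ∈ Icc 1 ⌊U⌋₊ then
            tc f (Y ^ ((1 / 2 : ℝ) ^ (K + 1))) m * dA κ m / m else 0) := by
        intro m hm
        rw [mem_Icc] at hm
        have h9 : 0 ≤ dA κ m := dv_nonneg hκ.le m
        by_cases hmU : (m:ℝ) ≤ U
        · have h6 : m ∈ Icc 1 ⌊U⌋₊ := by
            rw [mem_Icc]; exact ⟨hm.1, Nat.le_floor hmU⟩
          rw [if_pos h6]
          have := tc_nonneg hf U m
          have : 0 ≤ tc f U m * dA κ m / m := by positivity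
          linarith
        · have h6 : m ∉ Icc 1 ⌊U⌋₊ := by
            rw [mem_Icc, not_and]
            intro _ h7
            exact hmU ((Nat.le_floor_iff' (by omega)).mp h7)
          rw [if_neg h6, add_zero]
          have h8 : tc f (Y ^ ((1 / 2 : ℝ) ^ (K + 1))) m ≤ tc f U m := by
            rw [tc_apply, tc_apply, if_neg hmU]
            split_ifs
            · exact dv_nonneg hf m
            · exact le_refl _
          gcongr
      refine (sum_le_sum h5).trans ?_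
      rw [sum_add_distrib]
      refine add_le_add_right (le_of_eq ?_) _
      rw [sum_ite_mem]
      refine sum_congr ?_ fun _ _ => rfl
      rw [inter_eq_right]
      exact Icc_subset_Icc le_rfl (Nat.floor_mono hUY)
    have h5 : C * f * Real.log U ^ (κ * f) ≤ C * f * Real.log Y ^ (κ * f) := by
      have : 0 ≤ C * f := by positivity
      gcongr
    push_cast
    linarith

lemma clog_bound {e : ℕ} (he : 2 ≤ e) : (Nat.clog 2 e : ℝ) ≤ 3 * Real.sqrt e := by
  have key : ∀ K : ℕ, ((K + 1 : ℕ) : ℝ) ^ 2 ≤ 9 * 2 ^ K := by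
    intro K
    induction K with
    | zero => norm_num
    | succ K ih =>
      rcases Nat.lt_or_ge K 2 with h | h
      · interval_cases K <;> norm_num
      · have hK : (2:ℝ) ≤ K := by exact_mod_cast h
        push_cast at ih ⊢
        have e1 : (2:ℝ) ^ (K + 1) = 2 * 2 ^ K := by ring
        rw [e1]
        nlinarith
  obtain ⟨K, hK⟩ : ∃ K, Nat.clog 2 e = K + 1 := by
    refine Nat.exists_eq_succ_of_ne_zero ?_
    have := Nat.clog_pos (b := 2) (by norm_num) he
    omega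
  have h1 : 2 ^ K < e := by
    have := Nat.pow_pred_clog_lt_self (b := 2) (by norm_num) (x := e) (by omega)
    rw [hK] at this
    simpa using this
  rw [hK]
  have h2 : (2:ℝ) ^ K ≤ e := by exact_mod_cast h1.le
  have h3 := key K
  have h4 : ((K + 1 : ℕ) : ℝ) ≤ Real.sqrt (9 * e) := by
    apply Real.le_sqrt_of_sq_le
    linarith
  rw [Real.sqrt_mul (by norm_num), show (9:ℝ) = 3 ^ 2 by norm_num, Real.sqrt_sq (by norm_num)] at h4
  exact h4

/-- the truncation error at `Y^{1/e}` -/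
lemma tail_e {κ : ℝ} (hκ : 0 < κ) : ∃ C : ℝ, 0 < C ∧ ∀ (e : ℕ) (f Y : ℝ), 2 ≤ e → 0 ≤ f → f ≤ κ →
    1 ≤ Y → 2 * (e:ℝ) ≤ Real.log Y →
    Ph κ Y (tc f (Y ^ (1 / (e:ℝ)))) ≤ C * Real.sqrt e * f * Real.log Y ^ (κ * f) := by
  obtain ⟨C, hC, h⟩ := blocks hκ
  refine ⟨3 * C, by positivity, ?_⟩
  intro e f Y he hf hfκ hY hlY
  have he0 : (0:ℝ) < e := by exact_mod_cast (by omega : 0 < e)
  set K := Nat.clog 2 e with hK
  have h1 : e ≤ 2 ^ K := Nat.le_pow_clog (by norm_num) e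
  have h1' : (e:ℝ) ≤ 2 ^ K := by exact_mod_cast h1
  have h2 : (2:ℝ) ^ K ≤ 2 * e := by
    obtain ⟨K', hK'⟩ : ∃ K', K = K' + 1 := by
      refine Nat.exists_eq_succ_of_ne_zero ?_
      have := Nat.clog_pos (b := 2) (by norm_num) he
      omega
    have h3 : 2 ^ K' < e := by
      have := Nat.pow_pred_clog_lt_self (b := 2) (by norm_num) (x := e) (by omega)
      rw [← hK, hK'] at this
      simpa using this
    rw [hK', pow_succ]
    have : (2:ℝ) ^ K' ≤ e := by exact_mod_cast h3.le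
    linarith
  have h3 : (1 / 2 : ℝ) ^ K ≤ 1 / e := by
    rw [one_div, inv_pow, one_div]
    exact inv_anti₀ he0 h1'
  have h4 : 1 ≤ (1 / 2 : ℝ) ^ K * Real.log Y := by
    rw [one_div, inv_pow, inv_mul_eq_div, le_div_iff₀ (by positivity)]
    linarith
  have h5 := h K f Y hf hfκ hY h4
  have h6 : Ph κ Y (tc f (Y ^ (1 / (e:ℝ)))) ≤ Ph κ Y (tc f (Y ^ ((1 / 2 : ℝ) ^ K))) :=
    Ph_mono hκ.le (tc_anti hf (Real.rpow_le_rpow_of_exponent_le hY h3))
  have h7 := clog_bound he
  rw [← hK] at h7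
  have h8 : 0 ≤ C * f * Real.log Y ^ (κ * f) := by
    have : 0 ≤ Real.log Y := Real.log_nonneg hY
    positivity
  calc Ph κ Y (tc f (Y ^ (1 / (e:ℝ)))) ≤ K * (C * f * Real.log Y ^ (κ * f)) := h6.trans h5
    _ ≤ (3 * Real.sqrt e) * (C * f * Real.log Y ^ (κ * f)) := by gcongr
    _ = _ := by ring

end

end Pool.Agent.W181.Mom
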