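import Pool.Agent.W181.Mom.NT
import Pool.Agent.H295R2.LM.NW

set_option autoImplicit false

/-! The window estimates with the greedy tail. -/

namespace Pool.Agent.W181.Mom

open Finset Filter Topology MeasureTheory Pool.Agent.H306R2

noncomputable section

/-- the constant of the numerator -/
def Nf (κ : ℝ) (j : ℕ) {n : ℕ} (e β : Fin n → ℝ) : ℝ :=
  aF κ * ((∏ i : Fin n, (β i) ^ (κ * e i) / Real.Gamma (κ * e i + 1)) *
      ((1 - ∑ i : Fin n, β i * (κ * e i / (κ * e i + 1))) ^ (κ * j) / Real.Gamma (κ * j + 1)))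

/-- the arithmetic lower bound -/
theorem Ph_GT {κ : ℝ} (hκ : 1 ≤ κ) : ∃ C : ℝ, 0 < C ∧ ∀ (n : ℕ) (j : ℕ), 1 ≤ j →
    ∀ (e : Fin n → ℝ), (∀ i, 0 < e i) → ∀ ρ : ℝ, 0 < ρ → ρ ≤ 1 / 4 → κ = j + ∑ i, e i + κ * ρ →
    ∀ (β : Fin n → ℝ), (∀ i, 0 < β i) → ∀ b : ℝ, 0 < b → ∑ i, β i + b ≤ 1 → 1 ≤ κ * j →
    ∀ c : ℝ, 0 < c → c < Nf κ j (Fin.cons (κ * ρ) e : Fin (n + 1) → ℝ) (Fin.cons b β) →
    ∀ η : ℝ, η < 1 / 2 → ∃ ε : ℝ, 0 < ε ∧ ∀ᶠ T : ℝ in atTop, ∀ m : ℕ,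
      gR ρ m ≤ ε / Real.log (Real.log (Yt η T)) →
      (∀ i < m, ε / Real.log (Real.log (Yt η T)) < gR ρ i) →
      (c - C * Real.sqrt ρ) * Real.log (Yt η T) ^ (κ ^ 2) ≤
        Ph κ (Yt η T) (zR ^ j * PA e (fun i => Yt η T ^ β i) * GT κ ρ m (Yt η T)) := by
  obtain ⟨C, hC, hT⟩ := tail_loss hκ
  have hκ0 : 0 < κ := by linarith
  refine ⟨C, hC, ?_⟩
  intro n j hj e he ρ hρ hρ1 hκs β hβ b hb hβs hm0 c hc0 hc η hη2
  obtain ⟨c', hcc', hc'⟩ := exists_between hc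
  have hc'0 : 0 < c' := hc0.trans hcc'
  set ε := min ((c' / c - 1) / C) (1 / C) with hε
  have hr : 1 < c' / c := by rw [one_lt_div hc0]; exact hcc'
  have hε0 : 0 < ε := by
    rw [hε]
    apply lt_min
    · apply div_pos _ hC; linarith
    · positivity
  have hε1 : C * ε ≤ 1 := by
    have : ε ≤ 1 / C := min_le_right _ _
    rw [le_div_iff₀ hC] at this
    linarith
  have hε2 : 1 + C * ε ≤ c' / c := by
    have : ε ≤ (c' / c - 1) / C := min_le_left _ _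
    rw [le_div_iff₀ hC] at this
    linarith
  refine ⟨ε, hε0, ?_⟩
  have hκρ : 0 < κ * ρ := by positivity
  have hN := N_sum j hj (Fin.cons (κ * ρ) e : Fin (n + 1) → ℝ)
    (fun i => by
      refine Fin.cases ?_ (fun i => ?_) i
      · rw [Fin.cons_zero]; exact hκρ
      · rw [Fin.cons_succ]; exact he i) κ
    (by
      rw [Fin.sum_univ_succ]
      simp only [Fin.cons_zero, Fin.cons_succ]
      linarith)
    (Fin.cons b β)
    (fun i => by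
      refine Fin.cases ?_ (fun i => ?_) i
      · rw [Fin.cons_zero]; exact hb
      · rw [Fin.cons_succ]; exact hβ i)
    (by
      rw [Fin.sum_univ_succ]
      simp only [Fin.cons_zero, Fin.cons_succ]
      linarith) hm0 c' hc' η hη2
  have hlog := Yt_tendsto hη2
  have hloglog : Tendsto (fun T => Real.log (Real.log (Yt η T))) atTop atTop :=
    Real.tendsto_log_atTop.comp hlog
  have hbig : ∀ᶠ T : ℝ in atTop, 2 * (Real.log (Real.log (Yt η T)) / ε + 1) ≤ Real.log (Yt η T) := by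
    have h1 : ∀ᶠ x : ℝ in atTop, 2 * (Real.log x / ε + 1) ≤ x := by
      have h2 := (Real.isLittleO_log_id_atTop).def (show 0 < ε / 4 by positivity)
      filter_upwards [h2, eventually_ge_atTop 4, eventually_ge_atTop 1] with x hx hx4 hx1
      simp only [id] at hx
      rw [Real.norm_of_nonneg (Real.log_nonneg hx1), Real.norm_of_nonneg (by linarith)] at hx
      have h3 : Real.log x / ε ≤ x / 4 := by
        rw [div_le_iff₀ hε0]; linarith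
      linarith
    exact hlog.eventually h1
  filter_upwards [hN, hbig, hloglog.eventually_ge_atTop 1, hlog.eventually_ge_atTop 1,
    eventually_ge_atTop 1] with T hT1 hT2 hT3 hT4 hT5 m hm hmi
  set Y := Yt η T with hYd
  have hY1 : 1 ≤ Y := one_le_Yt hη2 hT5
  set W : ArithmeticFunction ℝ := zR ^ j * PA e (fun i => Y ^ β i) with hW
  have hz0 : ∀ n, 0 ≤ (zR ^ j) n := fun n => by
    rw [← dA_nat]; exact dv_nonneg (Nat.cast_nonneg j) n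
  have he0 : ∀ i, 0 ≤ e i := fun i => (he i).le
  have hW0 : ∀ n, 0 ≤ W n := mul_nonneg_af hz0 (PA_nonneg he0 _)
  have hw : (0:ℝ) ≤ j + ∑ i, e i := by
    have := sum_nonneg fun i (_ : i ∈ univ) => he0 i
    positivity
  have hWw : ∀ n, W n ≤ dA (j + ∑ i, e i) n := by
    intro k
    rw [← dA_mul, dA_nat]
    exact af_mul_mono hz0 (PA_le he0 _) k
  have h1 := hT ρ hρ hρ1 W (j + ∑ i, e i) hW0 hw (by linarith) hWw ε Y m hε0 hε1 hY1 hT3 hT2 hm hmi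
  -- comparison with N_sum
  have h2 : c' * Real.log Y ^ (κ ^ 2) ≤ Ph κ Y (W * dA (κ * ρ)) := by
    refine hT1.trans ?_
    have e1 : (zR ^ j * PA (Fin.cons (κ * ρ) e : Fin (n + 1) → ℝ)
        (fun i => Y ^ (Fin.cons b β : Fin (n + 1) → ℝ) i)) =
        W * tr (dA (κ * ρ)) (Y ^ b) := by
      rw [hW]
      unfold PA
      rw [Fin.prod_univ_succ]
      simp only [Fin.cons_zero, Fin.cons_succ]
      ring
    rw [e1]
    show Ph κ Y (W * tr (dA (κ * ρ)) (Y ^ b)) ≤ _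
    refine Ph_mono hκ0.le ?_
    exact af_mul_mono hW0 (tr_le (fun m => dv_nonneg hκρ.le m) _)
  have hL0 : 0 < Real.log Y := by linarith
  set Λ := Real.log Y ^ (κ ^ 2) with hΛ
  have hΛ0 : 0 < Λ := Real.rpow_pos_of_pos hL0 _
  set G := Ph κ Y (W * GT κ ρ m Y) with hG
  have hG0 : 0 ≤ G := Ph_nonneg hκ0.le (mul_nonneg_af hW0 (GT_nonneg hκ0.le ρ m Y))
  have h3 : 0 ≤ G + C * Real.sqrt ρ * Λ := by positivity
  have h4 : c' * Λ ≤ c' / c * (G + C * Real.sqrt ρ * Λ) := by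
    refine (h2.trans h1).trans ?_
    exact mul_le_mul_of_nonneg_right hε2 h3
  have h5 : c * Λ ≤ G + C * Real.sqrt ρ * Λ := by
    have h6 : c' / c * (G + C * Real.sqrt ρ * Λ) = c' * ((G + C * Real.sqrt ρ * Λ) / c) := by
      field_simp
    rw [h6] at h4
    have h7 := le_of_mul_le_mul_left h4 hc'0
    rw [le_div_iff₀ hc0] at h7
    linarith
  linarith

/-- the window integral of the numerator with tail -/
theorem N_windowG {κ : ℝ} (hκ : 1 ≤ κ) : ∃ C : ℝ, 0 < C ∧ ∀ (n : ℕ) (j : ℕ), 1 ≤ j →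
    ∀ (e : Fin n → ℝ), (∀ i, 0 < e i) → ∀ ρ : ℝ, 0 < ρ → ρ ≤ 1 / 4 → κ = j + ∑ i, e i + κ * ρ →
    ∀ (β : Fin n → ℝ), (∀ i, 0 < β i) → ∀ b : ℝ, 0 < b → ∑ i, β i + b ≤ 1 → ∑ i, β i + ρ ≤ 1 →
    1 ≤ κ * j →
    ∀ c : ℝ, 0 < c → c < Nf κ j (Fin.cons (κ * ρ) e : Fin (n + 1) → ℝ) (Fin.cons b β) →
    ∀ η δ : ℝ, 0 < η → η < 1 / 2 → 0 < δ → δ ≤ 1 → ∃ ε : ℝ, 0 < ε ∧ ∀ᶠ T : ℝ in atTop, ∀ m : ℕ,
      gR ρ m ≤ ε / Real.log (Real.log (Yt η T)) →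
      (∀ i < m, ε / Real.log (Real.log (Yt η T)) < gR ρ i) →
      ∀ τ : ℝ, δ * T ≤ τ → τ ≤ Real.exp (T ^ η) →
      (c - C * Real.sqrt ρ) * Real.log (Yt η T) ^ (κ ^ 2) ≤
      ‖∫ t in (τ - δ / 2 * T)..(τ + δ / 2 * T), (riemannZeta (1 / 2 + t * Complex.I) ^ j *
          ((∏ i, Dp (tr (dA (e i)) (Yt η T ^ β i)) (Yt η T ^ β i) (1 / 2 + t * Complex.I)) *
          ∏ i ∈ range m, Dp (tr (dA (κ / gq ρ i)) (Yt η T ^ (1 / (gq ρ i : ℝ))))
            (Yt η T ^ (1 / (gq ρ i : ℝ))) (1 / 2 + t * Complex.I))) *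
        (starRingEnd ℂ) (Dp (dA κ) (Yt η T) (1 / 2 + t * Complex.I)) * (gw τ (Ht η T) t : ℂ)‖ := by
  obtain ⟨C, hC, hT⟩ := Ph_GT hκ
  have hκ0 : 0 < κ := by linarith
  refine ⟨C, hC, ?_⟩
  intro n j hj e he ρ hρ hρ1 hκs β hβ b hb hβs hβρ hm0 c hc0 hc η δ hη hη2 hδ hδ1
  obtain ⟨c', hcc', hc'⟩ := exists_between hc
  obtain ⟨ε, hε, hE⟩ := hT n j hj e he ρ hρ hρ1 hκs β hβ b hb hβs hm0 c' (hc0.trans hcc') hc' η hη2
  refine ⟨ε, hε, ?_⟩
  obtain ⟨J, hJ⟩ := exists_nat_ge κ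
  have hcore := H295LM.core_evX j J η δ hη hη2 hδ hδ1
  have hbig : ∀ᶠ T : ℝ in atTop, 1 ≤ (c' - c) * Real.log (Yt η T) ^ (κ ^ 2) := by
    have h1 : Tendsto (fun T : ℝ => (c' - c) * Real.log (Yt η T) ^ (κ ^ 2)) atTop atTop :=
      Tendsto.const_mul_atTop (by linarith)
        ((tendsto_rpow_atTop (by positivity)).comp (Yt_tendsto hη2))
    exact h1.eventually_ge_atTop 1
  filter_upwards [hE, hcore, hbig, eventually_ge_atTop 1] with T hT1 hT2 hT3 hT4 m hm hmi τ hτ1 hτ2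
  have hT0 : 0 < T := by linarith
  have h0 := hT1 m hm hmi
  set Y := Yt η T with hYdef
  have hY1 : 1 ≤ Y := one_le_Yt hη2 hT4
  have hYT : Y ≤ T := Yt_le hη hT4
  have he0 : ∀ i, 0 ≤ e i := fun i => (he i).le
  have hf0 : ∀ i, 0 ≤ κ / (gq ρ i : ℝ) := fun i => div_nonneg hκ0.le (gq_pos ρ i).le
  have hD1 := fun s => Dp_prod univ (fun i => tr (dA (e i)) (Y ^ β i)) (fun i => Y ^ β i)
    (fun i => Real.one_le_rpow hY1 (hβ i).le) (fun i n hn => tr_supp _ _ n hn) s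
  have hD2 := fun s => Dp_prod (range m)
    (fun i => tr (dA (κ / gq ρ i)) (Y ^ (1 / (gq ρ i : ℝ)))) (fun i => Y ^ (1 / (gq ρ i : ℝ)))
    (fun i => Real.one_le_rpow hY1 (by have := gq_pos ρ i; positivity))
    (fun i n hn => tr_supp _ _ n hn) s
  set X1 := ∏ i, Y ^ β i with hX1
  set X2 := ∏ i ∈ range m, Y ^ (1 / (gq ρ i : ℝ)) with hX2
  have hX1n : 0 ≤ X1 := prod_nonneg fun i _ => by positivity
  have hX2n : 0 ≤ X2 := prod_nonneg fun i _ => by positivity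
  have hX : X1 * X2 ≤ Y := by
    rw [hX1, hX2, ← Real.rpow_sum_of_pos (by linarith), ← Real.rpow_sum_of_pos (by linarith),
      ← Real.rpow_add (by linarith), gq_sum]
    calc Y ^ (∑ i, β i + (ρ - gR ρ m)) ≤ Y ^ (1:ℝ) := by
          refine Real.rpow_le_rpow_of_exponent_le hY1 ?_
          have := gR_pos hρ m
          linarith
      _ = Y := Real.rpow_one Y
  have hDm := fun s => Dp_mul (PA e (fun i => Y ^ β i)) (GT κ ρ m Y) X1 X2 hX1n hX2n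
    (hD1 0).1 (hD2 0).1 s
  set A : ArithmeticFunction ℝ := PA e (fun i => Y ^ β i) * GT κ ρ m Y with hA
  have hA0 : ∀ n, 0 ≤ A n := mul_nonneg_af (PA_nonneg he0 _) (GT_nonneg hκ0.le ρ m Y)
  have hηm := gR_pos hρ m
  have hρη : 0 ≤ κ * (ρ - gR ρ m) := mul_nonneg hκ0.le (by
    have := gR_le' hρ hρ1 m; linarith)
  have hAle : ∀ n, A n ≤ dA κ n := by
    intro k
    have h1 := af_mul_mono2 (PA_nonneg he0 (fun i => Y ^ β i)) (fun n => dv_nonneg hρη n)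
      (PA_le he0 (fun i => Y ^ β i)) (GT_le hκ0.le ρ m Y) k
    refine h1.trans ?_
    rw [dA_mul, dA_apply, dA_apply]
    have h2 : 0 ≤ ∑ i, e i := sum_nonneg fun i _ => he0 i
    refine dv_mono (by linarith) ?_ k
    have : 0 ≤ κ * gR ρ m := by positivity
    have h3 : (0:ℝ) ≤ j := Nat.cast_nonneg j
    nlinarith
  have hPBA : PB A J := by
    intro k
    rw [abs_of_nonneg (hA0 k)]
    exact (hAle k).trans ((le_abs_self _).trans (PB_dA hκ0.le hJ k))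
  have hsupp : ∀ n : ℕ, T < n → A n = 0 := fun n hn => (hDm 0).1 n (by linarith)
  have h := hT2 τ hτ1 hτ2 A (dA κ) hPBA hsupp (PB_dA hκ0.le hJ)
  have hDp : ∀ s, Dp A T s = (∏ i, Dp (tr (dA (e i)) (Y ^ β i)) (Y ^ β i) s) *
      ∏ i ∈ range m, Dp (tr (dA (κ / gq ρ i)) (Y ^ (1 / (gq ρ i : ℝ))))
            (Y ^ (1 / (gq ρ i : ℝ))) s := by
    intro s
    rw [Dp_mono A (X1 * X2) T (by linarith) (hDm s).1, (hDm s).2]
    congr 1
    · exact (hD1 s).2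
    · exact (hD2 s).2
  simp only [hDp] at h
  have h2 := norm_sub_norm_le (((∑ k ∈ Icc 1 ⌊Y⌋₊, (zR ^ j * A) k * dA κ k / k : ℝ) : ℂ))
    (∫ t in (τ - δ / 2 * T)..(τ + δ / 2 * T), (riemannZeta (1 / 2 + t * Complex.I) ^ j *
          ((∏ i, Dp (tr (dA (e i)) (Y ^ β i)) (Y ^ β i) (1 / 2 + t * Complex.I)) *
      ∏ i ∈ range m, Dp (tr (dA (κ / gq ρ i)) (Y ^ (1 / (gq ρ i : ℝ))))
            (Y ^ (1 / (gq ρ i : ℝ))) (1 / 2 + t * Complex.I))) *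
        (starRingEnd ℂ) (Dp (dA κ) Y (1 / 2 + t * Complex.I)) * (gw τ (Ht η T) t : ℂ))
  rw [norm_sub_rev] at h2
  rw [Complex.norm_real] at h2
  have h3 := Real.le_norm_self (∑ k ∈ Icc 1 ⌊Y⌋₊, (zR ^ j * A) k * dA κ k / k)
  have e1 : Ph κ Y (zR ^ j * PA e (fun i => Y ^ β i) * GT κ ρ m Y) =
      ∑ k ∈ Icc 1 ⌊Y⌋₊, (zR ^ j * A) k * dA κ k / k := by
    rw [hA, ← mul_assoc]; rfl
  rw [e1] at h0
  have h4 : (c - C * Real.sqrt ρ) * Real.log Y ^ (κ ^ 2) + (c' - c) * Real.log Y ^ (κ ^ 2) =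
      (c' - C * Real.sqrt ρ) * Real.log Y ^ (κ ^ 2) := by ring
  linarith

/-- the window integrals of the tail polynomials -/
theorem K_windowG {κ : ℝ} (hκ : 0 < κ) : ∃ K : ℝ, 1 ≤ K ∧
    ∀ η δ : ℝ, 0 < η → η < 1 / 2 → 0 < δ → δ ≤ 1 →
    ∀ᶠ T : ℝ in atTop, ∀ τ : ℝ, δ * T ≤ τ → τ ≤ Real.exp (T ^ η) → ∀ q : ℕ, 1 ≤ q →
      ∫ t in (τ - δ / 2 * T)..(τ + δ / 2 * T),
        ‖Dp (tr (dA (κ / q)) (Yt η T ^ (1 / (q:ℝ)))) (Yt η T ^ (1 / (q:ℝ))) (1 / 2 + t * Complex.I)‖ ^ (2 * q) *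
          gw τ (Ht η T) t ≤ K * Real.log (Yt η T) ^ (κ ^ 2) := by
  obtain ⟨C, hC, hP⟩ := Ph_dA_le hκ
  refine ⟨C + 1, by linarith, ?_⟩
  intro η δ hη hη2 hδ hδ1
  obtain ⟨J, hJ⟩ := exists_nat_ge κ
  have hcore := H295LM.core_evX 0 J η δ hη hη2 hδ hδ1
  filter_upwards [hcore, (Yt_tendsto hη2).eventually_ge_atTop 1, eventually_ge_atTop 1] with
    T hT2 hT3 hT4 τ hτ1 hτ2 q hq
  have hT0 : 0 < T := by linarith
  set Y := Yt η T with hYdef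
  have hY1 : 1 ≤ Y := one_le_Yt hη2 hT4
  have hYT : Y ≤ T := Yt_le hη hT4
  have hq0 : (0:ℝ) < q := by exact_mod_cast hq
  have hf0 : 0 ≤ κ / (q:ℝ) := by positivity
  set X := Y ^ (1 / (q:ℝ)) with hX
  have hX1 : 1 ≤ X := Real.one_le_rpow hY1 (by positivity)
  have hXq : X ^ q = Y := by
    rw [hX, ← Real.rpow_natCast, ← Real.rpow_mul (by linarith)]
    rw [one_div_mul_cancel hq0.ne', Real.rpow_one]
  set B := tr (dA (κ / (q:ℝ))) X with hB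
  have hD := fun s => Dp_pow B X hX1 (fun n hn => tr_supp _ _ n hn) s q
  have hqκ : (q:ℝ) * (κ / q) = κ := by field_simp
  have hB0 : ∀ n, 0 ≤ (B ^ q) n := tr_pow_nonneg hf0 X q
  have hB1 : ∀ n, (B ^ q) n ≤ dA κ n := fun n => by
    have := tr_pow_le hf0 X q n
    rwa [hqκ] at this
  have hPB : PB (B ^ q) J := by
    intro m
    rw [abs_of_nonneg (hB0 m)]
    exact (hB1 m).trans ((le_abs_self _).trans (PB_dA hκ.le hJ m))
  have h := hT2 τ hτ1 hτ2 (B ^ q) (B ^ q) hPB (fun n hn => (hD 0).1 n (by rw [hXq]; linarith)) hPB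
  have hDT : ∀ s, Dp (B ^ q : ArithmeticFunction ℝ) T s = Dp B X s ^ q := by
    intro s
    rw [Dp_mono (B ^ q) (X ^ q) T (by rw [hXq]; linarith) (hD s).1]
    exact (hD s).2
  have hDY : ∀ s, Dp (B ^ q : ArithmeticFunction ℝ) Y s = Dp B X s ^ q := by
    intro s
    rw [Dp_mono (B ^ q) (X ^ q) Y hXq.le (hD s).1]
    exact (hD s).2
  simp only [hDT, hDY, pow_zero, one_mul] at h
  have hint : ∀ t : ℝ, Dp B X (1 / 2 + t * Complex.I) ^ q *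
      (starRingEnd ℂ) (Dp B X (1 / 2 + t * Complex.I) ^ q) * (gw τ (Ht η T) t : ℂ) =
      ((‖Dp B X (1 / 2 + t * Complex.I)‖ ^ (2 * q) * gw τ (Ht η T) t : ℝ) : ℂ) := by
    intro t
    rw [Complex.mul_conj, Complex.normSq_eq_norm_sq, norm_pow, ← pow_mul, mul_comm q 2]
    push_cast
    ring
  simp only [hint] at h
  rw [intervalIntegral.integral_ofReal, ← Complex.ofReal_sub, Complex.norm_real] at h
  have h3 := (Real.le_norm_self _).trans h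
  have h4 : ∑ m ∈ Icc 1 ⌊Y⌋₊, (B ^ q) m * (B ^ q) m / m ≤ Ph κ Y (dA κ) := by
    unfold Ph
    refine sum_le_sum fun m _ => ?_
    have h5 := hB0 m
    have h6 := hB1 m
    have h7 : 0 ≤ dA κ m := h5.trans h6
    gcongr
  have h5 := hP κ Y hκ.le le_rfl (by linarith) hT3
  rw [← pow_two] at h5
  have h6 : (1:ℝ) ≤ Real.log Y ^ (κ ^ 2) := Real.one_le_rpow hT3 (by positivity)
  linarith

end

end Pool.Agent.W181.Mom
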